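import Mathlib

set_option autoImplicit false

namespace Pool.Agent.Lib.MP_ed8a78_an

/-- The quadratic form `a^2 + a b + b^2`. -/
def N {R : Type*} [CommRing R] (v : R × R) : R := v.1 ^ 2 + v.1 * v.2 + v.2 ^ 2

/-- The three (rescaled) harmonic extension maps in centred coordinates. -/
def C {R : Type*} [CommRing R] (i : Fin 3) (v : R × R) : R × R :=
  if i = 0 then (3 * v.1, v.2 - v.1)
  else if i = 1 then (v.1 - v.2, 3 * v.2)
  else (2 * v.1 + v.2, v.1 + 2 * v.2)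

/-- the three coordinates -/
def co {R : Type*} [CommRing R] (i : Fin 3) (v : R × R) : R :=
  if i = 0 then v.1 else if i = 1 then v.2 else -(v.1 + v.2)

section ring
variable {R : Type*} [CommRing R]

@[simp] lemma C_zero (v : R × R) : C 0 v = (3 * v.1, v.2 - v.1) := by simp [C]
@[simp] lemma C_one (v : R × R) : C 1 v = (v.1 - v.2, 3 * v.2) := by simp [C]
@[simp] lemma C_two (v : R × R) : C 2 v = (2 * v.1 + v.2, v.1 + 2 * v.2) := by simp [C]
@[simp] lemma co_zero (v : R × R) : co 0 v = v.1 := by simp [co]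
@[simp] lemma co_one (v : R × R) : co 1 v = v.2 := by simp [co]
@[simp] lemma co_two (v : R × R) : co 2 v = -(v.1 + v.2) := by simp [co]

lemma N_C (i : Fin 3) (v : R × R) : N (C i v) = N v + 6 * (co i v) ^ 2 := by
  fin_cases i <;> simp [N] <;> ring

lemma sum_N_C (v : R × R) : ∑ i : Fin 3, N (C i v) = 15 * N v := by
  simp only [Fin.sum_univ_three, N_C, co_zero, co_one, co_two]
  unfold N
  ring

lemma C_add (i : Fin 3) (u v : R × R) : C i (u + v) = C i u + C i v := by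
  fin_cases i <;> simp <;> constructor <;> ring

lemma C_smul (i : Fin 3) (c : R) (v : R × R) : C i (c • v) = c • C i v := by
  fin_cases i <;> simp <;> constructor <;> ring

lemma N_smul (c : R) (v : R × R) : N (c • v) = c ^ 2 * N v := by
  simp [N]; ring

/-- The wedge product (signed area). -/
def wedge (u v : R × R) : R := u.1 * v.2 - u.2 * v.1

lemma wedge_C (i : Fin 3) (u v : R × R) : wedge (C i u) (C i v) = 3 * wedge u v := by
  fin_cases i <;> simp [wedge] <;> ring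

end ring

/-- Iterated map along a word, last letter applied last. -/
def Cw {R : Type*} [CommRing R] : (k : ℕ) → (Fin k → Fin 3) → R × R → R × R
  | 0, _, v => v
  | k + 1, w, v => C (w (Fin.last k)) (Cw k (fun j => w j.castSucc) v)

section ring
variable {R : Type*} [CommRing R]

@[simp] lemma Cw_zero (w : Fin 0 → Fin 3) (v : R × R) : Cw 0 w v = v := rfl

lemma Cw_succ (k : ℕ) (w : Fin (k + 1) → Fin 3) (v : R × R) :
    Cw (k + 1) w v = C (w (Fin.last k)) (Cw k (fun j => w j.castSucc) v) := rfl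

lemma Cw_add (k : ℕ) (w : Fin k → Fin 3) (u v : R × R) :
    Cw k w (u + v) = Cw k w u + Cw k w v := by
  induction k with
  | zero => simp
  | succ k ih => rw [Cw_succ, Cw_succ, Cw_succ, ih, C_add]

lemma Cw_smul (k : ℕ) (w : Fin k → Fin 3) (c : R) (v : R × R) :
    Cw k w (c • v) = c • Cw k w v := by
  induction k with
  | zero => simp
  | succ k ih => rw [Cw_succ, Cw_succ, ih, C_smul]

end ring

/-- cast of an integer vector -/
def castV (v : ℤ × ℤ) : ℝ × ℝ := ((v.1 : ℝ), (v.2 : ℝ))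

lemma castV_C (i : Fin 3) (v : ℤ × ℤ) : castV (C i v) = C i (castV v) := by
  fin_cases i <;> simp [castV]

lemma castV_Cw (k : ℕ) (w : Fin k → Fin 3) (v : ℤ × ℤ) :
    castV (Cw k w v) = Cw k w (castV v) := by
  induction k with
  | zero => simp
  | succ k ih => rw [Cw_succ, Cw_succ, castV_C, ih]

lemma N_castV (v : ℤ × ℤ) : N (castV v) = ((N v : ℤ) : ℝ) := by
  simp [N, castV]

section real

lemma N_nonneg (v : ℝ × ℝ) : 0 ≤ N v := by
  unfold N; nlinarith [sq_nonneg (v.1 + v.2), sq_nonneg v.1, sq_nonneg v.2]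

lemma N_pos {v : ℝ × ℝ} (hv : v ≠ 0) : 0 < N v := by
  rcases v with ⟨a, b⟩
  unfold N
  simp only
  by_contra h
  push Not at h
  have ha : a = 0 := by nlinarith [sq_nonneg (a + b), sq_nonneg a, sq_nonneg b]
  have hb : b = 0 := by nlinarith [sq_nonneg (a + b), sq_nonneg a, sq_nonneg b]
  exact hv (by simp [ha, hb])

lemma N_eq_zero_iff (v : ℝ × ℝ) : N v = 0 ↔ v = 0 := by
  constructor
  · intro h; by_contra hv; exact absurd h (N_pos hv).ne'
  · rintro rfl; simp [N]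

lemma N_le_N_C (i : Fin 3) (v : ℝ × ℝ) : N v ≤ N (C i v) := by
  rw [N_C]; nlinarith [sq_nonneg (co i v)]

lemma N_C_le (i : Fin 3) (v : ℝ × ℝ) : N (C i v) ≤ 9 * N v := by
  rw [N_C]
  fin_cases i <;> simp [N] <;> nlinarith [sq_nonneg (v.1 + v.2), sq_nonneg (v.1 - v.2), sq_nonneg (v.1 + 2 * v.2), sq_nonneg (2 * v.1 + v.2)]

lemma C_ne_zero (i : Fin 3) {v : ℝ × ℝ} (hv : v ≠ 0) : C i v ≠ 0 := by
  intro h
  have h1 := N_le_N_C i v
  rw [h] at h1
  have h2 := N_pos hv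
  have : N (0 : ℝ × ℝ) = 0 := by simp [N]
  linarith

lemma Cw_ne_zero (k : ℕ) (w : Fin k → Fin 3) {v : ℝ × ℝ} (hv : v ≠ 0) : Cw k w v ≠ 0 := by
  induction k with
  | zero => simpa using hv
  | succ k ih => rw [Cw_succ]; exact C_ne_zero _ (ih _)

lemma N_le_N_Cw (k : ℕ) (w : Fin k → Fin 3) (v : ℝ × ℝ) : N v ≤ N (Cw k w v) := by
  induction k with
  | zero => simp
  | succ k ih => rw [Cw_succ]; exact (ih _).trans (N_le_N_C _ _)

lemma N_Cw_le (k : ℕ) (w : Fin k → Fin 3) (v : ℝ × ℝ) : N (Cw k w v) ≤ 9 ^ k * N v := by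
  induction k with
  | zero => simp
  | succ k ih =>
    rw [Cw_succ, pow_succ]
    calc _ ≤ 9 * N (Cw k (fun j => w j.castSucc) v) := N_C_le _ _
      _ ≤ 9 * (9 ^ k * N v) := by gcongr; exact ih _
      _ = _ := by ring

/-- The polar form of `N`, normalised so that `bil v v = 2 N v`. -/
def bil (u v : ℝ × ℝ) : ℝ := 2 * u.1 * v.1 + u.1 * v.2 + u.2 * v.1 + 2 * u.2 * v.2

lemma bil_sq (u v : ℝ × ℝ) : 4 * (N u * N v) = bil u v ^ 2 + 3 * wedge u v ^ 2 := by
  unfold N bil wedge; ring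

lemma N_add (u v : ℝ × ℝ) : N (u + v) = N u + N v + bil u v := by
  simp [N, bil]; ring

/-- The norm. -/
noncomputable def nr (v : ℝ × ℝ) : ℝ := Real.sqrt (N v)

lemma nr_nonneg (v : ℝ × ℝ) : 0 ≤ nr v := Real.sqrt_nonneg _

lemma nr_sq (v : ℝ × ℝ) : nr v ^ 2 = N v := Real.sq_sqrt (N_nonneg v)

lemma nr_pos {v : ℝ × ℝ} (hv : v ≠ 0) : 0 < nr v := Real.sqrt_pos.2 (N_pos hv)

lemma nr_add_le (u v : ℝ × ℝ) : nr (u + v) ≤ nr u + nr v := by
  unfold nr
  rw [Real.sqrt_le_left (by positivity)]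
  have hu := Real.sq_sqrt (N_nonneg u)
  have hv := Real.sq_sqrt (N_nonneg v)
  have h1 : bil u v ≤ 2 * (Real.sqrt (N u) * Real.sqrt (N v)) := by
    have h2 : bil u v ^ 2 ≤ (2 * (Real.sqrt (N u) * Real.sqrt (N v))) ^ 2 := by
      have := bil_sq u v
      have h3 : (2 * (Real.sqrt (N u) * Real.sqrt (N v))) ^ 2 = 4 * (N u * N v) := by
        rw [mul_pow, mul_pow, hu, hv]; ring
      rw [h3, this]
      nlinarith [sq_nonneg (wedge u v)]
    exact abs_le_of_sq_le_sq' h2 (by positivity) |>.2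
  rw [N_add]
  nlinarith

lemma nr_smul (c : ℝ) (v : ℝ × ℝ) : nr (c • v) = |c| * nr v := by
  unfold nr
  rw [N_smul, Real.sqrt_mul (sq_nonneg c), Real.sqrt_sq_eq_abs]

lemma nr_sub_le (u v : ℝ × ℝ) : nr u - nr v ≤ nr (u + v) := by
  have h := nr_add_le (u + v) ((-1 : ℝ) • v)
  rw [nr_smul] at h
  have h2 : u + v + (-1 : ℝ) • v = u := by
    ext <;> simp
  rw [h2] at h
  simp at h
  linarith

lemma nr_C_le (i : Fin 3) (v : ℝ × ℝ) : nr (C i v) ≤ 3 * nr v := by
  unfold nr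
  have h : Real.sqrt (N (C i v)) ≤ Real.sqrt (3 ^ 2 * N v) :=
    Real.sqrt_le_sqrt (by have := N_C_le i v; linarith)
  rwa [Real.sqrt_mul (by norm_num), Real.sqrt_sq (by norm_num)] at h

lemma nr_le_nr_C (i : Fin 3) (v : ℝ × ℝ) : nr v ≤ nr (C i v) :=
  Real.sqrt_le_sqrt (N_le_N_C i v)

end real

/-- The transfer operator on functions. -/
def Lop (f : ℝ × ℝ → ℝ) (v : ℝ × ℝ) : ℝ := ∑ i : Fin 3, f (C i v)

lemma Lop_mono {f g : ℝ × ℝ → ℝ} (h : ∀ v, f v ≤ g v) (v : ℝ × ℝ) : Lop f v ≤ Lop g v :=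
  Finset.sum_le_sum fun _ _ => h _

lemma sum_snoc {M : Type*} [AddCommMonoid M] (k : ℕ) (F : (Fin (k + 1) → Fin 3) → M) :
    ∑ w : Fin (k + 1) → Fin 3, F w
      = ∑ w : Fin k → Fin 3, ∑ i : Fin 3, F (Fin.snoc (α := fun _ => Fin 3) w i) := by
  rw [← (Fin.snocEquiv (fun _ : Fin (k + 1) => Fin 3)).sum_comp, Fintype.sum_prod_type,
    Finset.sum_comm]
  rfl

lemma Cw_snoc {R : Type*} [CommRing R] (k : ℕ) (w : Fin k → Fin 3) (i : Fin 3) (v : R × R) :
    Cw (k + 1) (Fin.snoc (α := fun _ => Fin 3) w i) v = C i (Cw k w v) := by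
  rw [Cw_succ]
  congr 1
  · simp
  · congr 1
    ext j
    simp

lemma iterate_Lop (k : ℕ) (f : ℝ × ℝ → ℝ) (v : ℝ × ℝ) :
    Lop^[k] f v = ∑ w : Fin k → Fin 3, f (Cw k w v) := by
  induction k generalizing f with
  | zero => simp
  | succ k ih =>
    rw [Function.iterate_succ_apply, ih, sum_snoc]
    simp only [Cw_snoc]
    rfl

end Pool.Agent.Lib.MP_ed8a78_an
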