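import Mathlib

set_option autoImplicit false

namespace Pool.Agent.Lib.MP_ed8a78_an

/-- The exponent `19/13`, slightly below `log 5 / log 3`. -/
noncomputable def q1 : ℝ := 19 / 13

lemma rpow_neg_q1_le {a t : ℝ} (ha : 0 < a) (ht : 0 < t) (h : 1 ≤ t ^ 13 * a ^ 19) :
    a ^ (-q1) ≤ t := by
  have h1 : (a ^ (-q1)) ^ 13 = (a ^ 19)⁻¹ := by
    rw [← Real.rpow_natCast (a ^ (-q1)) 13, ← Real.rpow_mul ha.le]
    have : -q1 * ((13 : ℕ) : ℝ) = -((19 : ℕ) : ℝ) := by unfold q1; push_cast; ring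
    rw [this, Real.rpow_neg ha.le, Real.rpow_natCast]
  have h2 : (a ^ (-q1)) ^ 13 ≤ t ^ 13 := by
    rw [h1, inv_le_iff_one_le_mul₀ (by positivity)]
    exact h
  exact le_of_pow_le_pow_left₀ (by norm_num) ht.le h2

lemma rpow_q1_le {a t : ℝ} (ha : 0 < a) (ht : 0 < t) (h : a ^ 19 ≤ t ^ 13) :
    a ^ q1 ≤ t := by
  have h1 : (a ^ q1) ^ 13 = a ^ 19 := by
    rw [← Real.rpow_natCast (a ^ q1) 13, ← Real.rpow_mul ha.le]
    have : q1 * ((13 : ℕ) : ℝ) = ((19 : ℕ) : ℝ) := by unfold q1; push_cast; ring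
    rw [this, Real.rpow_natCast]
  exact le_of_pow_le_pow_left₀ (by norm_num) ht.le (h1.le.trans h)

lemma rpow_neg_2q1_le {a t : ℝ} (ha : 0 < a) (ht : 0 < t) (h : 1 ≤ t ^ 13 * a ^ 38) :
    a ^ (-(2 * q1)) ≤ t := by
  have h1 : (a ^ (-(2 * q1))) ^ 13 = (a ^ 38)⁻¹ := by
    rw [← Real.rpow_natCast (a ^ (-(2 * q1))) 13, ← Real.rpow_mul ha.le]
    have : -(2 * q1) * ((13 : ℕ) : ℝ) = -((38 : ℕ) : ℝ) := by unfold q1; push_cast; ring
    rw [this, Real.rpow_neg ha.le, Real.rpow_natCast]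
  have h2 : (a ^ (-(2 * q1))) ^ 13 ≤ t ^ 13 := by
    rw [h1, inv_le_iff_one_le_mul₀ (by positivity)]
    exact h
  exact le_of_pow_le_pow_left₀ (by norm_num) ht.le h2

/-- The function dominating `N (C_w v) ^ (-q1)`. -/
noncomputable def FF (δ t : ℝ) : ℝ := (Real.sqrt t - δ) ^ (-(2 * q1))

lemma q1_pos : 0 < q1 := by unfold q1; norm_num

lemma base_pos {δ t : ℝ} (hδ : δ ≤ 3) (ht : 13 ≤ t) : 0 < Real.sqrt t - δ := by
  have : (3.6 : ℝ) ≤ Real.sqrt t := by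
    apply Real.le_sqrt_of_sq_le
    norm_num
    linarith
  linarith

lemma FF_nonneg {δ t : ℝ} (hδ : δ ≤ 3) (ht : 13 ≤ t) : 0 ≤ FF δ t :=
  Real.rpow_nonneg (base_pos hδ ht).le _

lemma FF_anti {δ s t : ℝ} (hδ : δ ≤ 3) (hs : 13 ≤ s) (hst : s ≤ t) : FF δ t ≤ FF δ s := by
  unfold FF
  apply Real.rpow_le_rpow_of_nonpos (base_pos hδ hs)
  · have := Real.sqrt_le_sqrt hst
    linarith
  · have := q1_pos; linarith

lemma FF_mono_delta {δ δ' t : ℝ} (hδ : δ' ≤ 3) (h : δ ≤ δ') (ht : 13 ≤ t) :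
    FF δ t ≤ FF δ' t := by
  unfold FF
  apply Real.rpow_le_rpow_of_nonpos (base_pos hδ ht)
  · linarith
  · have := q1_pos; linarith

lemma FF_le {δ t b u : ℝ} (hb : 0 < b) (hu : 0 < u) (h1 : (b + δ) ^ 2 ≤ t)
    (h : 1 ≤ u ^ 13 * b ^ 38) : FF δ t ≤ u := by
  have h3 : b ≤ Real.sqrt t - δ := by
    have := Real.le_sqrt_of_sq_le h1
    linarith
  refine le_trans ?_ (rpow_neg_2q1_le hb hu h)
  unfold FF
  apply Real.rpow_le_rpow_of_nonpos hb h3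
  have := q1_pos; linarith

/-- telescoping bound: `y^{-(s+1)} ≤ (1/s) ((y-1)^{-s} - y^{-s})`. -/
lemma telescope {s y : ℝ} (hs : 0 < s) (hy : 1 < y) :
    y ^ (-(s + 1)) ≤ (1 / s) * ((y - 1) ^ (-s) - y ^ (-s)) := by
  have hy0 : 0 < y := by linarith
  have hy1 : 0 < y - 1 := by linarith
  have hq : 0 < (y - 1) / y := by positivity
  have hb : 1 + s / y ≤ ((y - 1) / y) ^ (-s) := by
    rw [Real.rpow_def_of_pos hq]
    have h1 : Real.log ((y - 1) / y) ≤ (y - 1) / y - 1 := Real.log_le_sub_one_of_pos hq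
    have h2 : (y - 1) / y - 1 = -(1 / y) := by field_simp; ring
    have h3 : s / y ≤ Real.log ((y - 1) / y) * -s := by
      rw [h2] at h1
      have : s / y = -(1 / y) * -s := by ring
      rw [this]
      nlinarith
    have h4 := Real.add_one_le_exp (Real.log ((y - 1) / y) * -s)
    linarith
  have h5 : (y - 1) ^ (-s) = ((y - 1) / y) ^ (-s) * y ^ (-s) := by
    rw [← Real.mul_rpow hq.le hy0.le, div_mul_cancel₀ _ hy0.ne']
  have h6 : y ^ (-(s + 1)) = y ^ (-s) / y := by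
    rw [show -(s + 1) = -s - 1 by ring, Real.rpow_sub_one hy0.ne']
  have h7 : 0 < y ^ (-s) := Real.rpow_pos_of_pos hy0 _
  rw [h5, h6]
  have h8 : (1 / s) * (((y - 1) / y) ^ (-s) * y ^ (-s) - y ^ (-s))
      = (1 / s) * (((y - 1) / y) ^ (-s) - 1) * y ^ (-s) := by ring
  rw [h8, div_eq_mul_inv, mul_comm (y ^ (-s))]
  apply mul_le_mul_of_nonneg_right _ h7.le
  rw [one_div, ← div_eq_inv_mul, le_div_iff₀ hs]
  have : y⁻¹ * s = s / y := by ring
  linarith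

/-- Generic tail bound, `k` from `11` on. -/
lemma tail_bound {d κ B : ℝ} (hd0 : 0 ≤ d) (hd : d ≤ 1)
    (hκ : (23 : ℝ) / 3 ≤ κ * (11 - d)) (hκ0 : 2 / 3 ≤ κ)
    (hB : (10 - d) ^ (-(12 / 13 : ℝ)) ≤ B) (K : ℕ) :
    ∑ k ∈ Finset.Ico 11 K, ((2 * (k : ℝ) + 1) / 3) * ((k : ℝ) - d) ^ (-(2 * q1))
      ≤ κ * (13 / 12) * B := by
  have hterm : ∀ k ∈ Finset.Ico 11 K, ((2 * (k : ℝ) + 1) / 3) * ((k : ℝ) - d) ^ (-(2 * q1))
      ≤ κ * (13 / 12) * (((k : ℝ) - d - 1) ^ (-(12 / 13 : ℝ)) - ((k : ℝ) - d) ^ (-(12 / 13 : ℝ))) := by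
    intro k hk
    rw [Finset.mem_Ico] at hk
    have hk11 : (11 : ℝ) ≤ k := by exact_mod_cast hk.1
    have hy : 1 < (k : ℝ) - d := by linarith
    have h1 := telescope (s := 12 / 13) (by norm_num) hy
    have h2 : ((k : ℝ) - d) ^ (-(2 * q1)) = ((k : ℝ) - d) ^ (-((12 / 13 : ℝ) + 1)) * ((k : ℝ) - d)⁻¹ := by
      rw [← div_eq_mul_inv, ← Real.rpow_sub_one (by linarith)]
      congr 1
      unfold q1; norm_num
    have h3 : (2 * (k : ℝ) + 1) / 3 ≤ κ * ((k : ℝ) - d) := by nlinarith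
    have hpos : 0 < (k : ℝ) - d := by linarith
    have h4 : 0 < ((k : ℝ) - d) ^ (-((12 / 13 : ℝ) + 1)) := Real.rpow_pos_of_pos hpos _
    rw [h2]
    calc _ ≤ κ * ((k : ℝ) - d) * (((k : ℝ) - d) ^ (-((12 / 13 : ℝ) + 1)) * ((k : ℝ) - d)⁻¹) := by
          apply mul_le_mul_of_nonneg_right h3 (by positivity)
      _ = κ * ((k : ℝ) - d) ^ (-((12 / 13 : ℝ) + 1)) := by
          field_simp
      _ ≤ κ * ((1 / (12 / 13)) * (((k : ℝ) - d - 1) ^ (-(12 / 13 : ℝ)) - ((k : ℝ) - d) ^ (-(12 / 13 : ℝ)))) := by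
          apply mul_le_mul_of_nonneg_left h1 (by linarith)
      _ = _ := by ring
  refine (Finset.sum_le_sum hterm).trans ?_
  rw [← Finset.mul_sum]
  apply mul_le_mul_of_nonneg_left _ (by linarith)
  rcases le_or_gt K 11 with hK | hK
  · rw [Finset.Ico_eq_empty (by omega), Finset.sum_empty]
    exact le_trans (Real.rpow_nonneg (by linarith) _) hB
  · have htel : ∀ M : ℕ, 11 ≤ M → ∑ k ∈ Finset.Ico 11 M,
        (((k : ℝ) - d - 1) ^ (-(12 / 13 : ℝ)) - ((k : ℝ) - d) ^ (-(12 / 13 : ℝ)))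
        = (10 - d) ^ (-(12 / 13 : ℝ)) - ((M : ℝ) - d - 1) ^ (-(12 / 13 : ℝ)) := by
      intro M hM
      induction M, hM using Nat.le_induction with
      | base =>
        rw [show ((11 : ℕ) : ℝ) - d - 1 = 10 - d by push_cast; ring]
        simp
      | succ M hM ih =>
        rw [Finset.sum_Ico_succ_top hM, ih]
        push_cast
        rw [show (M : ℝ) + 1 - d - 1 = M - d by ring]
        ring
    rw [htel K hK.le]
    have : 0 ≤ ((K : ℝ) - d - 1) ^ (-(12 / 13 : ℝ)) := by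
      apply Real.rpow_nonneg
      have : (11 : ℝ) ≤ K := by exact_mod_cast hK.le
      linarith
    linarith

lemma rpow_neg_12_13_le {a t : ℝ} (ha : 0 < a) (ht : 0 < t) (h : 1 ≤ t ^ 13 * a ^ 12) :
    a ^ (-(12 / 13 : ℝ)) ≤ t := by
  have h1 : (a ^ (-(12 / 13 : ℝ))) ^ 13 = (a ^ 12)⁻¹ := by
    rw [← Real.rpow_natCast (a ^ (-(12 / 13 : ℝ))) 13, ← Real.rpow_mul ha.le]
    have : -(12 / 13 : ℝ) * ((13 : ℕ) : ℝ) = -((12 : ℕ) : ℝ) := by push_cast; ring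
    rw [this, Real.rpow_neg ha.le, Real.rpow_natCast]
  have h2 : (a ^ (-(12 / 13 : ℝ))) ^ 13 ≤ t ^ 13 := by
    rw [h1, inv_le_iff_one_le_mul₀ (by positivity)]
    exact h
  exact le_of_pow_le_pow_left₀ (by norm_num) ht.le h2

/-- Assembling the shell sum from five explicit terms and the tail. -/
lemma shell_sum {δ d κ B u6 u7 u8 u9 u10 T : ℝ} (hδ : δ ≤ 3) (hd0 : 0 ≤ d) (hd : d ≤ 1)
    (hcd : δ ≤ 0.866 * d)
    (hκ : (23 : ℝ) / 3 ≤ κ * (11 - d)) (hκ0 : 2 / 3 ≤ κ)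
    (hB : (10 - d) ^ (-(12 / 13 : ℝ)) ≤ B)
    (h6 : FF δ (3 * (6 : ℝ) ^ 2 / 4) ≤ u6) (h7 : FF δ (3 * (7 : ℝ) ^ 2 / 4) ≤ u7)
    (h8 : FF δ (3 * (8 : ℝ) ^ 2 / 4) ≤ u8) (h9 : FF δ (3 * (9 : ℝ) ^ 2 / 4) ≤ u9)
    (h10 : FF δ (3 * (10 : ℝ) ^ 2 / 4) ≤ u10)
    (hT : 13 / 3 * u6 + 5 * u7 + 17 / 3 * u8 + 19 / 3 * u9 + 7 * u10
      + 1.523 * (κ * (13 / 12) * B) ≤ T) (K : ℕ) :
    ∑ k ∈ Finset.Ico 6 K, ((2 * (k : ℝ) + 1) / 3) * FF δ (3 * (k : ℝ) ^ 2 / 4) ≤ T := by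
  have hpos : ∀ k : ℕ, 6 ≤ k → 0 ≤ ((2 * (k : ℝ) + 1) / 3) * FF δ (3 * (k : ℝ) ^ 2 / 4) := by
    intro k hk
    have hk6 : (6 : ℝ) ≤ k := by exact_mod_cast hk
    have := FF_nonneg (δ := δ) (t := 3 * (k : ℝ) ^ 2 / 4) hδ (by nlinarith)
    positivity
  have h1 : ∑ k ∈ Finset.Ico 6 K, ((2 * (k : ℝ) + 1) / 3) * FF δ (3 * (k : ℝ) ^ 2 / 4)
      ≤ ∑ k ∈ Finset.Ico 6 (max K 11), ((2 * (k : ℝ) + 1) / 3) * FF δ (3 * (k : ℝ) ^ 2 / 4) := by
    apply Finset.sum_le_sum_of_subset_of_nonneg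
    · apply Finset.Ico_subset_Ico_right; exact le_max_left _ _
    · intro k hk _
      rw [Finset.mem_Ico] at hk
      exact hpos k hk.1
  refine h1.trans ?_
  rw [← Finset.sum_Ico_consecutive _ (by norm_num : 6 ≤ 11) (le_max_right K 11)]
  have h2 : ∑ k ∈ Finset.Ico (6 : ℕ) 11, ((2 * (k : ℝ) + 1) / 3) * FF δ (3 * (k : ℝ) ^ 2 / 4)
      ≤ 13 / 3 * u6 + 5 * u7 + 17 / 3 * u8 + 19 / 3 * u9 + 7 * u10 := by
    rw [Finset.sum_Ico_eq_sum_range]
    simp only [Nat.reduceSub, Finset.sum_range_succ, Finset.sum_range_zero, Nat.reduceAdd,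
      Nat.cast_ofNat, zero_add]
    linarith
  have hc : (0.866 : ℝ) ^ (-(2 * q1)) ≤ 1.523 :=
    rpow_neg_2q1_le (by norm_num) (by norm_num) (by norm_num)
  have h3 : ∑ k ∈ Finset.Ico 11 (max K 11), ((2 * (k : ℝ) + 1) / 3) * FF δ (3 * (k : ℝ) ^ 2 / 4)
      ≤ 1.523 * (κ * (13 / 12) * B) := by
    calc _ ≤ ∑ k ∈ Finset.Ico 11 (max K 11), 1.523 * (((2 * (k : ℝ) + 1) / 3) *
            ((k : ℝ) - d) ^ (-(2 * q1))) := by
          apply Finset.sum_le_sum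
          intro k hk
          rw [Finset.mem_Ico] at hk
          have hk11 : (11 : ℝ) ≤ k := by exact_mod_cast hk.1
          have hF : FF δ (3 * (k : ℝ) ^ 2 / 4) ≤ 1.523 * ((k : ℝ) - d) ^ (-(2 * q1)) := by
            have hs : 0.866 * (k : ℝ) ≤ Real.sqrt (3 * (k : ℝ) ^ 2 / 4) := by
              apply Real.le_sqrt_of_sq_le
              nlinarith
            have hb : 0.866 * ((k : ℝ) - d) ≤ Real.sqrt (3 * (k : ℝ) ^ 2 / 4) - δ := by
              nlinarith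
            unfold FF
            calc _ ≤ (0.866 * ((k : ℝ) - d)) ^ (-(2 * q1)) := by
                  apply Real.rpow_le_rpow_of_nonpos (by nlinarith) hb
                  have := q1_pos; linarith
              _ = (0.866 : ℝ) ^ (-(2 * q1)) * ((k : ℝ) - d) ^ (-(2 * q1)) := by
                  rw [Real.mul_rpow (by norm_num) (by linarith)]
              _ ≤ _ := by
                  apply mul_le_mul_of_nonneg_right hc
                  apply Real.rpow_nonneg; linarith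
          calc _ ≤ ((2 * (k : ℝ) + 1) / 3) * (1.523 * ((k : ℝ) - d) ^ (-(2 * q1))) := by
                apply mul_le_mul_of_nonneg_left hF
                positivity
            _ = _ := by ring
      _ = 1.523 * ∑ k ∈ Finset.Ico 11 (max K 11), (((2 * (k : ℝ) + 1) / 3) *
            ((k : ℝ) - d) ^ (-(2 * q1))) := by rw [Finset.mul_sum]
      _ ≤ _ := by
          apply mul_le_mul_of_nonneg_left _ (by norm_num)
          exact tail_bound hd0 hd hκ hκ0 hB _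
  linarith

lemma shell_34 (K : ℕ) :
    ∑ k ∈ Finset.Ico 6 K, ((2 * (k : ℝ) + 1) / 3) * FF (3 / 4) (3 * (k : ℝ) ^ 2 / 4) ≤ 0.321 := by
  apply shell_sum (d := 0.8661) (κ := 0.7567) (B := 0.1299) (u6 := 0.01277) (u7 := 0.00759)
    (u8 := 0.00488) (u9 := 0.00333) (u10 := 0.00237)
  · norm_num
  · norm_num
  · norm_num
  · norm_num
  · norm_num
  · norm_num
  · apply rpow_neg_12_13_le <;> norm_num
  · apply FF_le (b := 4.446) <;> norm_num
  · apply FF_le (b := 5.312) <;> norm_num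
  · apply FF_le (b := 6.178) <;> norm_num
  · apply FF_le (b := 7.044) <;> norm_num
  · apply FF_le (b := 7.91) <;> norm_num
  · norm_num

lemma shell_38 (K : ℕ) :
    ∑ k ∈ Finset.Ico 6 K, ((2 * (k : ℝ) + 1) / 3) * FF (3 / 8) (3 * (k : ℝ) ^ 2 / 4) ≤ 0.28 := by
  apply shell_sum (d := 0.4331) (κ := 0.7256) (B := 0.1245) (u6 := 0.01008) (u7 := 0.00622)
    (u8 := 0.00411) (u9 := 0.00286) (u10 := 0.00207)
  · norm_num
  · norm_num
  · norm_num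
  · norm_num
  · norm_num
  · norm_num
  · apply rpow_neg_12_13_le <;> norm_num
  · apply FF_le (b := 4.821) <;> norm_num
  · apply FF_le (b := 5.687) <;> norm_num
  · apply FF_le (b := 6.553) <;> norm_num
  · apply FF_le (b := 7.419) <;> norm_num
  · apply FF_le (b := 8.285) <;> norm_num
  · norm_num

lemma S_34 : 2 * FF (3 / 4) 13 + 2 * FF (3 / 4) 19 + 0.321 ≤ 0.4612 := by
  have h1 : FF (3 / 4) 13 ≤ 0.04657 := by apply FF_le (b := 2.8555) <;> norm_num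
  have h2 : FF (3 / 4) 19 ≤ 0.0235 := by apply FF_le (b := 3.6088) <;> norm_num
  linarith

lemma S_38 : 2 * FF (3 / 8) 13 + 2 * FF (3 / 8) 19 + 0.28 ≤ 0.3802 := by
  have h1 : FF (3 / 8) 13 ≤ 0.03247 := by apply FF_le (b := 3.2305) <;> norm_num
  have h2 : FF (3 / 8) 19 ≤ 0.0176 := by apply FF_le (b := 3.9838) <;> norm_num
  linarith

end Pool.Agent.Lib.MP_ed8a78_an
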