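import Pool.Agent.Lib.MP_ed8a78_an.Lattice
import Pool.Agent.Lib.MP_ed8a78_an.Numeric

set_option autoImplicit false

namespace Pool.Agent.Lib.MP_ed8a78_an

/-- zero word -/
def zw (k : ℕ) : Fin k → Fin 3 := fun _ => 0

lemma zw_snoc (m : ℕ) : (Fin.snoc (α := fun _ => Fin 3) (zw m) 0 : Fin (m + 1) → Fin 3) = zw (m + 1) := by
  ext j
  refine Fin.lastCases ?_ (fun j => ?_) j <;> simp [zw]

lemma exists_snoc {m : ℕ} (w : Fin (m + 1) → Fin 3) :
    ∃ (w' : Fin m → Fin 3) (i : Fin 3), w = Fin.snoc (α := fun _ => Fin 3) w' i :=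
  ⟨Fin.init w, w (Fin.last m), (Fin.snoc_init_self w).symm⟩

lemma gw_zw (k : ℕ) : gw k (zw k) = (0, 1) := by
  induction k with
  | zero => rfl
  | succ k ih =>
    unfold gw at *
    rw [← zw_snoc, Cw_snoc, ih]
    simp

lemma gw_snoc (k : ℕ) (w : Fin k → Fin 3) (i : Fin 3) :
    gw (k + 1) (Fin.snoc (α := fun _ => Fin 3) w i) = C i (gw k w) := by
  unfold gw; rw [Cw_snoc]

lemma N_C_int (i : Fin 3) (v : ℤ × ℤ) : N v ≤ N (C i v) := by
  rw [N_C]; nlinarith [sq_nonneg (co i v)]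

lemma seven_le {k : ℕ} {w : Fin k → Fin 3} (hw : w ≠ zw k) : 7 ≤ N (gw k w) := by
  induction k with
  | zero => exact absurd (Subsingleton.elim _ _) hw
  | succ k ih =>
    obtain ⟨w', i, rfl⟩ := exists_snoc w
    rw [gw_snoc]
    by_cases h : w' = zw k
    · subst h
      rw [gw_zw]
      have hi : i ≠ 0 := by
        rintro rfl; exact hw (zw_snoc k)
      fin_cases i
      · exact absurd rfl hi
      · simp [N]
      · simp [N]
    · exact (ih h).trans (N_C_int _ _)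

lemma co_ne_zero_of_seven_le {g : ℤ × ℤ} (hc : IsCoprime g.1 g.2) (h7 : 7 ≤ N g) (i : Fin 3) :
    co i g ≠ 0 := by
  rcases g with ⟨a, b⟩
  intro h
  unfold N at h7
  simp only at h7 hc
  fin_cases i
  · simp only [Fin.zero_eta, co_zero] at h
    subst h
    rw [isCoprime_zero_left, Int.isUnit_iff] at hc
    rcases hc with rfl | rfl <;> norm_num at h7
  · simp only [Fin.mk_one, co_one] at h
    subst h
    rw [isCoprime_zero_right, Int.isUnit_iff] at hc
    rcases hc with rfl | rfl <;> norm_num at h7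
  · simp only [Fin.reduceFinMk, co_two] at h
    have hb : b = -a := by omega
    subst hb
    have : IsUnit a := by
      rw [IsCoprime.neg_right_iff] at hc
      exact isCoprime_self.1 hc
    rw [Int.isUnit_iff] at this
    rcases this with rfl | rfl <;> norm_num at h7

lemma thirteen_le {m : ℕ} {w : Fin m → Fin 3} (hw : w ≠ zw m) (i : Fin 3) :
    13 ≤ N (gw (m + 1) (Fin.snoc (α := fun _ => Fin 3) w i)) := by
  rw [gw_snoc, N_C]
  have h7 := seven_le hw
  have h := co_ne_zero_of_seven_le (coprime_gw m w) h7 i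
  have : 1 ≤ (co i (gw m w)) ^ 2 := by
    have := sq_pos_of_ne_zero h
    omega
  omega

/-- companion vector -/
def tw (k : ℕ) (w : Fin k → Fin 3) : ℤ × ℤ := Cw k w (2, -1)

lemma tw_snoc (k : ℕ) (w : Fin k → Fin 3) (i : Fin 3) :
    tw (k + 1) (Fin.snoc (α := fun _ => Fin 3) w i) = C i (tw k w) := by
  unfold tw; rw [Cw_snoc]

lemma tw_zw (k : ℕ) : tw k (zw k) = (2 * 3 ^ k, - 3 ^ k) := by
  induction k with
  | zero => simp [tw]
  | succ k ih =>
    rw [← zw_snoc, tw_snoc, ih]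
    simp; constructor <;> ring

lemma N_C_le_int (i : Fin 3) (v : ℤ × ℤ) : N (C i v) ≤ 9 * N v := by
  rw [N_C]
  fin_cases i <;> simp [N] <;> nlinarith [sq_nonneg (v.1 + v.2), sq_nonneg (v.1 - v.2), sq_nonneg (v.1 + 2 * v.2), sq_nonneg (2 * v.1 + v.2)]

lemma N_tw_le {k : ℕ} {w : Fin k → Fin 3} (hw : w ≠ zw k) : N (tw k w) ≤ 9 ^ k := by
  induction k with
  | zero => exact absurd (Subsingleton.elim _ _) hw
  | succ k ih =>
    obtain ⟨w', i, rfl⟩ := exists_snoc w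
    rw [tw_snoc]
    by_cases h : w' = zw k
    · subst h
      rw [tw_zw]
      have hi : i ≠ 0 := by
        rintro rfl; exact hw (zw_snoc k)
      have h9 : (9 : ℤ) ^ (k + 1) = 9 * (3 ^ k) ^ 2 := by
        rw [← pow_mul, mul_comm k 2, pow_mul]; norm_num; ring
      rw [h9]
      fin_cases i
      · exact absurd rfl hi
      · simp [N]; nlinarith [sq_nonneg ((3 : ℤ) ^ k)]
      · simp [N]; nlinarith [sq_nonneg ((3 : ℤ) ^ k)]
    · have := N_C_le_int i (tw k w')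
      have h2 := ih h
      rw [pow_succ]
      omega

/-- The normalised point. -/
noncomputable def et (x : ℝ) : ℝ × ℝ := (x, 1 - x / 2)

lemma et_eq (x : ℝ) : et x = castV (0, 1) + (x / 2) • castV (2, -1) := by
  ext <;> simp [et, castV]; ring

lemma C_zero_et (x : ℝ) : C 0 (et x) = et (3 * x) := by
  simp [et]; ring

lemma N_et (x : ℝ) : N (et x) = 1 + 3 / 4 * x ^ 2 := by
  simp [et, N]; ring

lemma N_C0_et (x : ℝ) : N (C 0 (et x)) = 1 + 27 / 4 * x ^ 2 := by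
  simp [et, N]; ring

lemma N_C1_et (x : ℝ) : N (C 1 (et x)) = 7 - 6 * x + 9 / 4 * x ^ 2 := by
  simp [et, N]; ring

lemma N_C2_et (x : ℝ) : N (C 2 (et x)) = 7 + 6 * x + 9 / 4 * x ^ 2 := by
  simp [et, N]; ring

lemma Cw_zw_et (k : ℕ) (x : ℝ) : Cw k (zw k) (et x) = et (3 ^ k * x) := by
  induction k with
  | zero => simp
  | succ k ih =>
    rw [← zw_snoc, Cw_snoc, ih, C_zero_et]
    congr 1; ring

lemma et_ne_zero (x : ℝ) : et x ≠ 0 := by
  intro h
  have := N_et x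
  rw [h] at this
  simp [N] at this
  nlinarith [sq_nonneg x]

lemma Cw_et (k : ℕ) (w : Fin k → Fin 3) (x : ℝ) :
    Cw k w (et x) = castV (gw k w) + (x / 2) • castV (tw k w) := by
  rw [et_eq, Cw_add, Cw_smul, ← castV_Cw, ← castV_Cw]
  rfl

/-- The basic function. -/
noncomputable def ff (v : ℝ × ℝ) : ℝ := N v ^ (-q1)

lemma ff_nonneg (v : ℝ × ℝ) : 0 ≤ ff v := Real.rpow_nonneg (N_nonneg v) _

lemma ff_eq_nr (v : ℝ × ℝ) : ff v = nr v ^ (-(2 * q1)) := by
  unfold ff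
  rw [← nr_sq, ← Real.rpow_natCast, ← Real.rpow_mul (nr_nonneg v)]
  congr 1; push_cast; ring

lemma ff_Cw_le {k : ℕ} {w : Fin k → Fin 3} (hw : 13 ≤ N (gw k w)) {x δ : ℝ}
    (hx : 3 ^ k * |x| / 2 ≤ δ) (hδ : δ ≤ 3) :
    ff (Cw k w (et x)) ≤ FF δ ((N (gw k w) : ℤ) : ℝ) := by
  have hwne : w ≠ zw k := by
    rintro rfl
    rw [gw_zw] at hw
    simp [N] at hw
  have h13 : (13 : ℝ) ≤ ((N (gw k w) : ℤ) : ℝ) := by exact_mod_cast hw
  have ht : nr (castV (tw k w)) ≤ 3 ^ k := by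
    unfold nr
    rw [Real.sqrt_le_left (by positivity), N_castV]
    have h1 : ((N (tw k w) : ℤ) : ℝ) ≤ 9 ^ k := by exact_mod_cast N_tw_le hwne
    calc _ ≤ (9 : ℝ) ^ k := h1
      _ = _ := by rw [← pow_mul, mul_comm k 2, pow_mul]; norm_num
  have hlow : Real.sqrt ((N (gw k w) : ℤ) : ℝ) - δ ≤ nr (Cw k w (et x)) := by
    rw [Cw_et]
    have h2 := nr_sub_le (castV (gw k w)) ((x / 2) • castV (tw k w))
    have h3 : nr (castV (gw k w)) = Real.sqrt ((N (gw k w) : ℤ) : ℝ) := by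
      unfold nr; rw [N_castV]
    have h4 : nr ((x / 2) • castV (tw k w)) ≤ δ := by
      rw [nr_smul, abs_div]
      calc |x| / |(2 : ℝ)| * nr (castV (tw k w)) ≤ |x| / |(2 : ℝ)| * 3 ^ k := by
            gcongr
        _ = 3 ^ k * |x| / 2 := by rw [abs_two]; ring
        _ ≤ δ := hx
    rw [h3] at h2
    linarith
  rw [ff_eq_nr]
  unfold FF
  apply Real.rpow_le_rpow_of_nonpos (base_pos hδ h13) hlow
  have := q1_pos; linarith

lemma side_sum {k : ℕ} {x δ T S : ℝ} (hx : 3 ^ k * |x| / 2 ≤ δ) (hδ : δ ≤ 3)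
    (hT : ∀ K : ℕ, ∑ k ∈ Finset.Ico 6 K, ((2 * (k : ℝ) + 1) / 3) * FF δ (3 * (k : ℝ) ^ 2 / 4) ≤ T)
    (hS : 2 * FF δ 13 + 2 * FF δ 19 + T ≤ S) :
    ∑ w ∈ Finset.univ.filter (fun w : Fin k → Fin 3 => 13 ≤ N (gw k w)), ff (Cw k w (et x)) ≤ S := by
  refine le_trans ?_ hS
  refine le_trans ?_ (word_sum (FF δ) (fun t ht => FF_nonneg hδ ht)
    (fun s t hs hst => FF_anti hδ hs hst) T hT k)
  apply Finset.sum_le_sum
  intro w hw
  rw [Finset.mem_filter] at hw
  exact ff_Cw_le hw.2 hx hδ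

lemma filter_one_empty (x : ℝ) :
    ∑ w ∈ Finset.univ.filter (fun w : Fin (0 + 1) → Fin 3 => 13 ≤ N (gw (0 + 1) w)),
      ff (Cw (0 + 1) w (et x)) = 0 := by
  apply Finset.sum_eq_zero
  intro w hw
  exfalso
  rw [Finset.mem_filter] at hw
  obtain ⟨w', i, rfl⟩ := exists_snoc w
  rw [gw_snoc] at hw
  have h : w' = zw 0 := Subsingleton.elim _ _
  rw [h, gw_zw] at hw
  have := hw.2
  fin_cases i <;> simp [N] at this

/-- Splitting the sum over words of length `m + 1`. -/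
lemma split_sum (m : ℕ) (h : ℝ × ℝ → ℝ) (hh : ∀ v, 0 ≤ h v) (x : ℝ) :
    ∑ w : Fin (m + 1) → Fin 3, h (Cw (m + 1) w (et x))
      ≤ ∑ i : Fin 3, h (C i (et (3 ^ m * x)))
        + ∑ w ∈ Finset.univ.filter (fun w : Fin (m + 1) → Fin 3 => 13 ≤ N (gw (m + 1) w)),
            h (Cw (m + 1) w (et x)) := by
  classical
  rw [← Finset.sum_filter_add_sum_filter_not Finset.univ
    (fun w : Fin (m + 1) → Fin 3 => 13 ≤ N (gw (m + 1) w)), add_comm]
  apply add_le_add_left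
  have hsub : Finset.univ.filter (fun w : Fin (m + 1) → Fin 3 => ¬ 13 ≤ N (gw (m + 1) w)) ⊆
      Finset.univ.image (fun i : Fin 3 => Fin.snoc (α := fun _ => Fin 3) (zw m) i) := by
    intro w hw
    rw [Finset.mem_filter] at hw
    obtain ⟨w', i, rfl⟩ := exists_snoc w
    rw [Finset.mem_image]
    by_cases h' : w' = zw m
    · exact ⟨i, Finset.mem_univ _, by rw [h']⟩
    · exact absurd (thirteen_le h' i) hw.2
  refine (Finset.sum_le_sum_of_subset_of_nonneg hsub (fun _ _ _ => hh _)).trans ?_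
  rw [Finset.sum_image]
  · apply le_of_eq
    apply Finset.sum_congr rfl
    intro i _
    rw [Cw_snoc, Cw_zw_et]
  · intro i _ j _ hij
    have := congrFun hij (Fin.last m)
    simpa using this

end Pool.Agent.Lib.MP_ed8a78_an
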