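import Pool.Agent.Lib.MP_ed8a78_an.Main

set_option autoImplicit false

namespace Pool.Agent.Lib.MP_ed8a78_an

/-- one-step bound at exponent one -/
lemma sum_inv_le {v : ℝ × ℝ} (hv : v ≠ 0) : ∑ i : Fin 3, (N (C i v))⁻¹ ≤ 9 / 7 * (N v)⁻¹ := by
  have hN := N_pos hv
  rw [Fin.sum_univ_three, N_C, N_C, N_C, co_zero, co_one, co_two]
  have h0 : 0 < N v + 6 * v.1 ^ 2 := by positivity
  have h1 : 0 < N v + 6 * v.2 ^ 2 := by positivity
  have h2 : 0 < N v + 6 * (-(v.1 + v.2)) ^ 2 := by positivity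
  rw [← sub_nonneg]
  have key : 9 / 7 * (N v)⁻¹ - ((N v + 6 * v.1 ^ 2)⁻¹ + (N v + 6 * v.2 ^ 2)⁻¹
      + (N v + 6 * (-(v.1 + v.2)) ^ 2)⁻¹)
      = (9 * 216 * (v.1 * v.2 * (v.1 + v.2)) ^ 2) / (7 * N v * (N v + 6 * v.1 ^ 2)
        * (N v + 6 * v.2 ^ 2) * (N v + 6 * (-(v.1 + v.2)) ^ 2)) := by
    field_simp
    unfold N
    ring
  rw [key]
  positivity

lemma iter_inv_le (n : ℕ) {v : ℝ × ℝ} (hv : v ≠ 0) :
    Lop^[n] (fun v => (N v)⁻¹) v ≤ (9 / 7) ^ n * (N v)⁻¹ := by
  induction n generalizing v with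
  | zero => simp
  | succ n ih =>
    rw [Function.iterate_succ_apply']
    unfold Lop
    calc _ ≤ ∑ i : Fin 3, (9 / 7 : ℝ) ^ n * (N (C i v))⁻¹ :=
          Finset.sum_le_sum fun i _ => ih (C_ne_zero i hv)
      _ = (9 / 7) ^ n * ∑ i : Fin 3, (N (C i v))⁻¹ := by rw [Finset.mul_sum]
      _ ≤ (9 / 7) ^ n * (9 / 7 * (N v)⁻¹) := by
          apply mul_le_mul_of_nonneg_left (sum_inv_le hv) (by positivity)
      _ = _ := by rw [pow_succ]; ring

lemma rho1_lt : (3 : ℝ) ^ q1 / 5 < 1 := by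
  rw [div_lt_one (by norm_num)]
  have h1 : ((3 : ℝ) ^ q1) ^ 13 = 3 ^ 19 := by
    rw [← Real.rpow_natCast ((3 : ℝ) ^ q1) 13, ← Real.rpow_mul (by norm_num)]
    have : q1 * ((13 : ℕ) : ℝ) = ((19 : ℕ) : ℝ) := by unfold q1; push_cast; ring
    rw [this, Real.rpow_natCast]
  apply lt_of_pow_lt_pow_left₀ 13 (by norm_num)
  rw [h1]; norm_num

lemma interp_eq {a b X t q : ℝ} (ha : 0 < a) (hb : 0 < b) (hX : 0 < X) (hq : q = (1 - t) + t * q1)
    (n : ℕ) : (a ^ (1 - t) * b ^ t) ^ n * X ^ q = (a ^ n * X) ^ (1 - t) * (b ^ n * X ^ q1) ^ t := by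
  rw [Real.mul_rpow (by positivity) hX.le, Real.mul_rpow (by positivity) (by positivity),
    ← Real.rpow_natCast (a ^ (1 - t) * b ^ t), Real.mul_rpow (by positivity) (by positivity),
    ← Real.rpow_mul ha.le, ← Real.rpow_mul hb.le, ← Real.rpow_natCast a n, ← Real.rpow_mul ha.le,
    ← Real.rpow_natCast b n, ← Real.rpow_mul hb.le, ← Real.rpow_mul hX.le]
  have hXq : X ^ q = X ^ (1 - t) * X ^ (q1 * t) := by
    rw [← Real.rpow_add hX]; congr 1; rw [hq]; ring
  rw [hXq, mul_comm (1 - t) (n : ℝ), mul_comm t (n : ℝ)]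
  ring

/-- Exponential decay of the weighted sums for exponents `q` between `1` and `log 5 / log 3`. -/
theorem decay (q : ℝ) (hq1 : 1 < q) (hq5 : (3 : ℝ) ^ q < 5) :
    ∃ K l : ℝ, 0 < K ∧ 0 < l ∧ l < 1 ∧ ∀ (n : ℕ) (v : ℝ × ℝ), v ≠ 0 →
      ((3 : ℝ) ^ q / 5) ^ n * Lop^[n] (fun v => N v ^ (-q)) v ≤ K * l ^ n * N v ^ (-q) := by
  rcases le_or_gt q1 q with h | h
  · refine ⟨2, (3 : ℝ) ^ q / 5, by norm_num, by positivity, by rw [div_lt_one (by norm_num)]; exact hq5,
      ?_⟩
    intro n v hv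
    have hN := N_pos hv
    have h1 : Lop^[n] (fun v => N v ^ (-q)) v ≤ N v ^ (-(q - q1)) * Lop^[n] ff v := by
      rw [iterate_Lop, iterate_Lop, Finset.mul_sum]
      apply Finset.sum_le_sum
      intro w _
      have hw : 0 < N (Cw n w v) := N_pos (Cw_ne_zero n w hv)
      have e : N (Cw n w v) ^ (-q) = N (Cw n w v) ^ (-(q - q1)) * ff (Cw n w v) := by
        unfold ff
        rw [← Real.rpow_add hw]; congr 1; ring
      rw [e]
      apply mul_le_mul_of_nonneg_right _ (ff_nonneg _)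
      apply Real.rpow_le_rpow_of_nonpos hN (N_le_N_Cw n w v)
      linarith
    have h2 : N v ^ (-(q - q1)) * Lop^[n] ff v ≤ 2 * N v ^ (-q) := by
      have h3 := main_bound n v hv
      have h4 : 0 ≤ N v ^ (-(q - q1)) := Real.rpow_nonneg hN.le _
      calc _ ≤ N v ^ (-(q - q1)) * (2 * ff v) := mul_le_mul_of_nonneg_left h3 h4
        _ = 2 * (N v ^ (-(q - q1)) * N v ^ (-q1)) := by unfold ff; ring
        _ = _ := by rw [← Real.rpow_add hN]; congr 2; ring
    calc _ ≤ ((3 : ℝ) ^ q / 5) ^ n * (2 * N v ^ (-q)) := by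
          apply mul_le_mul_of_nonneg_left (h1.trans h2) (by positivity)
      _ = _ := by ring
  · -- interpolation
    set t := (q - 1) / (q1 - 1) with ht
    have hq11 : 0 < q1 - 1 := by unfold q1; norm_num
    have ht0 : 0 < t := div_pos (by linarith) hq11
    have ht1 : t < 1 := by rw [ht, div_lt_one hq11]; linarith
    have hqt : q = (1 - t) + t * q1 := by rw [ht]; field_simp; ring
    set r1 := (3 : ℝ) ^ q1 / 5 with hr1
    have hr1pos : 0 < r1 := by positivity
    set l := max (27 / 35 : ℝ) r1 with hl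
    refine ⟨3, l, by norm_num, lt_of_lt_of_le (by norm_num) (le_max_left _ _),
      max_lt (by norm_num) rho1_lt, ?_⟩
    intro n v hv
    have hN := N_pos hv
    have hrho : (3 : ℝ) ^ q / 5 = (3 / 5) ^ (1 - t) * r1 ^ t := by
      rw [hr1, Real.div_rpow (by norm_num) (by norm_num), Real.div_rpow (by positivity) (by norm_num),
        ← Real.rpow_mul (by norm_num)]
      have h5 : (5 : ℝ) ^ (1 - t) * 5 ^ t = 5 := by
        rw [← Real.rpow_add (by norm_num)]; simp
      have h3 : (3 : ℝ) ^ q = 3 ^ (1 - t) * 3 ^ (q1 * t) := by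
        rw [← Real.rpow_add (by norm_num)]; congr 1; rw [hqt]; ring
      rw [h3, div_mul_div_comm, h5]
    have hterm : ∀ w : Fin n → Fin 3,
        ((3 : ℝ) ^ q / 5) ^ n * (N (Cw n w v) ^ (-q)) ≤ N v ^ (-q) *
          ((3 / 5) ^ n * (N v * (N (Cw n w v))⁻¹) + r1 ^ n * (N v ^ q1 * ff (Cw n w v))) := by
      intro w
      have hw : 0 < N (Cw n w v) := N_pos (Cw_ne_zero n w hv)
      set X := N v * (N (Cw n w v))⁻¹ with hX
      have hXpos : 0 < X := by positivity
      have e1 : N (Cw n w v) ^ (-q) = N v ^ (-q) * X ^ q := by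
        rw [hX, Real.mul_rpow hN.le (by positivity), Real.inv_rpow hw.le, ← Real.rpow_neg hw.le,
          ← mul_assoc, ← Real.rpow_add hN]
        simp
      have e2 : N v ^ q1 * ff (Cw n w v) = X ^ q1 := by
        unfold ff
        rw [hX, Real.mul_rpow hN.le (by positivity), Real.inv_rpow hw.le, ← Real.rpow_neg hw.le]
      rw [e1, e2]
      have e3 : ((3 : ℝ) ^ q / 5) ^ n * (N v ^ (-q) * X ^ q) = N v ^ (-q) *
          (((3 / 5) ^ n * X) ^ (1 - t) * (r1 ^ n * X ^ q1) ^ t) := by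
        rw [← interp_eq (by norm_num) hr1pos hXpos hqt n, ← hrho]
        ring
      rw [e3]
      apply mul_le_mul_of_nonneg_left _ (Real.rpow_nonneg hN.le _)
      have hy := Real.geom_mean_le_arith_mean2_weighted (w₁ := 1 - t) (w₂ := t)
        (p₁ := (3 / 5) ^ n * X) (p₂ := r1 ^ n * X ^ q1) (by linarith) ht0.le (by positivity)
        (by positivity) (by ring)
      refine hy.trans ?_
      have p1 : 0 ≤ (3 / 5 : ℝ) ^ n * X := by positivity
      have p2 : 0 ≤ r1 ^ n * X ^ q1 := by positivity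
      nlinarith
    rw [iterate_Lop, Finset.mul_sum]
    calc _ ≤ ∑ w : Fin n → Fin 3, N v ^ (-q) *
          ((3 / 5) ^ n * (N v * (N (Cw n w v))⁻¹) + r1 ^ n * (N v ^ q1 * ff (Cw n w v))) :=
          Finset.sum_le_sum fun w _ => hterm w
      _ = N v ^ (-q) * ((3 / 5) ^ n * (N v * Lop^[n] (fun v => (N v)⁻¹) v)
            + r1 ^ n * (N v ^ q1 * Lop^[n] ff v)) := by
          rw [← Finset.mul_sum, Finset.sum_add_distrib, iterate_Lop, iterate_Lop]
          simp only [Finset.mul_sum]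
      _ ≤ N v ^ (-q) * (l ^ n + r1 ^ n * 2) := by
          apply mul_le_mul_of_nonneg_left _ (Real.rpow_nonneg hN.le _)
          apply add_le_add
          · have h1 := iter_inv_le n hv
            calc _ ≤ (3 / 5) ^ n * (N v * ((9 / 7) ^ n * (N v)⁻¹)) := by
                  apply mul_le_mul_of_nonneg_left _ (by positivity)
                  exact mul_le_mul_of_nonneg_left h1 hN.le
              _ = (27 / 35 : ℝ) ^ n := by
                  rw [show (27 / 35 : ℝ) = (3 / 5) * (9 / 7) by norm_num, mul_pow]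
                  field_simp
              _ ≤ l ^ n := pow_le_pow_left₀ (by norm_num) (le_max_left _ _) n
          · apply mul_le_mul_of_nonneg_left _ (by positivity)
            have h1 := main_bound n v hv
            calc _ ≤ N v ^ q1 * (2 * ff v) := by
                  apply mul_le_mul_of_nonneg_left h1 (by positivity)
              _ = 2 := by
                  unfold ff
                  rw [Real.rpow_neg hN.le]
                  field_simp
      _ ≤ N v ^ (-q) * (l ^ n + l ^ n * 2) := by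
          apply mul_le_mul_of_nonneg_left _ (Real.rpow_nonneg hN.le _)
          have : r1 ^ n ≤ l ^ n := pow_le_pow_left₀ hr1pos.le (le_max_right _ _) n
          linarith
      _ = _ := by ring

end Pool.Agent.Lib.MP_ed8a78_an
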