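import Pool.Agent.Lib.MP_ed8a78_an.Tree

set_option autoImplicit false

namespace Pool.Agent.Lib.MP_ed8a78_an

lemma card_filter_shell (k : ℕ) :
    (((Finset.range k).filter (fun t => ¬ 3 ∣ (k + t))).card : ℝ) ≤ (2 * (k : ℝ) + 1) / 3 := by
  have h0 : ((Finset.range k).filter (fun t => 3 ∣ (k + t))).card
      + ((Finset.range k).filter (fun t => ¬ 3 ∣ (k + t))).card = k := by
    have := Finset.card_filter_add_card_filter_not (s := Finset.range k) (fun t => 3 ∣ (k + t))
    simpa using this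
  have hkey : ∀ (c m : ℕ), (∀ j < m, 3 * j + c < k) → 3 ∣ (k + c) →
      m ≤ ((Finset.range k).filter (fun t => 3 ∣ (k + t))).card := by
    intro c m h1 h2
    have : (Finset.range m).image (fun j => 3 * j + c) ⊆
        (Finset.range k).filter (fun t => 3 ∣ (k + t)) := by
      intro t ht
      simp only [Finset.mem_image, Finset.mem_range] at ht
      obtain ⟨j, hj, rfl⟩ := ht
      simp only [Finset.mem_filter, Finset.mem_range]
      exact ⟨h1 j hj, by omega⟩
    have hc := Finset.card_le_card this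
    rw [Finset.card_image_of_injective _ (by intro a b hab; simp only at hab; omega)] at hc
    simpa using hc
  have h3 : k - 1 ≤ 3 * ((Finset.range k).filter (fun t => 3 ∣ (k + t))).card := by
    have hm : ∃ m, k = 3 * m ∨ k = 3 * m + 1 ∨ k = 3 * m + 2 := ⟨k / 3, by omega⟩
    rcases hm with ⟨m, h | h | h⟩
    · have := hkey 0 m (by intro j hj; omega) (by omega)
      omega
    · have := hkey 2 m (by intro j hj; omega) (by omega)
      omega
    · have := hkey 1 (m + 1) (by intro j hj; omega) (by omega)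
      omega
  have h4 : 3 * ((Finset.range k).filter (fun t => ¬ 3 ∣ (k + t))).card ≤ 2 * k + 1 := by
    omega
  have h5 : (3 : ℝ) * ((Finset.range k).filter (fun t => ¬ 3 ∣ (k + t))).card
      ≤ 2 * (k : ℝ) + 1 := by exact_mod_cast h4
  linarith

lemma small_sector {g : ℤ × ℤ} (hs : Sec g) (hg : Good g) (hc : IsCoprime g.1 g.2)
    (hN : 13 ≤ N g) (h5 : g.1 + g.2 ≤ 5) :
    g ∈ ({(3, 1), (1, 3), (3, 2), (2, 3)} : Finset (ℤ × ℤ)) := by
  rcases g with ⟨a, b⟩
  unfold Sec at hs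
  unfold Good at hg
  unfold N at hN
  simp only at hs hg hc hN h5
  obtain ⟨ha, hb⟩ := hs
  have ha5 : a ≤ 5 := by omega
  have hb5 : b ≤ 5 := by omega
  have hnc : ∀ c : ℤ, 1 < c → ¬ IsCoprime c 0 := by
    intro c hc h
    rw [isCoprime_zero_right, Int.isUnit_iff] at h
    omega
  interval_cases a <;> interval_cases b <;>
    first
    | decide
    | (exfalso; omega)
    | (exfalso; exact hnc _ (by norm_num) hc)

theorem lattice_sum (F : ℝ → ℝ) (hF0 : ∀ t, 13 ≤ t → 0 ≤ F t)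
    (hF : ∀ s t, 13 ≤ s → s ≤ t → F t ≤ F s) (T : ℝ)
    (hT : ∀ K : ℕ, ∑ k ∈ Finset.Ico 6 K, ((2 * (k : ℝ) + 1) / 3) * F (3 * (k : ℝ) ^ 2 / 4) ≤ T)
    (A : Finset (ℤ × ℤ)) (hA : ∀ g ∈ A, Sec g ∧ Good g ∧ IsCoprime g.1 g.2 ∧ 13 ≤ N g) :
    ∑ g ∈ A, F ((N g : ℤ) : ℝ) ≤ 2 * F 13 + 2 * F 19 + T := by
  classical
  rw [← Finset.sum_filter_add_sum_filter_not A (fun g => g.1 + g.2 ≤ 5)]
  have hNr : ∀ g ∈ A, (13 : ℝ) ≤ ((N g : ℤ) : ℝ) := by
    intro g hg
    exact_mod_cast (hA g hg).2.2.2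
  have h1 : ∑ g ∈ A.filter (fun g => g.1 + g.2 ≤ 5), F ((N g : ℤ) : ℝ) ≤ 2 * F 13 + 2 * F 19 := by
    have hsub : A.filter (fun g => g.1 + g.2 ≤ 5) ⊆
        ({(3, 1), (1, 3), (3, 2), (2, 3)} : Finset (ℤ × ℤ)) := by
      intro g hg
      rw [Finset.mem_filter] at hg
      obtain ⟨hs, hgood, hc, hN⟩ := hA g hg.1
      exact small_sector hs hgood hc hN hg.2
    calc _ ≤ ∑ g ∈ ({(3, 1), (1, 3), (3, 2), (2, 3)} : Finset (ℤ × ℤ)), F ((N g : ℤ) : ℝ) := by
          apply Finset.sum_le_sum_of_subset_of_nonneg hsub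
          intro g hg _
          apply hF0
          simp only [Finset.mem_insert, Finset.mem_singleton] at hg
          rcases hg with rfl | rfl | rfl | rfl <;> norm_num [N]
      _ = 2 * F 13 + 2 * F 19 := by
          rw [Finset.sum_insert (by decide), Finset.sum_insert (by decide),
            Finset.sum_insert (by decide), Finset.sum_singleton]
          norm_num [N]
          ring
  have h2 : ∑ g ∈ A.filter (fun g => ¬ g.1 + g.2 ≤ 5), F ((N g : ℤ) : ℝ) ≤ T := by
    set B := A.filter (fun g => ¬ g.1 + g.2 ≤ 5) with hB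
    set K := B.sup (fun g => (g.1 + g.2).toNat) + 1 with hK
    have hmaps : ∀ g ∈ B, (g.1 + g.2).toNat ∈ Finset.Ico 6 K := by
      intro g hg
      have h6 : (g.1 + g.2).toNat ≤ B.sup (fun g => (g.1 + g.2).toNat) :=
        Finset.le_sup (f := fun g : ℤ × ℤ => (g.1 + g.2).toNat) hg
      rw [hB, Finset.mem_filter] at hg
      rw [Finset.mem_Ico]
      omega
    rw [← Finset.sum_fiberwise_of_maps_to hmaps]
    refine le_trans (Finset.sum_le_sum ?_) (hT K)
    intro k hk
    rw [Finset.mem_Ico] at hk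
    have hk6 : (6 : ℝ) ≤ k := by exact_mod_cast hk.1
    have h27 : (13 : ℝ) ≤ 3 * (k : ℝ) ^ 2 / 4 := by nlinarith
    have hterm : ∀ g ∈ B.filter (fun g => (g.1 + g.2).toNat = k),
        F ((N g : ℤ) : ℝ) ≤ F (3 * (k : ℝ) ^ 2 / 4) := by
      intro g hg
      rw [Finset.mem_filter] at hg
      apply hF _ _ h27
      have hs : ((g.1 + g.2 : ℤ) : ℝ) = k := by
        have h8 : g.1 + g.2 = (k : ℤ) := by omega
        rw [h8]; simp
      have h9 : ((N g : ℤ) : ℝ) = (g.1 : ℝ) ^ 2 + g.1 * g.2 + (g.2 : ℝ) ^ 2 := by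
        simp [N]
      rw [h9, ← hs]
      push_cast
      nlinarith [sq_nonneg ((g.1 : ℝ) - g.2)]
    have hcard : ((B.filter (fun g => (g.1 + g.2).toNat = k)).card : ℝ) ≤ (2 * (k : ℝ) + 1) / 3 := by
      refine le_trans ?_ (card_filter_shell k)
      have hsub : B.filter (fun g => (g.1 + g.2).toNat = k) ⊆
          ((Finset.range k).filter (fun t => ¬ 3 ∣ (k + t))).image
            (fun t : ℕ => (((k : ℤ) - t, (t : ℤ)) : ℤ × ℤ)) := by
        intro g hg
        rw [Finset.mem_filter, hB, Finset.mem_filter] at hg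
        obtain ⟨⟨hgA, h5⟩, hgk⟩ := hg
        obtain ⟨hs, hgood, hc, hN⟩ := hA g hgA
        unfold Sec at hs
        unfold Good at hgood
        rw [Finset.mem_image]
        refine ⟨g.2.toNat, ?_, ?_⟩
        · rw [Finset.mem_filter, Finset.mem_range]
          constructor
          · omega
          · omega
        · ext <;> simp <;> omega
      exact_mod_cast (Finset.card_le_card hsub).trans Finset.card_image_le
    calc _ ≤ ∑ g ∈ B.filter (fun g => (g.1 + g.2).toNat = k), F (3 * (k : ℝ) ^ 2 / 4) :=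
          Finset.sum_le_sum hterm
      _ = (B.filter (fun g => (g.1 + g.2).toNat = k)).card * F (3 * (k : ℝ) ^ 2 / 4) := by
          rw [Finset.sum_const, nsmul_eq_mul]
      _ ≤ _ := by
          apply mul_le_mul_of_nonneg_right hcard (hF0 _ h27)
  linarith

/-- The sum over all words whose anchor image has `N ≥ 13`. -/
theorem word_sum (F : ℝ → ℝ) (hF0 : ∀ t, 13 ≤ t → 0 ≤ F t)
    (hF : ∀ s t, 13 ≤ s → s ≤ t → F t ≤ F s) (T : ℝ)
    (hT : ∀ K : ℕ, ∑ k ∈ Finset.Ico 6 K, ((2 * (k : ℝ) + 1) / 3) * F (3 * (k : ℝ) ^ 2 / 4) ≤ T)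
    (k : ℕ) :
    ∑ w ∈ Finset.univ.filter (fun w : Fin k → Fin 3 => 13 ≤ N (gw k w)), F ((N (gw k w) : ℤ) : ℝ)
      ≤ 2 * F 13 + 2 * F 19 + T := by
  classical
  have h := lattice_sum F hF0 hF T hT
    ((Finset.univ.filter (fun w : Fin k → Fin 3 => 13 ≤ N (gw k w))).image (rep k)) (by
      intro g hg
      rw [Finset.mem_image] at hg
      obtain ⟨w, hw, rfl⟩ := hg
      rw [Finset.mem_filter] at hw
      exact ⟨rep_sec k w, rep_good k w, rep_coprime k w, by rw [N_rep]; exact hw.2⟩)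
  rw [Finset.sum_image (fun _ _ _ _ h => rep_injective k h)] at h
  simpa only [N_rep] using h

end Pool.Agent.Lib.MP_ed8a78_an
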