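import Pool.Agent.Lib.MP_ed8a78_an.LitHarm

/-!
# Energy measures of cells
-/

set_option autoImplicit false

namespace Pool.Agent.Lib.MP_ed8a78_an.Lit

open MeasureTheory Filter Topology

theorem E0_mulVec_ge (v : Fin 3 → ℝ) (i : Fin 3) : E0 v / 25 ≤ E0 ((AA i).mulVec v) := by
  fin_cases i
  · have : E0 ((AA 0).mulVec v) = E0 v / 25 + 4 / 25 * (2 * v 0 - v 1 - v 2) ^ 2 := by
      simp [AA, E0, Matrix.mulVec, dotProduct, Fin.sum_univ_three]; ring
    simp only [Fin.zero_eta]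
    rw [this]
    nlinarith [sq_nonneg (2 * v 0 - v 1 - v 2)]
  · have : E0 ((AA 1).mulVec v) = E0 v / 25 + 4 / 25 * (2 * v 1 - v 0 - v 2) ^ 2 := by
      simp [AA, E0, Matrix.mulVec, dotProduct, Fin.sum_univ_three]; ring
    simp only [Fin.mk_one]
    rw [this]
    nlinarith [sq_nonneg (2 * v 1 - v 0 - v 2)]
  · have : E0 ((AA 2).mulVec v) = E0 v / 25 + 4 / 25 * (2 * v 2 - v 0 - v 1) ^ 2 := by
      simp [AA, E0, Matrix.mulVec, dotProduct, Fin.sum_univ_three]; ring
    simp only [Fin.reduceFinMk]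
    rw [this]
    nlinarith [sq_nonneg (2 * v 2 - v 0 - v 1)]

theorem E0_fo_pos (w : List (Fin 3)) : ∀ v : Fin 3 → ℝ, 0 < E0 v → 0 < E0 (fo w v) := by
  induction w with
  | nil => intro v h; exact h
  | cons i w ih =>
    intro v h
    rw [fo_cons]
    refine ih _ ?_
    have := E0_mulVec_ge v i
    linarith

theorem IsGasket.cover {q : Fin 3 → Plane} {K : Set Plane} (hK : IsGasket q K) (n : ℕ) :
    K ⊆ ⋃ w : Fin n → Fin 3, Fw q (List.ofFn w) '' K := by
  intro x hx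
  rw [hK.eq_range] at hx
  obtain ⟨ω, rfl⟩ := hx
  refine Set.mem_iUnion.2 ⟨fun k => ω k, ?_⟩
  rw [pc_word q n ω, hK.eq_range]
  exact ⟨_, ⟨_, rfl⟩, rfl⟩

theorem IsGasket.cell_diam {q : Fin 3 → Plane} {K : Set Plane} (hK : IsGasket q K) (n : ℕ)
    (w : Fin n → Fin 3) : ∀ x ∈ Fw q (List.ofFn w) '' K, ∀ y ∈ Fw q (List.ofFn w) '' K,
      dist x y ≤ (1 / 2) ^ n * Metric.diam K := by
  rintro _ ⟨x, hx, rfl⟩ _ ⟨y, hy, rfl⟩
  rw [dist_Fw, List.length_ofFn]
  exact mul_le_mul_of_nonneg_left (Metric.dist_le_diam_of_mem hK.compact.isBounded hx hy)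
    (by positivity)

theorem measure_cell {q : Fin 3 → Plane} {K : Set Plane} {h : Plane → ℝ} {μ : Measure Plane}
    (hK : IsGasket q K) (hh : IsHarmonic q K h) (hμ : IsEnergyMeasure q K h μ)
    (w : List (Fin 3)) :
    μ (Fw q w '' K) = ENNReal.ofReal ((5 / 3) ^ w.length * E0 (fo w (bv q h))) := by
  rw [hμ.cell, ((hh.flat hK).word w).1.energy, ((hh.flat hK).word w).2,
    ENNReal.ofReal_mul (by positivity)]

theorem measure_K {q : Fin 3 → Plane} {K : Set Plane} {h : Plane → ℝ} {μ : Measure Plane}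
    (hK : IsGasket q K) (hh : IsHarmonic q K h) (hμ : IsEnergyMeasure q K h μ) :
    μ K = ENNReal.ofReal (E0 (bv q h)) := by
  have h1 := measure_cell hK hh hμ []
  have h2 : Fw q [] '' K = K := by
    have : Fw q [] = id := rfl
    rw [this, Set.image_id]
  rw [h2] at h1
  rw [h1]
  simp [fo_nil]

/-- the measure divided by its total mass on `K` -/
noncomputable def nrm (K : Set Plane) (μ : Measure Plane) : Measure Plane := (μ K)⁻¹ • μ

theorem nrm_finite {q : Fin 3 → Plane} {K : Set Plane} {h : Plane → ℝ} {μ : Measure Plane}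
    (hK : IsGasket q K) (hh : IsHarmonic q K h) (hn : ∃ x ∈ K, ∃ y ∈ K, h x ≠ h y)
    (hμ : IsEnergyMeasure q K h μ) : IsFiniteMeasure (nrm K μ) := by
  have := hμ.finite
  have h1 : μ K ≠ 0 := by
    rw [measure_K hK hh hμ]
    simpa using hh.E0_pos hK hn
  exact Measure.smul_finite μ (ENNReal.inv_ne_top.2 h1)

theorem nrm_real {q : Fin 3 → Plane} {K : Set Plane} {h : Plane → ℝ} {μ : Measure Plane}
    (hK : IsGasket q K) (hh : IsHarmonic q K h) (hμ : IsEnergyMeasure q K h μ)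
    (w : List (Fin 3)) :
    (nrm K μ).real (Fw q w '' K) =
      (5 / 3) ^ w.length * E0 (fo w (bv q h)) / E0 (bv q h) := by
  unfold nrm
  rw [measureReal_ennreal_smul_apply, Measure.real, measure_cell hK hh hμ, measure_K hK hh hμ,
    ENNReal.toReal_inv, ENNReal.toReal_ofReal (E0_nonneg _),
    ENNReal.toReal_ofReal (mul_nonneg (by positivity) (E0_nonneg _))]
  ring

theorem nrm_real_K {q : Fin 3 → Plane} {K : Set Plane} {h : Plane → ℝ} {μ : Measure Plane}
    (hK : IsGasket q K) (hh : IsHarmonic q K h) (hn : ∃ x ∈ K, ∃ y ∈ K, h x ≠ h y)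
    (hμ : IsEnergyMeasure q K h μ) : (nrm K μ).real K = 1 := by
  have h1 := nrm_real hK hh hμ []
  have h2 : Fw q [] '' K = K := by
    have : Fw q [] = id := rfl
    rw [this, Set.image_id]
  rw [h2] at h1
  rw [h1]
  have := hh.E0_pos hK hn
  simp only [List.length_nil, pow_zero, one_mul, fo_nil]
  exact div_self this.ne'

theorem nrm_sum {q : Fin 3 → Plane} {K : Set Plane} {h : Plane → ℝ} {μ : Measure Plane}
    (hK : IsGasket q K) (hh : IsHarmonic q K h) (hn : ∃ x ∈ K, ∃ y ∈ K, h x ≠ h y)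
    (hμ : IsEnergyMeasure q K h μ) (n : ℕ) :
    ∑ w : Fin n → Fin 3, (nrm K μ).real (Fw q (List.ofFn w) '' K) = 1 := by
  have h0 := hh.E0_pos hK hn
  have h1 := hh.flat hK n
  unfold En at h1
  have h2 : ∀ w : Fin n → Fin 3, (nrm K μ).real (Fw q (List.ofFn w) '' K) =
      (5 / 3) ^ n * (E0 fun i => h (Fw q (List.ofFn w) (q i))) / E0 (bv q h) := by
    intro w
    rw [nrm_real hK hh hμ, List.length_ofFn, ← ((hh.flat hK).word (List.ofFn w)).2]
    rfl
  simp only [h2]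
  rw [← Finset.sum_div, ← Finset.mul_sum, h1, div_self h0.ne']

theorem nrm_pos {q : Fin 3 → Plane} {K : Set Plane} {h : Plane → ℝ} {μ : Measure Plane}
    (hK : IsGasket q K) (hh : IsHarmonic q K h) (hn : ∃ x ∈ K, ∃ y ∈ K, h x ≠ h y)
    (hμ : IsEnergyMeasure q K h μ) (w : List (Fin 3)) :
    0 < (nrm K μ).real (Fw q w '' K) := by
  have h0 := hh.E0_pos hK hn
  rw [nrm_real hK hh hμ]
  have := E0_fo_pos w _ h0
  positivity

theorem nrm_compl {q : Fin 3 → Plane} {K : Set Plane} {h : Plane → ℝ} {μ : Measure Plane}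
    (hμ : IsEnergyMeasure q K h μ) : nrm K μ Kᶜ = 0 := by
  unfold nrm
  rw [Measure.smul_apply, hμ.carried, smul_zero]

end Pool.Agent.Lib.MP_ed8a78_an.Lit
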