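import Mathlib

/-!
# The Sierpinski gasket, its resistance form, harmonic functions and energy measures
-/

set_option autoImplicit false

namespace Pool.Agent.Lib.MP_ed8a78_an.Lit

open MeasureTheory

/-- The Euclidean plane. -/
abbrev Plane : Type := EuclideanSpace ℝ (Fin 2)

/-- The map `x ↦ q i + (x - q i) / 2`. -/
noncomputable def F (q : Fin 3 → Plane) (i : Fin 3) (x : Plane) : Plane :=
  q i + (1 / 2 : ℝ) • (x - q i)

/-- The composition of the maps `F q i` along a word (first letter outermost). -/
noncomputable def Fw (q : Fin 3 → Plane) : List (Fin 3) → Plane → Plane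
  | [] => fun x => x
  | i :: w => fun x => F q i (Fw q w x)

/-- `K` is the Sierpinski gasket of the equilateral triangle `q`: the nonempty compact set with
`K = F₀ K ∪ F₁ K ∪ F₂ K`. -/
structure IsGasket (q : Fin 3 → Plane) (K : Set Plane) : Prop where
  equilateral : ∃ s : ℝ, 0 < s ∧ ∀ i j, i ≠ j → dist (q i) (q j) = s
  compact : IsCompact K
  nonempty : K.Nonempty
  inv : K = ⋃ i, F q i '' K

/-- The energy on the three boundary points. -/
def E0 (v : Fin 3 → ℝ) : ℝ := (v 0 - v 1) ^ 2 + (v 1 - v 2) ^ 2 + (v 0 - v 2) ^ 2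

/-- The graph energy of level `n`: `(5/3)^n` times the sum of the boundary energies of `f ∘ F_w`
over all words of length `n`. -/
noncomputable def En (q : Fin 3 → Plane) (n : ℕ) (f : Plane → ℝ) : ℝ :=
  (5 / 3 : ℝ) ^ n * ∑ w : Fin n → Fin 3, E0 fun i => f (Fw q (List.ofFn w) (q i))

/-- The standard resistance form: the supremum (which is the limit) of the graph energies. -/
noncomputable def Energy (q : Fin 3 → Plane) (f : Plane → ℝ) : ENNReal :=
  ⨆ n : ℕ, ENNReal.ofReal (En q n f)

/-- `h` is harmonic on `K`: it is continuous on `K` and minimises the energy among all functions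
continuous on `K` with the same values at the three boundary points. -/
structure IsHarmonic (q : Fin 3 → Plane) (K : Set Plane) (h : Plane → ℝ) : Prop where
  continuousOn : ContinuousOn h K
  minimal : ∀ g : Plane → ℝ, ContinuousOn g K → (∀ i, g (q i) = h (q i)) →
    Energy q h ≤ Energy q g

/-- `μ` is the energy measure of `h`: a finite Borel measure carried by `K` with
`μ (F_w K) = (5/3)^|w| * Energy (h ∘ F_w)` for every word `w`. -/
structure IsEnergyMeasure (q : Fin 3 → Plane) (K : Set Plane) (h : Plane → ℝ)
    (μ : Measure Plane) : Prop where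
  finite : IsFiniteMeasure μ
  carried : μ Kᶜ = 0
  cell : ∀ w : List (Fin 3),
    μ (Fw q w '' K) = ENNReal.ofReal ((5 / 3 : ℝ) ^ w.length) * Energy q (h ∘ Fw q w)

end Pool.Agent.Lib.MP_ed8a78_an.Lit
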