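import Pool.Agent.Lib.MP_ed8a78_an.LitDefs

/-!
# Graph energies on the gasket: monotonicity and the harmonic extension rule
-/

set_option autoImplicit false

namespace Pool.Agent.Lib.MP_ed8a78_an.Lit

open MeasureTheory

/-- the harmonic extension matrices -/
noncomputable def AA : Fin 3 → Matrix (Fin 3) (Fin 3) ℝ :=
  ![!![1, 0, 0; 2/5, 2/5, 1/5; 2/5, 1/5, 2/5],
    !![2/5, 2/5, 1/5; 0, 1, 0; 1/5, 2/5, 2/5],
    !![2/5, 1/5, 2/5; 1/5, 2/5, 2/5; 0, 0, 1]]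

/-- boundary values -/
def bv (q : Fin 3 → Plane) (f : Plane → ℝ) : Fin 3 → ℝ := fun i => f (q i)

/-- the values on the vertices of a cell -/
noncomputable def fo (w : List (Fin 3)) (v : Fin 3 → ℝ) : Fin 3 → ℝ :=
  w.foldl (fun v i => (AA i).mulVec v) v

theorem fo_nil (v : Fin 3 → ℝ) : fo [] v = v := rfl

theorem fo_cons (i : Fin 3) (w : List (Fin 3)) (v : Fin 3 → ℝ) :
    fo (i :: w) v = fo w ((AA i).mulVec v) := rfl

theorem F_self (q : Fin 3 → Plane) (i : Fin 3) : F q i (q i) = q i := by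
  simp [F]

theorem F_swap (q : Fin 3 → Plane) (i j : Fin 3) : F q i (q j) = F q j (q i) := by
  unfold F
  module

theorem E0_nonneg (v : Fin 3 → ℝ) : 0 ≤ E0 v := by
  unfold E0; positivity

theorem En_zero (q : Fin 3 → Plane) (f : Plane → ℝ) : En q 0 f = E0 (bv q f) := by
  simp [En, Fw]
  rfl

theorem En_nonneg (q : Fin 3 → Plane) (n : ℕ) (f : Plane → ℝ) : 0 ≤ En q n f := by
  unfold En
  exact mul_nonneg (by positivity) (Finset.sum_nonneg fun _ _ => E0_nonneg _)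

theorem En_succ (q : Fin 3 → Plane) (n : ℕ) (f : Plane → ℝ) :
    En q (n + 1) f = 5 / 3 * ∑ i, En q n (f ∘ F q i) := by
  unfold En
  rw [← Finset.mul_sum, ← mul_assoc, ← pow_succ' (5 / 3 : ℝ) n]
  congr 1
  rw [← Fintype.sum_prod_type']
  rw [← Equiv.sum_comp (Fin.consEquiv fun _ : Fin (n + 1) => Fin 3)]
  apply Finset.sum_congr rfl
  rintro ⟨i, w⟩ _
  simp [Fin.consEquiv, List.ofFn_succ, Fw]

/-- the energy identity for one subdivision -/
theorem cell_id (x₀ x₁ x₂ a b c : ℝ) :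
    5 / 3 * (((x₀ - a) ^ 2 + (a - c) ^ 2 + (x₀ - c) ^ 2) +
        ((a - x₁) ^ 2 + (x₁ - b) ^ 2 + (a - b) ^ 2) +
        ((c - b) ^ 2 + (b - x₂) ^ 2 + (c - x₂) ^ 2)) =
      ((x₀ - x₁) ^ 2 + (x₁ - x₂) ^ 2 + (x₀ - x₂) ^ 2) +
      5 / 3 * (2 * ((a - (2 * x₀ + 2 * x₁ + x₂) / 5) ^ 2 +
          (b - (x₀ + 2 * x₁ + 2 * x₂) / 5) ^ 2 + (c - (2 * x₀ + x₁ + 2 * x₂) / 5) ^ 2) +
        ((a - (2 * x₀ + 2 * x₁ + x₂) / 5) - (b - (x₀ + 2 * x₁ + 2 * x₂) / 5)) ^ 2 +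
        ((b - (x₀ + 2 * x₁ + 2 * x₂) / 5) - (c - (2 * x₀ + x₁ + 2 * x₂) / 5)) ^ 2 +
        ((a - (2 * x₀ + 2 * x₁ + x₂) / 5) - (c - (2 * x₀ + x₁ + 2 * x₂) / 5)) ^ 2) := by
  ring

theorem En_one (q : Fin 3 → Plane) (f : Plane → ℝ) :
    En q 1 f = E0 (bv q f) +
      5 / 3 * (2 * ((f (F q 0 (q 1)) - (2 * f (q 0) + 2 * f (q 1) + f (q 2)) / 5) ^ 2 +
          (f (F q 1 (q 2)) - (f (q 0) + 2 * f (q 1) + 2 * f (q 2)) / 5) ^ 2 +
          (f (F q 0 (q 2)) - (2 * f (q 0) + f (q 1) + 2 * f (q 2)) / 5) ^ 2) +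
        ((f (F q 0 (q 1)) - (2 * f (q 0) + 2 * f (q 1) + f (q 2)) / 5) -
          (f (F q 1 (q 2)) - (f (q 0) + 2 * f (q 1) + 2 * f (q 2)) / 5)) ^ 2 +
        ((f (F q 1 (q 2)) - (f (q 0) + 2 * f (q 1) + 2 * f (q 2)) / 5) -
          (f (F q 0 (q 2)) - (2 * f (q 0) + f (q 1) + 2 * f (q 2)) / 5)) ^ 2 +
        ((f (F q 0 (q 1)) - (2 * f (q 0) + 2 * f (q 1) + f (q 2)) / 5) -
          (f (F q 0 (q 2)) - (2 * f (q 0) + f (q 1) + 2 * f (q 2)) / 5)) ^ 2) := by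
  rw [En_succ]
  simp only [En_zero, Fin.sum_univ_three]
  have h := cell_id (f (q 0)) (f (q 1)) (f (q 2)) (f (F q 0 (q 1))) (f (F q 1 (q 2)))
    (f (F q 0 (q 2)))
  simp only [E0, bv, Function.comp, F_self, F_swap q 1 0, F_swap q 2 0, F_swap q 2 1]
  linarith

theorem En_one_ge (q : Fin 3 → Plane) (f : Plane → ℝ) : E0 (bv q f) ≤ En q 1 f := by
  rw [En_one]
  have : ∀ a b c d e g : ℝ, 0 ≤ 5 / 3 * (2 * (a ^ 2 + b ^ 2 + c ^ 2) + d ^ 2 + e ^ 2 + g ^ 2) := by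
    intro a b c d e g
    positivity
  linarith [this (f (F q 0 (q 1)) - (2 * f (q 0) + 2 * f (q 1) + f (q 2)) / 5)
    (f (F q 1 (q 2)) - (f (q 0) + 2 * f (q 1) + 2 * f (q 2)) / 5)
    (f (F q 0 (q 2)) - (2 * f (q 0) + f (q 1) + 2 * f (q 2)) / 5)
    ((f (F q 0 (q 1)) - (2 * f (q 0) + 2 * f (q 1) + f (q 2)) / 5) -
          (f (F q 1 (q 2)) - (f (q 0) + 2 * f (q 1) + 2 * f (q 2)) / 5))
    ((f (F q 1 (q 2)) - (f (q 0) + 2 * f (q 1) + 2 * f (q 2)) / 5) -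
          (f (F q 0 (q 2)) - (2 * f (q 0) + f (q 1) + 2 * f (q 2)) / 5))
    ((f (F q 0 (q 1)) - (2 * f (q 0) + 2 * f (q 1) + f (q 2)) / 5) -
          (f (F q 0 (q 2)) - (2 * f (q 0) + f (q 1) + 2 * f (q 2)) / 5))]

theorem rule_of_En_one (q : Fin 3 → Plane) (f : Plane → ℝ) (h : En q 1 f = E0 (bv q f))
    (i j : Fin 3) : f (F q i (q j)) = (AA i).mulVec (bv q f) j := by
  rw [En_one] at h
  have h0 : ∀ a b c d e g : ℝ, 5 / 3 * (2 * (a ^ 2 + b ^ 2 + c ^ 2) + d ^ 2 + e ^ 2 + g ^ 2) = 0 →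
      a = 0 ∧ b = 0 ∧ c = 0 := by
    intro a b c d e g h
    have h1 : a ^ 2 = 0 := by
      nlinarith [sq_nonneg a, sq_nonneg b, sq_nonneg c, sq_nonneg d, sq_nonneg e, sq_nonneg g]
    have h2 : b ^ 2 = 0 := by
      nlinarith [sq_nonneg a, sq_nonneg b, sq_nonneg c, sq_nonneg d, sq_nonneg e, sq_nonneg g]
    have h3 : c ^ 2 = 0 := by
      nlinarith [sq_nonneg a, sq_nonneg b, sq_nonneg c, sq_nonneg d, sq_nonneg e, sq_nonneg g]
    exact ⟨(pow_eq_zero_iff two_ne_zero).1 h1, (pow_eq_zero_iff two_ne_zero).1 h2,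
      (pow_eq_zero_iff two_ne_zero).1 h3⟩
  obtain ⟨ha, hb, hc⟩ := h0 _ _ _ _ _ _ (add_eq_left.1 h)
  have ha' : f (F q 0 (q 1)) = (2 * f (q 0) + 2 * f (q 1) + f (q 2)) / 5 := by linarith
  have hb' : f (F q 1 (q 2)) = (f (q 0) + 2 * f (q 1) + 2 * f (q 2)) / 5 := by linarith
  have hc' : f (F q 0 (q 2)) = (2 * f (q 0) + f (q 1) + 2 * f (q 2)) / 5 := by linarith
  fin_cases i <;> fin_cases j <;>
    simp [AA, bv, Matrix.mulVec, dotProduct, Fin.sum_univ_three, F_self, F_swap q 1 0,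
      F_swap q 2 0, F_swap q 2 1, ha', hb', hc'] <;> ring

theorem En_mono_succ (q : Fin 3 → Plane) (n : ℕ) (f : Plane → ℝ) : En q n f ≤ En q (n + 1) f := by
  induction n generalizing f with
  | zero => rw [En_zero]; exact En_one_ge q f
  | succ n ih =>
    rw [En_succ q n, En_succ q (n + 1)]
    have := Finset.sum_le_sum fun i (_ : i ∈ (Finset.univ : Finset (Fin 3))) => ih (f ∘ F q i)
    linarith

theorem En_mono (q : Fin 3 → Plane) (f : Plane → ℝ) : Monotone fun n => En q n f :=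
  monotone_nat_of_le_succ fun n => En_mono_succ q n f

theorem En_ge (q : Fin 3 → Plane) (n : ℕ) (f : Plane → ℝ) : E0 (bv q f) ≤ En q n f := by
  rw [← En_zero]
  exact En_mono q f (Nat.zero_le n)

/-- all graph energies are equal to the boundary energy -/
def Flat (q : Fin 3 → Plane) (f : Plane → ℝ) : Prop := ∀ n, En q n f = E0 (bv q f)

theorem flat_of_energy_le {q : Fin 3 → Plane} {f : Plane → ℝ}
    (h : Energy q f ≤ ENNReal.ofReal (E0 (bv q f))) : Flat q f := by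
  intro n
  refine le_antisymm ?_ (En_ge q n f)
  have h1 : ENNReal.ofReal (En q n f) ≤ ENNReal.ofReal (E0 (bv q f)) :=
    le_trans (le_iSup (fun n => ENNReal.ofReal (En q n f)) n) h
  exact (ENNReal.ofReal_le_ofReal_iff (E0_nonneg _)).1 h1

theorem Flat.energy {q : Fin 3 → Plane} {f : Plane → ℝ} (h : Flat q f) :
    Energy q f = ENNReal.ofReal (E0 (bv q f)) := by
  unfold Energy
  have : (fun n : ℕ => ENNReal.ofReal (En q n f)) = fun _ => ENNReal.ofReal (E0 (bv q f)) := by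
    funext n
    rw [h n]
  rw [this]
  exact iSup_const

theorem Flat.comp {q : Fin 3 → Plane} {f : Plane → ℝ} (h : Flat q f) (i : Fin 3) :
    Flat q (f ∘ F q i) := by
  intro n
  have h1 : ∑ j, En q n (f ∘ F q j) = ∑ j, E0 (bv q (f ∘ F q j)) := by
    have e1 := En_succ q n f
    have e2 := En_succ q 0 f
    rw [h (n + 1)] at e1
    rw [h (0 + 1)] at e2
    simp only [En_zero] at e2
    linarith
  have h2 : ∀ j ∈ (Finset.univ : Finset (Fin 3)),
      E0 (bv q (f ∘ F q j)) ≤ En q n (f ∘ F q j) := fun j _ => En_ge q n _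
  have h3 := (Finset.sum_eq_sum_iff_of_le h2).1 h1.symm
  exact (h3 i (Finset.mem_univ i)).symm

theorem Flat.bv_comp {q : Fin 3 → Plane} {f : Plane → ℝ} (h : Flat q f) (i : Fin 3) :
    bv q (f ∘ F q i) = (AA i).mulVec (bv q f) := by
  funext j
  exact rule_of_En_one q f (h 1) i j

theorem Flat.word {q : Fin 3 → Plane} {f : Plane → ℝ} (h : Flat q f) (w : List (Fin 3)) :
    Flat q (f ∘ Fw q w) ∧ bv q (f ∘ Fw q w) = fo w (bv q f) := by
  induction w generalizing f with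
  | nil => exact ⟨h, rfl⟩
  | cons i w ih =>
    have := ih (h.comp i)
    rw [h.bv_comp i] at this
    exact this

theorem E0_mulVec_sum (v : Fin 3 → ℝ) : 5 / 3 * ∑ i, E0 ((AA i).mulVec v) = E0 v := by
  simp [Fin.sum_univ_three, AA, E0, Matrix.mulVec, dotProduct]
  ring

/-- sufficient condition for flatness -/
theorem flat_of_rule {q : Fin 3 → Plane} {f : Plane → ℝ}
    (h : ∀ w : List (Fin 3), bv q (f ∘ Fw q w) = fo w (bv q f)) : Flat q f := by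
  intro n
  induction n generalizing f with
  | zero => exact En_zero q f
  | succ n ih =>
    have h1 : ∀ i, bv q (f ∘ F q i) = (AA i).mulVec (bv q f) := fun i => h [i]
    have h2 : ∀ i, En q n (f ∘ F q i) = E0 (bv q (f ∘ F q i)) := by
      intro i
      refine ih fun w => ?_
      rw [h1 i]
      exact h (i :: w)
    rw [En_succ]
    simp only [h2, h1]
    exact E0_mulVec_sum _

theorem E0_mulVec_le (v : Fin 3 → ℝ) (i : Fin 3) : E0 ((AA i).mulVec v) ≤ 3 / 5 * E0 v := by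
  have h := E0_mulVec_sum v
  have h1 := Finset.single_le_sum (f := fun i => E0 ((AA i).mulVec v))
    (fun j _ => E0_nonneg _) (Finset.mem_univ i)
  linarith

end Pool.Agent.Lib.MP_ed8a78_an.Lit
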