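import Pool.Agent.Lib.MP_ed8a78_an.LitEnergy

/-!
# The gasket as the image of the code space, and existence of harmonic functions
-/

set_option autoImplicit false

namespace Pool.Agent.Lib.MP_ed8a78_an.Lit

open Filter Topology

theorem dist_F (q : Fin 3 → Plane) (i : Fin 3) (x y : Plane) :
    dist (F q i x) (F q i y) = 1 / 2 * dist x y := by
  rw [dist_eq_norm, dist_eq_norm]
  have : F q i x - F q i y = (1 / 2 : ℝ) • (x - y) := by
    unfold F; module
  rw [this, norm_smul]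
  norm_num

theorem F_inj (q : Fin 3 → Plane) (i : Fin 3) {x y : Plane} (h : F q i x = F q i y) : x = y := by
  have h1 := dist_F q i x y
  rw [h, dist_self] at h1
  exact dist_eq_zero.1 (by linarith)

theorem continuous_F (q : Fin 3 → Plane) (i : Fin 3) : Continuous (F q i) := by
  unfold F
  fun_prop

theorem dist_Fw (q : Fin 3 → Plane) (w : List (Fin 3)) (x y : Plane) :
    dist (Fw q w x) (Fw q w y) = (1 / 2) ^ w.length * dist x y := by
  induction w with
  | nil => simp [Fw]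
  | cons i w ih =>
    simp only [Fw, dist_F, ih, List.length_cons]
    ring

theorem continuous_Fw (q : Fin 3 → Plane) (w : List (Fin 3)) : Continuous (Fw q w) := by
  induction w with
  | nil => exact continuous_id
  | cons i w ih => exact (continuous_F q i).comp ih

/-! ### The coding map -/

/-- the shift of an infinite word -/
def sh (ω : ℕ → Fin 3) : ℕ → Fin 3 := fun n => ω (n + 1)

/-- an infinite word with a new first letter -/
def cs (i : Fin 3) (ω : ℕ → Fin 3) : ℕ → Fin 3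
  | 0 => i
  | n + 1 => ω n

theorem sh_cs (i : Fin 3) (ω : ℕ → Fin 3) : sh (cs i ω) = ω := rfl

theorem cs_sh (ω : ℕ → Fin 3) : cs (ω 0) (sh ω) = ω := by
  funext n
  cases n <;> rfl

/-- the coding map -/
noncomputable def pc (q : Fin 3 → Plane) (ω : ℕ → Fin 3) : Plane :=
  ∑' n, ((1 / 2 : ℝ) ^ (n + 1)) • q (ω n)

theorem pc_bound (q : Fin 3 → Plane) (ω : ℕ → Fin 3) (n : ℕ) :
    ‖((1 / 2 : ℝ) ^ (n + 1)) • q (ω n)‖ ≤ (1 / 2) ^ (n + 1) * ∑ i, ‖q i‖ := by
  rw [norm_smul, norm_pow]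
  have h1 : ‖(1 / 2 : ℝ)‖ = 1 / 2 := by norm_num
  rw [h1]
  exact mul_le_mul_of_nonneg_left
    (Finset.single_le_sum (f := fun i => ‖q i‖) (fun i _ => norm_nonneg _) (Finset.mem_univ _))
    (by positivity)

theorem summable_bound (B : ℝ) : Summable fun n : ℕ => (1 / 2 : ℝ) ^ (n + 1) * B := by
  have h := (summable_nat_add_iff (f := fun n : ℕ => (1 / 2 : ℝ) ^ n) 1).2
    (summable_geometric_of_lt_one (by norm_num) (by norm_num))
  exact h.mul_right B

theorem summable_pc (q : Fin 3 → Plane) (ω : ℕ → Fin 3) :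
    Summable fun n => ((1 / 2 : ℝ) ^ (n + 1)) • q (ω n) :=
  Summable.of_norm_bounded (summable_bound _) (pc_bound q ω)

theorem continuous_pc (q : Fin 3 → Plane) : Continuous (pc q) := by
  refine continuous_tsum (fun n => ?_) (summable_bound (∑ i, ‖q i‖)) (fun n ω => pc_bound q ω n)
  have h1 : Continuous fun i : Fin 3 => q i := continuous_of_discreteTopology
  have h2 : Continuous fun ω : ℕ → Fin 3 => q (ω n) := h1.comp (continuous_apply n)
  exact h2.const_smul ((1 / 2 : ℝ) ^ (n + 1))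

theorem pc_eq (q : Fin 3 → Plane) (ω : ℕ → Fin 3) : pc q ω = F q (ω 0) (pc q (sh ω)) := by
  unfold pc
  rw [(summable_pc q ω).tsum_eq_zero_add]
  have h1 : ∑' n, ((1 / 2 : ℝ) ^ (n + 1 + 1)) • q (ω (n + 1)) =
      (1 / 2 : ℝ) • ∑' n, ((1 / 2 : ℝ) ^ (n + 1)) • q (sh ω n) := by
    rw [← (summable_pc q (sh ω)).tsum_const_smul]
    refine tsum_congr fun n => ?_
    rw [smul_smul, ← pow_succ']
    rfl
  rw [h1]
  unfold F
  module

theorem pc_cs (q : Fin 3 → Plane) (i : Fin 3) (ω : ℕ → Fin 3) :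
    pc q (cs i ω) = F q i (pc q ω) := pc_eq q (cs i ω)

theorem pc_const (q : Fin 3 → Plane) (i : Fin 3) : pc q (fun _ => i) = q i := by
  have h := pc_eq q (fun _ => i)
  have h1 : sh (fun _ : ℕ => i) = fun _ => i := rfl
  rw [h1] at h
  have h2 := dist_F q i (pc q fun _ => i) (q i)
  rw [F_self, ← h] at h2
  have h3 := dist_nonneg (x := pc q fun _ => i) (y := q i)
  exact dist_eq_zero.1 (by linarith)

/-- one inclusion between invariant sets -/
theorem sub_of_inv {q : Fin 3 → Plane} {S T : Set Plane} (hS : IsCompact S) (hSn : S.Nonempty)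
    (hT : IsClosed T) (hTn : T.Nonempty) (hS' : ∀ x ∈ S, ∃ i, ∃ y ∈ S, F q i y = x)
    (hT' : ∀ i, ∀ y ∈ T, F q i y ∈ T) : S ⊆ T := by
  obtain ⟨x, hx, hmax⟩ := hS.exists_isMaxOn hSn (Metric.continuous_infDist_pt T).continuousOn
  obtain ⟨i, y, hy, hxy⟩ := hS' x hx
  obtain ⟨t, ht, hyt⟩ := hT.exists_infDist_eq_dist hTn y
  have h1 : Metric.infDist x T ≤ dist (F q i y) (F q i t) := by
    rw [← hxy]
    exact Metric.infDist_le_dist_of_mem (hT' i t ht)
  rw [dist_F, ← hyt] at h1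
  have h2 : Metric.infDist y T ≤ Metric.infDist x T := hmax hy
  have h3 : 0 ≤ Metric.infDist y T := Metric.infDist_nonneg
  have h4 : Metric.infDist x T = 0 := by linarith
  intro z hz
  have h5 : Metric.infDist z T ≤ Metric.infDist x T := hmax hz
  have h6 : 0 ≤ Metric.infDist z T := Metric.infDist_nonneg
  exact (hT.mem_iff_infDist_zero hTn).2 (by linarith)

theorem IsGasket.eq_range {q : Fin 3 → Plane} {K : Set Plane} (hK : IsGasket q K) :
    K = Set.range (pc q) := by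
  have hR : IsCompact (Set.range (pc q)) := isCompact_range (continuous_pc q)
  have hRn : (Set.range (pc q)).Nonempty := Set.range_nonempty _
  have hK1 : ∀ x ∈ K, ∃ i, ∃ y ∈ K, F q i y = x := by
    intro x hx
    rw [hK.inv] at hx
    obtain ⟨i, hi⟩ := Set.mem_iUnion.1 hx
    exact ⟨i, hi⟩
  have hK2 : ∀ i, ∀ y ∈ K, F q i y ∈ K := by
    intro i y hy
    rw [hK.inv]
    exact Set.mem_iUnion.2 ⟨i, y, hy, rfl⟩
  have hR1 : ∀ x ∈ Set.range (pc q), ∃ i, ∃ y ∈ Set.range (pc q), F q i y = x := by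
    rintro x ⟨ω, rfl⟩
    exact ⟨ω 0, pc q (sh ω), ⟨sh ω, rfl⟩, (pc_eq q ω).symm⟩
  have hR2 : ∀ i, ∀ y ∈ Set.range (pc q), F q i y ∈ Set.range (pc q) := by
    rintro i y ⟨ω, rfl⟩
    exact ⟨cs i ω, pc_cs q i ω⟩
  exact le_antisymm (sub_of_inv hK.compact hK.nonempty hR.isClosed hRn hK1 hR2)
    (sub_of_inv hR hRn hK.compact.isClosed hK.nonempty hR1 hK2)

/-! ### Barycentric coordinates -/

/-- twice the signed area of the triangle -/
noncomputable def DD (q : Fin 3 → Plane) : ℝ :=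
  (q 1 0 - q 0 0) * (q 2 1 - q 0 1) - (q 1 1 - q 0 1) * (q 2 0 - q 0 0)

/-- barycentric coordinates -/
noncomputable def bb (q : Fin 3 → Plane) (i : Fin 3) (x : Plane) : ℝ :=
  if i = 1 then ((x 0 - q 0 0) * (q 2 1 - q 0 1) - (x 1 - q 0 1) * (q 2 0 - q 0 0)) / DD q
  else if i = 2 then ((q 1 0 - q 0 0) * (x 1 - q 0 1) - (q 1 1 - q 0 1) * (x 0 - q 0 0)) / DD q
  else 1 - ((x 0 - q 0 0) * (q 2 1 - q 0 1) - (x 1 - q 0 1) * (q 2 0 - q 0 0)) / DD q -
    ((q 1 0 - q 0 0) * (x 1 - q 0 1) - (q 1 1 - q 0 1) * (x 0 - q 0 0)) / DD q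

theorem IsGasket.DD_ne {q : Fin 3 → Plane} {K : Set Plane} (hK : IsGasket q K) : DD q ≠ 0 := by
  obtain ⟨s, hs, h⟩ := hK.equilateral
  have h1 := h 0 1 (by decide)
  have h2 := h 0 2 (by decide)
  have h3 := h 1 2 (by decide)
  rw [EuclideanSpace.dist_eq, Real.sqrt_eq_iff_mul_self_eq (by positivity) hs.le] at h1 h2 h3
  simp only [Fin.sum_univ_two, Real.dist_eq, sq_abs] at h1 h2 h3
  intro h0
  unfold DD at h0
  have h4 : ((q 1 0 - q 0 0) * (q 2 1 - q 0 1) - (q 1 1 - q 0 1) * (q 2 0 - q 0 0)) ^ 2 =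
      3 / 4 * (s * s) ^ 2 := by
    have e : (q 1 0 - q 0 0) * (q 2 0 - q 0 0) + (q 1 1 - q 0 1) * (q 2 1 - q 0 1) =
        s * s / 2 := by
      nlinarith
    have e2 : ((q 1 0 - q 0 0) * (q 2 1 - q 0 1) - (q 1 1 - q 0 1) * (q 2 0 - q 0 0)) ^ 2 =
        ((q 0 0 - q 1 0) ^ 2 + (q 0 1 - q 1 1) ^ 2) * ((q 0 0 - q 2 0) ^ 2 + (q 0 1 - q 2 1) ^ 2) -
        ((q 1 0 - q 0 0) * (q 2 0 - q 0 0) + (q 1 1 - q 0 1) * (q 2 1 - q 0 1)) ^ 2 := by ring
    rw [e2, e, h1, h2]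
    ring
  rw [h0] at h4
  have : 0 < 3 / 4 * (s * s) ^ 2 := by positivity
  norm_num at h4
  exact hs.ne' h4

theorem continuous_bb (q : Fin 3 → Plane) (i : Fin 3) : Continuous (bb q i) := by
  unfold bb
  fin_cases i <;> simp <;> fun_prop

theorem bb_F {q : Fin 3 → Plane} (hq : DD q ≠ 0) (i j : Fin 3) (x : Plane) :
    bb q i (F q j x) = 1 / 2 * (if i = j then 1 else 0) + 1 / 2 * bb q i x := by
  have e0 : (F q j x) 0 = q j 0 + 1 / 2 * (x 0 - q j 0) := by simp [F]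
  have e1 : (F q j x) 1 = q j 1 + 1 / 2 * (x 1 - q j 1) := by simp [F]
  unfold bb
  rw [e0, e1]
  have hD : DD q = (q 1 0 - q 0 0) * (q 2 1 - q 0 1) - (q 1 1 - q 0 1) * (q 2 0 - q 0 0) := rfl
  fin_cases i <;> fin_cases j <;> simp <;> field_simp <;> (try rw [hD]) <;> ring

theorem bb_sum (q : Fin 3 → Plane) (x : Plane) : bb q 0 x + bb q 1 x + bb q 2 x = 1 := by
  simp [bb]
  ring

end Pool.Agent.Lib.MP_ed8a78_an.Lit
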