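import Pool.Agent.Lib.MP_ed8a78_an.LitGeo

/-!
# Existence of harmonic functions with given boundary values; the extension rule
-/

set_option autoImplicit false

namespace Pool.Agent.Lib.MP_ed8a78_an.Lit

open Filter Topology

/-! ### Codes of a point -/

theorem bb_bounds {q : Fin 3 → Plane} (hq : DD q ≠ 0) (i : Fin 3) (ω : ℕ → Fin 3) :
    0 ≤ bb q i (pc q ω) := by
  have hc : Continuous fun ω => bb q i (pc q ω) := (continuous_bb q i).comp (continuous_pc q)
  obtain ⟨α, -, hα⟩ := isCompact_univ.exists_isMinOn (Set.univ_nonempty (α := ℕ → Fin 3))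
    hc.continuousOn
  have h1 : bb q i (pc q α) ≤ bb q i (pc q (sh α)) := hα (Set.mem_univ _)
  have h2 : bb q i (pc q α) ≤ bb q i (pc q ω) := hα (Set.mem_univ _)
  have h3 := pc_eq q α
  have h4 : (0 : ℝ) ≤ if i = α 0 then 1 else 0 := by split_ifs <;> norm_num
  have h5 : bb q i (pc q α) = 1 / 2 * (if i = α 0 then 1 else 0) + 1 / 2 * bb q i (pc q (sh α)) := by
    rw [h3, bb_F hq]
  linarith

theorem bb_le_one {q : Fin 3 → Plane} (hq : DD q ≠ 0) (i : Fin 3) (ω : ℕ → Fin 3) :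
    bb q i (pc q ω) ≤ 1 := by
  have h := bb_sum q (pc q ω)
  have h0 := bb_bounds hq 0 ω
  have h1 := bb_bounds hq 1 ω
  have h2 := bb_bounds hq 2 ω
  fin_cases i <;> simp <;> linarith

theorem code_of_vertex {q : Fin 3 → Plane} (hq : DD q ≠ 0) (i : Fin 3) (n : ℕ) :
    ∀ ω : ℕ → Fin 3, bb q i (pc q ω) = 1 → ω n = i := by
  have key : ∀ ω : ℕ → Fin 3, bb q i (pc q ω) = 1 → ω 0 = i ∧ bb q i (pc q (sh ω)) = 1 := by
    intro ω h
    rw [pc_eq q ω, bb_F hq] at h
    have h1 := bb_le_one hq i (sh ω)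
    by_cases h2 : i = ω 0
    · rw [if_pos h2] at h
      exact ⟨h2.symm, by linarith⟩
    · rw [if_neg h2] at h
      linarith
  induction n with
  | zero => exact fun ω h => (key ω h).1
  | succ n ih => exact fun ω h => ih (sh ω) (key ω h).2

/-! ### The harmonic function on codes -/

/-- vertex values of the cells along a code -/
noncomputable def uu : ℕ → (Fin 3 → ℝ) → (ℕ → Fin 3) → (Fin 3 → ℝ)
  | 0, v, _ => v
  | n + 1, v, ω => uu n ((AA (ω 0)).mulVec v) (sh ω)

theorem sqrt_E0_mulVec (v : Fin 3 → ℝ) (i : Fin 3) :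
    √(E0 ((AA i).mulVec v)) ≤ 4 / 5 * √(E0 v) := by
  have h1 := E0_mulVec_le v i
  have h2 : E0 ((AA i).mulVec v) ≤ (4 / 5) ^ 2 * E0 v := by
    have := E0_nonneg v
    nlinarith
  calc √(E0 ((AA i).mulVec v)) ≤ √((4 / 5) ^ 2 * E0 v) := Real.sqrt_le_sqrt h2
    _ = 4 / 5 * √(E0 v) := by
      rw [Real.sqrt_mul (by positivity), Real.sqrt_sq (by norm_num)]

theorem abs_sub_le_E0 (v : Fin 3 → ℝ) (i j : Fin 3) : |v i - v j| ≤ √(E0 v) := by
  apply Real.abs_le_sqrt
  unfold E0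
  fin_cases i <;> fin_cases j <;> simp <;> nlinarith [sq_nonneg (v 0 - v 1),
    sq_nonneg (v 1 - v 2), sq_nonneg (v 0 - v 2)]

theorem abs_mulVec_sub (v : Fin 3 → ℝ) (i : Fin 3) :
    |(AA i).mulVec v 0 - v 0| ≤ √(E0 v) := by
  have h1 := abs_le.1 (abs_sub_le_E0 v 1 0)
  have h2 := abs_le.1 (abs_sub_le_E0 v 2 0)
  have h3 := Real.sqrt_nonneg (E0 v)
  rw [abs_le]
  fin_cases i <;> simp [AA, Matrix.mulVec, dotProduct, Fin.sum_univ_three] <;>
    constructor <;> linarith

theorem mulVec_self (v : Fin 3 → ℝ) (i : Fin 3) : (AA i).mulVec v i = v i := by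
  fin_cases i <;> simp [AA, Matrix.mulVec, dotProduct, Fin.sum_univ_three]

theorem mulVec_swap (v : Fin 3 → ℝ) (i j : Fin 3) :
    (AA i).mulVec v j = (AA j).mulVec v i := by
  fin_cases i <;> fin_cases j <;> simp [AA, Matrix.mulVec, dotProduct, Fin.sum_univ_three]

theorem uu_E0 (n : ℕ) : ∀ (v : Fin 3 → ℝ) (ω : ℕ → Fin 3),
    √(E0 (uu n v ω)) ≤ (4 / 5) ^ n * √(E0 v) := by
  induction n with
  | zero => intro v ω; simp [uu]
  | succ n ih =>
    intro v ω
    have h1 := ih ((AA (ω 0)).mulVec v) (sh ω)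
    have h2 := sqrt_E0_mulVec v (ω 0)
    calc _ ≤ (4 / 5) ^ n * √(E0 ((AA (ω 0)).mulVec v)) := h1
      _ ≤ (4 / 5) ^ n * (4 / 5 * √(E0 v)) := by gcongr
      _ = _ := by ring

theorem uu_step (n : ℕ) : ∀ (v : Fin 3 → ℝ) (ω : ℕ → Fin 3),
    dist (uu n v ω 0) (uu (n + 1) v ω 0) ≤ √(E0 v) * (4 / 5) ^ n := by
  induction n with
  | zero =>
    intro v ω
    simp only [uu, pow_zero, mul_one]
    rw [dist_comm, Real.dist_eq]
    exact abs_mulVec_sub v (ω 0)
  | succ n ih =>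
    intro v ω
    have h1 := ih ((AA (ω 0)).mulVec v) (sh ω)
    have h2 := sqrt_E0_mulVec v (ω 0)
    calc _ ≤ √(E0 ((AA (ω 0)).mulVec v)) * (4 / 5) ^ n := h1
      _ ≤ (4 / 5 * √(E0 v)) * (4 / 5) ^ n := by gcongr
      _ = _ := by ring

/-- the value at a code -/
noncomputable def Hc (v : Fin 3 → ℝ) (ω : ℕ → Fin 3) : ℝ :=
  limUnder atTop fun n => uu n v ω 0

theorem Hc_tendsto (v : Fin 3 → ℝ) (ω : ℕ → Fin 3) :
    Tendsto (fun n => uu n v ω 0) atTop (𝓝 (Hc v ω)) :=
  (cauchySeq_of_le_geometric (4 / 5) _ (by norm_num) fun n => uu_step n v ω).tendsto_limUnder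

theorem Hc_dist (v : Fin 3 → ℝ) (ω : ℕ → Fin 3) (n : ℕ) :
    dist (uu n v ω 0) (Hc v ω) ≤ √(E0 v) * (4 / 5) ^ n / (1 - 4 / 5) :=
  dist_le_of_le_geometric_of_tendsto (4 / 5) _ (by norm_num) (fun n => uu_step n v ω)
    (Hc_tendsto v ω) n

theorem Hc_shift (v : Fin 3 → ℝ) (ω : ℕ → Fin 3) :
    Hc v ω = Hc ((AA (ω 0)).mulVec v) (sh ω) :=
  tendsto_nhds_unique ((tendsto_add_atTop_iff_nat 1).2 (Hc_tendsto v ω))
    (Hc_tendsto ((AA (ω 0)).mulVec v) (sh ω))

theorem uu_const (n : ℕ) (i : Fin 3) : ∀ v : Fin 3 → ℝ, uu n v (fun _ => i) i = v i := by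
  induction n with
  | zero => intro v; rfl
  | succ n ih =>
    intro v
    exact (ih ((AA i).mulVec v)).trans (mulVec_self v i)

theorem tendsto_geom (c : ℝ) : Tendsto (fun n : ℕ => (4 / 5 : ℝ) ^ n * c) atTop (𝓝 0) := by
  have h := (tendsto_pow_atTop_nhds_zero_of_lt_one (r := (4 / 5 : ℝ)) (by norm_num)
    (by norm_num)).mul_const c
  rwa [zero_mul] at h

theorem Hc_const (v : Fin 3 → ℝ) (i : Fin 3) : Hc v (fun _ => i) = v i := by
  have h1 := Hc_tendsto v (fun _ => i)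
  refine tendsto_nhds_unique h1 ?_
  rw [tendsto_iff_dist_tendsto_zero]
  refine squeeze_zero (fun n => dist_nonneg) (fun n => ?_) (tendsto_geom √(E0 v))
  rw [Real.dist_eq]
  have h2 := abs_sub_le_E0 (uu n v fun _ => i) 0 i
  rw [uu_const] at h2
  exact h2.trans (uu_E0 n v _)

theorem continuous_uu (n : ℕ) : ∀ v : Fin 3 → ℝ, Continuous fun ω => uu n v ω 0 := by
  induction n with
  | zero => intro v; exact continuous_const
  | succ n ih =>
    intro v
    have h1 : Continuous fun p : Fin 3 × (ℕ → Fin 3) => uu n ((AA p.1).mulVec v) p.2 0 := by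
      rw [continuous_prod_of_discrete_left]
      intro i
      exact ih ((AA i).mulVec v)
    have h2 : Continuous fun ω : ℕ → Fin 3 => (ω 0, sh ω) := by
      refine (continuous_apply 0).prodMk ?_
      exact continuous_pi fun n => continuous_apply (n + 1)
    exact h1.comp h2

theorem continuous_Hc (v : Fin 3 → ℝ) : Continuous (Hc v) := by
  have h1 : TendstoUniformly (fun n ω => uu n v ω 0) (Hc v) atTop := by
    rw [Metric.tendstoUniformly_iff]
    intro ε hε
    have h2 := tendsto_geom (√(E0 v) / (1 - 4 / 5))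
    filter_upwards [h2.eventually (gt_mem_nhds hε)] with n hn ω
    rw [dist_comm]
    refine lt_of_le_of_lt (Hc_dist v ω n) ?_
    calc _ = (4 / 5 : ℝ) ^ n * (√(E0 v) / (1 - 4 / 5)) := by ring
      _ < ε := hn
  exact h1.continuous (Frequently.of_forall fun n => continuous_uu n v)

theorem Hc_wd {q : Fin 3 → Plane} (hq : DD q ≠ 0) (n : ℕ) :
    ∀ (v : Fin 3 → ℝ) (ω ω' : ℕ → Fin 3), pc q ω = pc q ω' → ω n ≠ ω' n → Hc v ω = Hc v ω' := by
  have base : ∀ (v : Fin 3 → ℝ) (ω ω' : ℕ → Fin 3), pc q ω = pc q ω' → ω 0 ≠ ω' 0 →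
      Hc v ω = Hc v ω' := by
    intro v ω ω' h h0
    have e1 : ∀ i, bb q i (pc q ω) =
        1 / 2 * (if i = ω 0 then 1 else 0) + 1 / 2 * bb q i (pc q (sh ω)) := fun i => by
      rw [← bb_F hq, ← pc_eq]
    have e2 : ∀ i, bb q i (pc q ω') =
        1 / 2 * (if i = ω' 0 then 1 else 0) + 1 / 2 * bb q i (pc q (sh ω')) := fun i => by
      rw [← bb_F hq, ← pc_eq]
    have a1 := e1 (ω 0)
    have a2 := e1 (ω' 0)
    have a3 := e2 (ω 0)
    have a4 := e2 (ω' 0)
    rw [if_pos rfl] at a1 a4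
    rw [if_neg h0.symm] at a2
    rw [if_neg h0] at a3
    rw [← h] at a3 a4
    have b1 := bb_bounds hq (ω 0) (sh ω)
    have b2 := bb_bounds hq (ω' 0) (sh ω')
    have b3 := bb_le_one hq (ω' 0) (sh ω)
    have b4 := bb_le_one hq (ω 0) (sh ω')
    have c1 : bb q (ω' 0) (pc q (sh ω)) = 1 := by linarith
    have c2 : bb q (ω 0) (pc q (sh ω')) = 1 := by linarith
    have d1 : sh ω = fun _ => ω' 0 := funext fun n => code_of_vertex hq (ω' 0) n _ c1
    have d2 : sh ω' = fun _ => ω 0 := funext fun n => code_of_vertex hq (ω 0) n _ c2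
    rw [Hc_shift v ω, Hc_shift v ω', d1, d2, Hc_const, Hc_const]
    exact mulVec_swap v (ω 0) (ω' 0)
  induction n with
  | zero => exact base
  | succ n ih =>
    intro v ω ω' h hn
    by_cases h0 : ω 0 = ω' 0
    · rw [Hc_shift v ω, Hc_shift v ω', ← h0]
      refine ih _ _ _ ?_ hn
      rw [pc_eq q ω, pc_eq q ω', ← h0] at h
      exact F_inj q _ h
    · exact base v ω ω' h h0

theorem Hc_eq {q : Fin 3 → Plane} (hq : DD q ≠ 0) (v : Fin 3 → ℝ) {ω ω' : ℕ → Fin 3}
    (h : pc q ω = pc q ω') : Hc v ω = Hc v ω' := by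
  by_cases h1 : ω = ω'
  · rw [h1]
  · obtain ⟨n, hn⟩ := Function.ne_iff.1 h1
    exact Hc_wd hq n v ω ω' h hn

open Classical in
/-- the harmonic function with boundary values `v` -/
noncomputable def HH (q : Fin 3 → Plane) (v : Fin 3 → ℝ) (x : Plane) : ℝ :=
  if h : ∃ ω, pc q ω = x then Hc v h.choose else 0

theorem HH_pc {q : Fin 3 → Plane} (hq : DD q ≠ 0) (v : Fin 3 → ℝ) (ω : ℕ → Fin 3) :
    HH q v (pc q ω) = Hc v ω := by
  have h : ∃ ω', pc q ω' = pc q ω := ⟨ω, rfl⟩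
  unfold HH
  rw [dif_pos h]
  exact Hc_eq hq v h.choose_spec

theorem continuousOn_HH {q : Fin 3 → Plane} (hq : DD q ≠ 0) (v : Fin 3 → ℝ) :
    ContinuousOn (HH q v) (Set.range (pc q)) := by
  rw [continuousOn_iff_continuous_domRestrict]
  have h1 : Continuous (Set.rangeFactorization (pc q)) := (continuous_pc q).rangeFactorization
  have h2 : IsClosedMap (Set.rangeFactorization (pc q)) := h1.isClosedMap
  have h3 := h2.isQuotientMap h1 Set.rangeFactorization_surjective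
  rw [h3.continuous_iff]
  have h4 : (Set.range (pc q)).domRestrict (HH q v) ∘ Set.rangeFactorization (pc q) = Hc v := by
    funext ω
    exact HH_pc hq v ω
  rw [h4]
  exact continuous_Hc v

/-- finite word followed by an infinite word -/
def app : List (Fin 3) → (ℕ → Fin 3) → (ℕ → Fin 3)
  | [], ω => ω
  | i :: w, ω => cs i (app w ω)

theorem pc_app (q : Fin 3 → Plane) (w : List (Fin 3)) (ω : ℕ → Fin 3) :
    pc q (app w ω) = Fw q w (pc q ω) := by
  induction w with
  | nil => rfl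
  | cons i w ih =>
    simp only [app, Fw]
    rw [pc_cs, ih]

theorem Hc_app (w : List (Fin 3)) : ∀ (v : Fin 3 → ℝ) (i : Fin 3),
    Hc v (app w fun _ => i) = fo w v i := by
  induction w with
  | nil => intro v i; exact Hc_const v i
  | cons j w ih =>
    intro v i
    rw [Hc_shift]
    exact ih ((AA j).mulVec v) i

theorem HH_word {q : Fin 3 → Plane} (hq : DD q ≠ 0) (v : Fin 3 → ℝ) (w : List (Fin 3))
    (i : Fin 3) : HH q v (Fw q w (q i)) = fo w v i := by
  rw [← pc_const q i, ← pc_app, HH_pc hq, Hc_app]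

theorem bv_HH {q : Fin 3 → Plane} (hq : DD q ≠ 0) (v : Fin 3 → ℝ) : bv q (HH q v) = v := by
  funext i
  exact HH_word hq v [] i

theorem flat_HH {q : Fin 3 → Plane} (hq : DD q ≠ 0) (v : Fin 3 → ℝ) : Flat q (HH q v) := by
  refine flat_of_rule fun w => ?_
  rw [bv_HH hq]
  funext i
  exact HH_word hq v w i

/-- harmonic functions are flat: they obey the extension rule -/
theorem IsHarmonic.flat {q : Fin 3 → Plane} {K : Set Plane} {h : Plane → ℝ} (hK : IsGasket q K)
    (hh : IsHarmonic q K h) : Flat q h := by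
  have hq := hK.DD_ne
  have h1 : ContinuousOn (HH q (bv q h)) K := by
    rw [hK.eq_range]
    exact continuousOn_HH hq _
  have h2 := hh.minimal (HH q (bv q h)) h1 fun i => HH_word hq (bv q h) [] i
  rw [(flat_HH hq (bv q h)).energy, bv_HH hq] at h2
  exact flat_of_energy_le h2

theorem pc_word (q : Fin 3 → Plane) (n : ℕ) : ∀ ω : ℕ → Fin 3,
    pc q ω = Fw q (List.ofFn fun k : Fin n => ω k) (pc q fun m => ω (m + n)) := by
  induction n with
  | zero => intro ω; simp [Fw]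
  | succ n ih =>
    intro ω
    rw [pc_eq q ω, ih (sh ω), List.ofFn_succ]
    simp only [Fw, sh]
    rfl

/-- the code of a point is the limit of the cells -/
theorem tendsto_word (q : Fin 3 → Plane) (x₀ : Plane) (ω : ℕ → Fin 3) :
    Tendsto (fun n => Fw q (List.ofFn fun k : Fin n => ω k) x₀) atTop (𝓝 (pc q ω)) := by
  rw [tendsto_iff_dist_tendsto_zero]
  have hb : ∃ B : ℝ, ∀ α : ℕ → Fin 3, dist x₀ (pc q α) ≤ B := by
    obtain ⟨B, hB⟩ := (isCompact_range ((continuous_const (y := x₀)).dist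
      (continuous_pc q))).bddAbove
    exact ⟨B, fun α => hB ⟨α, rfl⟩⟩
  obtain ⟨B, hB⟩ := hb
  have h2 : Tendsto (fun n : ℕ => (1 / 2 : ℝ) ^ n * B) atTop (𝓝 0) := by
    have h := (tendsto_pow_atTop_nhds_zero_of_lt_one (r := (1 / 2 : ℝ)) (by norm_num)
      (by norm_num)).mul_const B
    rwa [zero_mul] at h
  refine squeeze_zero (fun n => dist_nonneg) (fun n => ?_) h2
  rw [pc_word q n ω, dist_Fw, List.length_ofFn]
  exact mul_le_mul_of_nonneg_left (hB _) (by positivity)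

theorem eq_of_E0_eq_zero {v : Fin 3 → ℝ} (h : E0 v = 0) (i j : Fin 3) : v i = v j := by
  have h1 := abs_sub_le_E0 v i j
  rw [h, Real.sqrt_zero] at h1
  exact sub_eq_zero.1 (abs_eq_zero.1 (le_antisymm h1 (abs_nonneg _)))

theorem fo_const (c : ℝ) (w : List (Fin 3)) : fo w (fun _ => c) = fun _ => c := by
  induction w with
  | nil => rfl
  | cons i w ih =>
    rw [fo_cons]
    have : (AA i).mulVec (fun _ => c) = fun _ => c := by
      funext j
      fin_cases i <;> fin_cases j <;>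
        simp [AA, Matrix.mulVec, dotProduct, Fin.sum_univ_three] <;> ring
    rw [this, ih]

theorem IsHarmonic.E0_pos {q : Fin 3 → Plane} {K : Set Plane} {h : Plane → ℝ}
    (hK : IsGasket q K) (hh : IsHarmonic q K h) (hn : ∃ x ∈ K, ∃ y ∈ K, h x ≠ h y) :
    0 < E0 (bv q h) := by
  refine lt_of_le_of_ne (E0_nonneg _) fun h0 => ?_
  have h1 : bv q h = fun _ => h (q 0) := funext fun i => eq_of_E0_eq_zero h0.symm i 0
  have h2 : ∀ x ∈ K, h x = h (q 0) := by
    intro x hx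
    have hx' := hx
    rw [hK.eq_range] at hx'
    obtain ⟨ω, rfl⟩ := hx'
    have h3 := tendsto_word q (q 0) ω
    have h4 : ∀ n : ℕ, Fw q (List.ofFn fun k : Fin n => ω k) (q 0) ∈ K := by
      intro n
      rw [hK.eq_range, ← pc_const q 0, ← pc_app]
      exact ⟨_, rfl⟩
    have h5 : Tendsto (fun n => h (Fw q (List.ofFn fun k : Fin n => ω k) (q 0))) atTop
        (𝓝 (h (pc q ω))) :=
      (hh.continuousOn _ hx).tendsto.comp
        (tendsto_nhdsWithin_iff.2 ⟨h3, Eventually.of_forall h4⟩)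
    have h6 : ∀ n : ℕ, h (Fw q (List.ofFn fun k : Fin n => ω k) (q 0)) = h (q 0) := by
      intro n
      have h7 := ((hh.flat hK).word (List.ofFn fun k : Fin n => ω k)).2
      rw [h1, fo_const] at h7
      exact congrFun h7 0
    simp only [h6] at h5
    exact tendsto_nhds_unique h5 tendsto_const_nhds
  obtain ⟨x, hx, y, hy, hxy⟩ := hn
  exact hxy ((h2 x hx).trans (h2 y hy).symm)

end Pool.Agent.Lib.MP_ed8a78_an.Lit
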