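import Mathlib

/-!
# From bounded cell sums to densities in `L^p`
-/

set_option autoImplicit false

namespace Pool.Agent.Lib.MP_ed8a78_an.Lit

open MeasureTheory Filter Topology

theorem sum_holder {ι : Type*} (I : Finset ι) (a b : ι → ℝ) (ha : ∀ w, 0 ≤ a w)
    (hb : ∀ w, 0 < b w) {p q : ℝ} (hpq : p.HolderConjugate q) :
    ∑ w ∈ I, a w ≤ (∑ w ∈ I, a w ^ p * b w ^ (1 - p)) ^ (1 / p) * (∑ w ∈ I, b w) ^ (1 / q) := by
  have h := Real.inner_le_Lp_mul_Lq_of_nonneg I (f := fun w => a w * b w ^ (-(1 / q)))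
    (g := fun w => b w ^ (1 / q)) hpq
    (fun w _ => mul_nonneg (ha w) (Real.rpow_nonneg (hb w).le _))
    (fun w _ => Real.rpow_nonneg (hb w).le _)
  have hq : q ≠ 0 := hpq.symm.ne_zero
  have e1 : ∀ w, a w * b w ^ (-(1 / q)) * b w ^ (1 / q) = a w := by
    intro w
    rw [mul_assoc, ← Real.rpow_add (hb w)]
    simp
  have e2 : ∀ w, (a w * b w ^ (-(1 / q))) ^ p = a w ^ p * b w ^ (1 - p) := by
    intro w
    rw [Real.mul_rpow (ha w) (Real.rpow_nonneg (hb w).le _), ← Real.rpow_mul (hb w).le]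
    have : -(1 / q) * p = 1 - p := by
      have h1 := hpq.div_conj_eq_sub_one
      calc -(1 / q) * p = -(p / q) := by ring
        _ = 1 - p := by rw [h1]; ring
    rw [this]
  have e3 : ∀ w, (b w ^ (1 / q)) ^ q = b w := by
    intro w
    rw [← Real.rpow_mul (hb w).le, one_div, inv_mul_cancel₀ hq, Real.rpow_one]
  simp only [e1, e2, e3] at h
  exact h

section

variable {X : Type*} [MetricSpace X] [MeasurableSpace X] [BorelSpace X]

theorem closed_bound {ν₁ ν₂ : Measure X} [IsFiniteMeasure ν₁] [IsFiniteMeasure ν₂] {K : Set X}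
    (h1 : ν₁ Kᶜ = 0) {c : ∀ n : ℕ, (Fin n → Fin 3) → Set X}
    (hcov : ∀ n, K ⊆ ⋃ w, c n w) {δ : ℕ → ℝ} (hδ : Tendsto δ atTop (𝓝 0))
    (hdiam : ∀ n w, ∀ x ∈ c n w, ∀ y ∈ c n w, dist x y ≤ δ n)
    (hsum : ∀ n, ∑ w, ν₂.real (c n w) ≤ ν₂.real K)
    (hpos : ∀ n w, 0 < ν₂.real (c n w)) {p q M : ℝ} (hpq : p.HolderConjugate q)
    (hM : ∀ n, ∑ w, ν₁.real (c n w) ^ p * ν₂.real (c n w) ^ (1 - p) ≤ M) {B : Set X}
    (hB : IsClosed B) : ν₁.real B ≤ M ^ (1 / p) * ν₂.real B ^ (1 / q) := by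
  classical
  have hp0 : 0 < p := hpq.pos
  have hq0 : 0 < q := hpq.symm.pos
  have step : ∀ n, ν₁.real B ≤ M ^ (1 / p) * ν₂.real (Metric.cthickening (δ n) B) ^ (1 / q) := by
    intro n
    set I : Finset (Fin n → Fin 3) := Finset.univ.filter fun w => (c n w ∩ B).Nonempty with hI
    have a1 : B ⊆ (⋃ w ∈ I, c n w) ∪ Kᶜ := by
      intro x hx
      by_cases hxK : x ∈ K
      · obtain ⟨w, hw⟩ := Set.mem_iUnion.1 (hcov n hxK)
        refine Or.inl (Set.mem_biUnion (x := w) ?_ hw)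
        simp only [hI, Finset.coe_filter, Finset.mem_univ, true_and, Set.mem_ofPred_eq]
        exact ⟨x, hw, hx⟩
      · exact Or.inr hxK
    have a2 : ν₁.real Kᶜ = 0 := by simp [Measure.real, h1]
    have a3 : ν₁.real B ≤ ∑ w ∈ I, ν₁.real (c n w) := by
      calc ν₁.real B ≤ ν₁.real ((⋃ w ∈ I, c n w) ∪ Kᶜ) := measureReal_mono a1
        _ ≤ ν₁.real (⋃ w ∈ I, c n w) + ν₁.real Kᶜ := measureReal_union_le _ _
        _ = ν₁.real (⋃ w ∈ I, c n w) := by rw [a2, add_zero]
        _ ≤ _ := measureReal_biUnion_finset_le I _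
    have a4 : ∑ w ∈ I, ν₂.real (c n w) ≤ ν₂.real (Metric.cthickening (δ n) B) := by
      have b1 : ∑ w ∈ I, ν₂.real (c n w) + ∑ w ∈ Finset.univ.filter fun w => w ∉ I,
          ν₂.real (c n w) = ∑ w, ν₂.real (c n w) := by
        have := Finset.sum_filter_add_sum_filter_not Finset.univ (fun w => w ∈ I)
          fun w => ν₂.real (c n w)
        simpa using this
      have b2 : ν₂.real K ≤ ν₂.real (⋃ w ∈ I, c n w) +
          ∑ w ∈ Finset.univ.filter fun w => w ∉ I, ν₂.real (c n w) := by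
        have c1 : K ⊆ (⋃ w ∈ I, c n w) ∪ ⋃ w ∈ Finset.univ.filter fun w => w ∉ I, c n w := by
          intro x hx
          obtain ⟨w, hw⟩ := Set.mem_iUnion.1 (hcov n hx)
          by_cases hwI : w ∈ I
          · exact Or.inl (Set.mem_biUnion (x := w) hwI hw)
          · refine Or.inr (Set.mem_biUnion (x := w) ?_ hw)
            simpa using hwI
        calc ν₂.real K ≤ _ := measureReal_mono c1
          _ ≤ _ := measureReal_union_le _ _
          _ ≤ _ := by
            gcongr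
            exact measureReal_biUnion_finset_le _ _
      have b3 : ν₂.real (⋃ w ∈ I, c n w) ≤ ν₂.real (Metric.cthickening (δ n) B) := by
        refine measureReal_mono ?_
        intro x hx
        obtain ⟨w, hwI, hxw⟩ := Set.mem_iUnion₂.1 hx
        simp only [hI, Finset.mem_filter, Finset.mem_univ, true_and] at hwI
        obtain ⟨y, hy, hyB⟩ := hwI
        exact Metric.mem_cthickening_of_dist_le x y (δ n) B hyB (hdiam n w x hxw y hy)
      have b4 := hsum n
      linarith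
    have a5 := sum_holder I (fun w => ν₁.real (c n w)) (fun w => ν₂.real (c n w))
      (fun w => measureReal_nonneg) (hpos n) hpq
    have a6 : ∑ w ∈ I, ν₁.real (c n w) ^ p * ν₂.real (c n w) ^ (1 - p) ≤ M := by
      refine le_trans (Finset.sum_le_sum_of_subset_of_nonneg (Finset.subset_univ I) ?_) (hM n)
      intro w _ _
      exact mul_nonneg (Real.rpow_nonneg measureReal_nonneg _)
        (Real.rpow_nonneg measureReal_nonneg _)
    have a7 : 0 ≤ ∑ w ∈ I, ν₁.real (c n w) ^ p * ν₂.real (c n w) ^ (1 - p) :=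
      Finset.sum_nonneg fun w _ => mul_nonneg (Real.rpow_nonneg measureReal_nonneg _)
        (Real.rpow_nonneg measureReal_nonneg _)
    have a8 : 0 ≤ ∑ w ∈ I, ν₂.real (c n w) := Finset.sum_nonneg fun w _ => measureReal_nonneg
    calc ν₁.real B ≤ ∑ w ∈ I, ν₁.real (c n w) := a3
      _ ≤ _ := a5
      _ ≤ M ^ (1 / p) * ν₂.real (Metric.cthickening (δ n) B) ^ (1 / q) := by
        have e1 := Real.rpow_le_rpow a7 a6 (by positivity : 0 ≤ 1 / p)
        have e2 := Real.rpow_le_rpow a8 a4 (by positivity : 0 ≤ 1 / q)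
        exact mul_le_mul e1 e2 (Real.rpow_nonneg a8 _)
          (Real.rpow_nonneg (le_trans a7 a6) _)
  have l1 : Tendsto (fun n => ν₂.real (Metric.cthickening (δ n) B)) atTop (𝓝 (ν₂.real B)) :=
    (ENNReal.tendsto_toReal (measure_ne_top ν₂ B)).comp
      ((tendsto_measure_cthickening_of_isClosed ⟨1, one_pos, measure_ne_top _ _⟩ hB).comp hδ)
  have l2 := (l1.rpow_const (p := 1 / q) (Or.inr (by positivity))).const_mul (M ^ (1 / p))
  exact ge_of_tendsto' l2 step

theorem meas_bound {ν₁ ν₂ : Measure X} [IsFiniteMeasure ν₁] [IsFiniteMeasure ν₂] {C r : ℝ}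
    (hC : 0 ≤ C) (hr : 0 ≤ r) (h : ∀ B : Set X, IsClosed B → ν₁.real B ≤ C * ν₂.real B ^ r)
    {B : Set X} (hB : MeasurableSet B) : ν₁.real B ≤ C * ν₂.real B ^ r := by
  have h1 : ν₁ B ≤ ENNReal.ofReal (C * ν₂.real B ^ r) := by
    rw [hB.measure_eq_iSup_isClosed_of_ne_top (measure_ne_top _ _)]
    refine iSup_le fun D => iSup_le fun hD => iSup_le fun hDc => ?_
    have h2 : ν₁ D = ENNReal.ofReal (ν₁.real D) := by
      rw [ofReal_measureReal]
    rw [h2]
    refine ENNReal.ofReal_le_ofReal ?_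
    refine le_trans (h D hDc) ?_
    have h3 : ν₂.real D ≤ ν₂.real B := measureReal_mono hD
    have h4 := Real.rpow_le_rpow measureReal_nonneg h3 hr
    exact mul_le_mul_of_nonneg_left h4 hC
  exact ENNReal.toReal_le_of_le_ofReal
    (mul_nonneg hC (Real.rpow_nonneg measureReal_nonneg _)) h1

end

section

variable {X : Type*} [MeasurableSpace X]

theorem ac_of_bound {ν₁ ν₂ : Measure X} [IsFiniteMeasure ν₁] [IsFiniteMeasure ν₂] {C r : ℝ}
    (hr : 0 < r) (h : ∀ B : Set X, MeasurableSet B → ν₁.real B ≤ C * ν₂.real B ^ r) :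
    ν₁ ≪ ν₂ := by
  refine Measure.AbsolutelyContinuous.mk fun B hB h0 => ?_
  have h1 : ν₂.real B = 0 := by simp [Measure.real, h0]
  have h2 := h B hB
  rw [h1, Real.zero_rpow hr.ne', mul_zero] at h2
  have h3 : ν₁.real B = 0 := le_antisymm h2 measureReal_nonneg
  exact (measureReal_eq_zero_iff).1 h3

theorem weak_bound {ν₁ ν₂ : Measure X} [IsFiniteMeasure ν₁] [IsFiniteMeasure ν₂] {C p q : ℝ}
    (hC : 0 ≤ C) (hpq : p.HolderConjugate q)
    (h : ∀ B : Set X, MeasurableSet B → ν₁.real B ≤ C * ν₂.real B ^ (1 / q)) {t : ℝ}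
    (ht : 0 < t) :
    ν₂.real {x | t < (ν₁.rnDeriv ν₂ x).toReal} ≤ (C / t) ^ p := by
  have hp0 : 0 < p := hpq.pos
  set B : Set X := {x | t < (ν₁.rnDeriv ν₂ x).toReal} with hBdef
  have hB : MeasurableSet B :=
    measurableSet_lt measurable_const (Measure.measurable_rnDeriv ν₁ ν₂).ennreal_toReal
  have h1 : ENNReal.ofReal t * ν₂ B ≤ ν₁ B := by
    calc ENNReal.ofReal t * ν₂ B = ∫⁻ _ in B, ENNReal.ofReal t ∂ν₂ := by
          rw [setLIntegral_const]
      _ ≤ ∫⁻ x in B, ν₁.rnDeriv ν₂ x ∂ν₂ := by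
          refine setLIntegral_mono (Measure.measurable_rnDeriv ν₁ ν₂) fun x hx => ?_
          calc ENNReal.ofReal t ≤ ENNReal.ofReal (ν₁.rnDeriv ν₂ x).toReal :=
                ENNReal.ofReal_le_ofReal (le_of_lt hx)
            _ ≤ ν₁.rnDeriv ν₂ x := ENNReal.ofReal_toReal_le
      _ ≤ ν₁ B := Measure.setLIntegral_rnDeriv_le B
  have h2 : t * ν₂.real B ≤ ν₁.real B := by
    have h3 := ENNReal.toReal_mono (measure_ne_top ν₁ B) h1
    rwa [ENNReal.toReal_mul, ENNReal.toReal_ofReal ht.le] at h3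
  have h3 := h2.trans (h B hB)
  rcases (measureReal_nonneg (μ := ν₂) (s := B)).eq_or_lt with h0 | h0
  · rw [← h0]
    exact Real.rpow_nonneg (by positivity) _
  · set x := ν₂.real B with hx
    have e1 : x = x ^ (1 / p) * x ^ (1 / q) := by
      rw [← Real.rpow_add h0]
      have : 1 / p + 1 / q = 1 := by
        have := hpq.inv_add_inv_eq_one
        simpa [one_div] using this
      rw [this, Real.rpow_one]
    have e2 : 0 < x ^ (1 / q) := Real.rpow_pos_of_pos h0 _
    have e3 : t * x ^ (1 / p) ≤ C := by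
      have e4 : t * x ^ (1 / p) * x ^ (1 / q) ≤ C * x ^ (1 / q) := by
        rw [mul_assoc, ← e1]
        exact h3
      exact le_of_mul_le_mul_right e4 e2
    have e5 : x ^ (1 / p) ≤ C / t := by
      rw [le_div_iff₀ ht, mul_comm]
      exact e3
    calc x = (x ^ (1 / p)) ^ p := by
          rw [← Real.rpow_mul h0.le, one_div, inv_mul_cancel₀ hp0.ne', Real.rpow_one]
      _ ≤ (C / t) ^ p := Real.rpow_le_rpow (Real.rpow_nonneg h0.le _) e5 hp0.le

theorem memLp_of_bound {ν₁ ν₂ : Measure X} [IsFiniteMeasure ν₁] [IsFiniteMeasure ν₂]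
    {C p q r : ℝ} (hC : 0 ≤ C) (hpq : p.HolderConjugate q) (hr : 0 < r) (hrp : r < p)
    (h : ∀ B : Set X, MeasurableSet B → ν₁.real B ≤ C * ν₂.real B ^ (1 / q)) :
    MemLp (fun x => (ν₁.rnDeriv ν₂ x).toReal) (ENNReal.ofReal r) ν₂ := by
  have hp0 : 0 < p := hpq.pos
  have hm : Measurable fun x => (ν₁.rnDeriv ν₂ x).toReal :=
    (Measure.measurable_rnDeriv ν₁ ν₂).ennreal_toReal
  refine ⟨hm.aestronglyMeasurable, ?_⟩
  rw [eLpNorm_lt_top_iff_lintegral_rpow_enorm_lt_top (by simpa using hr) ENNReal.ofReal_ne_top,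
    ENNReal.toReal_ofReal hr.le]
  have e0 : ∀ x, ‖(ν₁.rnDeriv ν₂ x).toReal‖ₑ ^ r =
      ENNReal.ofReal ((ν₁.rnDeriv ν₂ x).toReal ^ r) := by
    intro x
    rw [Real.enorm_of_nonneg ENNReal.toReal_nonneg,
      ENNReal.ofReal_rpow_of_nonneg ENNReal.toReal_nonneg hr.le]
  simp only [e0]
  rw [lintegral_rpow_eq_lintegral_meas_lt_mul ν₂
    (Eventually.of_forall fun x => ENNReal.toReal_nonneg) hm.aemeasurable hr]
  refine ENNReal.mul_lt_top ENNReal.ofReal_lt_top ?_
  have hsplit : Set.Ioi (0 : ℝ) = Set.Ioc 0 1 ∪ Set.Ioi 1 := by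
    rw [Set.Ioc_union_Ioi_eq_Ioi zero_le_one]
  rw [hsplit]
  refine lt_of_le_of_lt (lintegral_union_le _ _ _) (ENNReal.add_lt_top.2 ⟨?_, ?_⟩)
  · have h1 : IntegrableOn (fun t : ℝ => t ^ (r - 1)) (Set.Ioc 0 1) volume := by
      have := intervalIntegral.intervalIntegrable_rpow' (a := 0) (b := 1) (r := r - 1)
        (by linarith)
      rwa [intervalIntegrable_iff_integrableOn_Ioc_of_le zero_le_one] at this
    calc _ ≤ ∫⁻ t in Set.Ioc (0 : ℝ) 1, ν₂ Set.univ * ENNReal.ofReal (t ^ (r - 1)) := by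
          refine lintegral_mono fun t => ?_
          gcongr
          exact Set.subset_univ _
      _ = ν₂ Set.univ * ∫⁻ t in Set.Ioc (0 : ℝ) 1, ENNReal.ofReal (t ^ (r - 1)) := by
          rw [lintegral_const_mul' _ _ (measure_ne_top _ _)]
      _ < ⊤ := ENNReal.mul_lt_top (measure_lt_top _ _) h1.lintegral_lt_top
  · have h1 : IntegrableOn (fun t : ℝ => t ^ (r - 1 - p)) (Set.Ioi 1) volume :=
      integrableOn_Ioi_rpow_of_lt (by linarith) one_pos
    calc _ ≤ ∫⁻ t in Set.Ioi (1 : ℝ), ENNReal.ofReal (C ^ p) *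
            ENNReal.ofReal (t ^ (r - 1 - p)) := by
          refine setLIntegral_mono (by fun_prop) fun t ht => ?_
          have ht0 : (0 : ℝ) < t := lt_trans one_pos ht
          have h2 := weak_bound hC hpq h ht0
          have h3 : ν₂ {x | t < (ν₁.rnDeriv ν₂ x).toReal} ≤ ENNReal.ofReal ((C / t) ^ p) := by
            rw [← ofReal_measureReal]
            exact ENNReal.ofReal_le_ofReal h2
          calc _ ≤ ENNReal.ofReal ((C / t) ^ p) * ENNReal.ofReal (t ^ (r - 1)) := by gcongr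
            _ = ENNReal.ofReal (C ^ p) * ENNReal.ofReal (t ^ (r - 1 - p)) := by
              rw [← ENNReal.ofReal_mul (Real.rpow_nonneg (by positivity) _),
                ← ENNReal.ofReal_mul (Real.rpow_nonneg hC _), Real.div_rpow hC ht0.le,
                Real.rpow_sub ht0 (r - 1) p]
              congr 1
              ring
      _ = ENNReal.ofReal (C ^ p) * ∫⁻ t in Set.Ioi (1 : ℝ), ENNReal.ofReal (t ^ (r - 1 - p)) := by
          rw [lintegral_const_mul' _ _ ENNReal.ofReal_ne_top]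
      _ < ⊤ := ENNReal.mul_lt_top ENNReal.ofReal_lt_top h1.lintegral_lt_top

end

end Pool.Agent.Lib.MP_ed8a78_an.Lit
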