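import Pool.Agent.Lib.MP_ed8a78_an.Bound

set_option autoImplicit false

namespace Pool.Agent.Lib.MP_ed8a78_an

lemma rp_le {y a t : ℝ} (ha : 0 < a) (hay : a ≤ y) (ht : 0 < t) (h : 1 ≤ t ^ 13 * a ^ 19) :
    y ^ (-q1) ≤ t := by
  refine le_trans ?_ (rpow_neg_q1_le ha ht h)
  apply Real.rpow_le_rpow_of_nonpos ha hay
  have := q1_pos; linarith

lemma rp_ge {y a t : ℝ} (hy : 0 < y) (hya : y ≤ a) (ht : 0 < t) (h : t ^ 13 * a ^ 19 ≤ 1) :
    t ≤ y ^ (-q1) := by
  have ha : 0 < a := by linarith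
  have h0 : a ^ (-q1) ≤ y ^ (-q1) := by
    apply Real.rpow_le_rpow_of_nonpos hy hya
    have := q1_pos; linarith
  refine le_trans ?_ h0
  have h1 : (a ^ (-q1)) ^ 13 = (a ^ 19)⁻¹ := by
    rw [← Real.rpow_natCast (a ^ (-q1)) 13, ← Real.rpow_mul ha.le]
    have : -q1 * ((13 : ℕ) : ℝ) = -((19 : ℕ) : ℝ) := by unfold q1; push_cast; ring
    rw [this, Real.rpow_neg ha.le, Real.rpow_natCast]
  have h2 : t ^ 13 ≤ (a ^ (-q1)) ^ 13 := by
    rw [h1, le_inv_comm₀ (by positivity) (by positivity), ]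
    rw [← one_div, le_div_iff₀ (by positivity)]
    linarith
  exact le_of_pow_le_pow_left₀ (by norm_num) (Real.rpow_nonneg ha.le _) h2

/-- The five explicit terms. -/
noncomputable def five (X : ℝ) : ℝ :=
  (1 + 27 / 4 * X ^ 2) ^ (-q1) + (7 - 6 * X + 9 / 4 * X ^ 2) ^ (-q1)
    + (7 + 6 * X + 9 / 4 * X ^ 2) ^ (-q1)
    + (7 - 2 * X + 1 / 4 * X ^ 2) ^ (-q1) + (7 + 2 * X + 1 / 4 * X ^ 2) ^ (-q1)

lemma five_neg (X : ℝ) : five (-X) = five X := by
  unfold five
  rw [neg_sq, show 7 - 6 * -X = 7 + 6 * X by ring, show 7 + 6 * -X = 7 - 6 * X by ring,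
    show 7 - 2 * -X = 7 + 2 * X by ring, show 7 + 2 * -X = 7 - 2 * X by ring]
  ring

lemma five_small {X : ℝ} (h1 : 1 / 2 ≤ X) (h2 : X ≤ 3 / 4) : five X ≤ 0.5395 := by
  have a0 : (1 + 27 / 4 * X ^ 2) ^ (-q1) ≤ 0.236 :=
    rp_le (a := 43 / 16) (by norm_num) (by nlinarith) (by norm_num) (by norm_num)
  have a1 : (7 - 6 * X + 9 / 4 * X ^ 2) ^ (-q1) ≤ 0.1442 :=
    rp_le (a := 241 / 64) (by norm_num) (by nlinarith) (by norm_num) (by norm_num)
  have a2 : (7 + 6 * X + 9 / 4 * X ^ 2) ^ (-q1) ≤ 0.032 :=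
    rp_le (a := 169 / 16) (by norm_num) (by nlinarith) (by norm_num) (by norm_num)
  have b1 : (7 - 2 * X + 1 / 4 * X ^ 2) ^ (-q1) ≤ 0.0799 :=
    rp_le (a := 361 / 64) (by norm_num) (by nlinarith) (by norm_num) (by norm_num)
  have b2 : (7 + 2 * X + 1 / 4 * X ^ 2) ^ (-q1) ≤ 0.0474 :=
    rp_le (a := 129 / 16) (by norm_num) (by nlinarith) (by norm_num) (by norm_num)
  unfold five
  linarith

lemma five_large {X : ℝ} (h1 : 3 / 4 ≤ X) (h2 : X ≤ 3 / 2) : five X ≤ 0.4784 := by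
  have a0 : (1 + 27 / 4 * X ^ 2) ^ (-q1) ≤ 0.1012 :=
    rp_le (a := 307 / 64) (by norm_num) (by nlinarith) (by norm_num) (by norm_num)
  have a1 : (7 - 6 * X + 9 / 4 * X ^ 2) ^ (-q1) ≤ 0.201 :=
    rp_le (a := 3) (by norm_num) (by nlinarith [sq_nonneg (3 * X - 4)]) (by norm_num) (by norm_num)
  have a2 : (7 + 6 * X + 9 / 4 * X ^ 2) ^ (-q1) ≤ 0.0243 :=
    rp_le (a := 817 / 64) (by norm_num) (by nlinarith) (by norm_num) (by norm_num)
  have b1 : (7 - 2 * X + 1 / 4 * X ^ 2) ^ (-q1) ≤ 0.109 :=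
    rp_le (a := 73 / 16) (by norm_num) (by nlinarith) (by norm_num) (by norm_num)
  have b2 : (7 + 2 * X + 1 / 4 * X ^ 2) ^ (-q1) ≤ 0.0429 :=
    rp_le (a := 553 / 64) (by norm_num) (by nlinarith) (by norm_num) (by norm_num)
  unfold five
  linarith

lemma ff_et (x : ℝ) : ff (et x) = (1 + 3 / 4 * x ^ 2) ^ (-q1) := by
  unfold ff; rw [N_et]
lemma ff_C0 (x : ℝ) : ff (C 0 (et x)) = (1 + 27 / 4 * x ^ 2) ^ (-q1) := by
  unfold ff; rw [N_C0_et]
lemma ff_C1 (x : ℝ) : ff (C 1 (et x)) = (7 - 6 * x + 9 / 4 * x ^ 2) ^ (-q1) := by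
  unfold ff; rw [N_C1_et]
lemma ff_C2 (x : ℝ) : ff (C 2 (et x)) = (7 + 6 * x + 9 / 4 * x ^ 2) ^ (-q1) := by
  unfold ff; rw [N_C2_et]

lemma five_eq (X : ℝ) :
    ff (C 0 (et X)) + ff (C 1 (et X)) + ff (C 2 (et X)) + ff (C 1 (et (X / 3)))
      + ff (C 2 (et (X / 3))) = five X := by
  rw [ff_C0, ff_C1, ff_C2, ff_C1, ff_C2]
  unfold five
  rw [show 7 - 6 * (X / 3) + 9 / 4 * (X / 3) ^ 2 = 7 - 2 * X + 1 / 4 * X ^ 2 by ring,
    show 7 + 6 * (X / 3) + 9 / 4 * (X / 3) ^ 2 = 7 + 2 * X + 1 / 4 * X ^ 2 by ring]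

/-- Main stopping inequality. -/
lemma stop_ineq (m : ℕ) (x : ℝ) (h1 : 1 / 2 ≤ 3 ^ (m + 1) * |x|) (h2 : 3 ^ (m + 1) * |x| ≤ 3 / 2) :
    five (3 ^ (m + 1) * x)
      + ∑ w ∈ Finset.univ.filter (fun w : Fin (m + 1) → Fin 3 => 13 ≤ N (gw (m + 1) w)),
            ff (Cw (m + 1) w (et x)) ≤ ff (et x) := by
  have hfive : five (3 ^ (m + 1) * x) = five (3 ^ (m + 1) * |x|) := by
    rcases abs_cases x with ⟨h, _⟩ | ⟨h, _⟩
    · rw [h]
    · rw [h, mul_neg, five_neg]
  rw [hfive, ff_et, ← sq_abs]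
  set X := 3 ^ (m + 1) * |x| with hX
  rcases Nat.eq_zero_or_pos m with rfl | hm
  · rw [filter_one_empty, add_zero]
    have hx : |x| ≤ 1 / 2 := by
      rw [hX] at h2; norm_num at h2; linarith
    have hg : (0.77 : ℝ) ≤ (1 + 3 / 4 * |x| ^ 2) ^ (-q1) :=
      rp_ge (a := 19 / 16) (by positivity) (by nlinarith [abs_nonneg x]) (by norm_num) (by norm_num)
    rcases le_total X (3 / 4) with h | h
    · have := five_small h1 h; linarith
    · have := five_large h h2; linarith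
  · have h9 : (9 : ℝ) ≤ 3 ^ (m + 1) := by
      calc (9 : ℝ) = 3 ^ 2 := by norm_num
        _ ≤ 3 ^ (m + 1) := pow_le_pow_right₀ (by norm_num) (by omega)
    have hx9 : 9 * |x| ≤ X := by
      rw [hX]; exact mul_le_mul_of_nonneg_right h9 (abs_nonneg x)
    rcases le_total X (3 / 4) with h | h
    · have hf := five_small h1 h
      have hside := side_sum (k := m + 1) (x := x) (δ := 3 / 8) (by linarith) (by norm_num)
        shell_38 S_38
      have hg : (0.992 : ℝ) ≤ (1 + 3 / 4 * |x| ^ 2) ^ (-q1) :=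
        rp_ge (a := 193 / 192) (by positivity) (by nlinarith [abs_nonneg x]) (by norm_num)
          (by norm_num)
      linarith
    · have hf := five_large h h2
      have hside := side_sum (k := m + 1) (x := x) (δ := 3 / 4) (by linarith) (by norm_num)
        shell_34 S_34
      have hg : (0.969 : ℝ) ≤ (1 + 3 / 4 * |x| ^ 2) ^ (-q1) :=
        rp_ge (a := 49 / 48) (by positivity) (by nlinarith [abs_nonneg x]) (by norm_num)
          (by norm_num)
      linarith

/-- Direct bound for few letters. -/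
lemma direct_ineq (m : ℕ) (x : ℝ) (h2 : 3 ^ (m + 1) * |x| ≤ 3 / 2) :
    ∑ w : Fin (m + 1) → Fin 3, ff (Cw (m + 1) w (et x)) ≤ 2 * ff (et x) := by
  refine (split_sum m ff ff_nonneg x).trans ?_
  rw [Fin.sum_univ_three]
  set X := 3 ^ m * x with hX
  have hXa : |X| ≤ 1 / 2 := by
    rw [hX, abs_mul, abs_of_pos (by positivity : (0 : ℝ) < 3 ^ m)]
    rw [pow_succ] at h2
    linarith
  have hX1 := (abs_le.1 hXa).1
  have hX2 := (abs_le.1 hXa).2
  have c0 : ff (C 0 (et X)) ≤ 1 := by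
    rw [ff_C0]
    exact rp_le (a := 1) (by norm_num) (by nlinarith [sq_nonneg X]) (by norm_num) (by norm_num)
  have c12 : ff (C 1 (et X)) + ff (C 2 (et X)) ≤ 0.168 := by
    rw [ff_C1, ff_C2]
    rcases le_total 0 X with h | h
    · have a1 : (7 - 6 * X + 9 / 4 * X ^ 2) ^ (-q1) ≤ 0.109 :=
        rp_le (a := 73 / 16) (by norm_num) (by nlinarith) (by norm_num) (by norm_num)
      have a2 : (7 + 6 * X + 9 / 4 * X ^ 2) ^ (-q1) ≤ 0.059 :=
        rp_le (a := 7) (by norm_num) (by nlinarith) (by norm_num) (by norm_num)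
      linarith
    · have a1 : (7 - 6 * X + 9 / 4 * X ^ 2) ^ (-q1) ≤ 0.059 :=
        rp_le (a := 7) (by norm_num) (by nlinarith) (by norm_num) (by norm_num)
      have a2 : (7 + 6 * X + 9 / 4 * X ^ 2) ^ (-q1) ≤ 0.109 :=
        rp_le (a := 73 / 16) (by norm_num) (by nlinarith) (by norm_num) (by norm_num)
      linarith
  rw [ff_et, ← sq_abs]
  rcases Nat.eq_zero_or_pos m with rfl | hm
  · rw [filter_one_empty, add_zero]
    have hx : |x| ≤ 1 / 2 := by norm_num at h2; linarith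
    have hg : (0.77 : ℝ) ≤ (1 + 3 / 4 * |x| ^ 2) ^ (-q1) :=
      rp_ge (a := 19 / 16) (by positivity) (by nlinarith [abs_nonneg x]) (by norm_num) (by norm_num)
    linarith
  · have h9 : (9 : ℝ) ≤ 3 ^ (m + 1) := by
      calc (9 : ℝ) = 3 ^ 2 := by norm_num
        _ ≤ 3 ^ (m + 1) := pow_le_pow_right₀ (by norm_num) (by omega)
    have hx9 : 9 * |x| ≤ 3 ^ (m + 1) * |x| := mul_le_mul_of_nonneg_right h9 (abs_nonneg x)
    have hside := side_sum (k := m + 1) (x := x) (δ := 3 / 4) (by linarith) (by norm_num)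
      shell_34 S_34
    have hg : (0.969 : ℝ) ≤ (1 + 3 / 4 * |x| ^ 2) ^ (-q1) :=
      rp_ge (a := 49 / 48) (by positivity) (by nlinarith [abs_nonneg x]) (by norm_num)
        (by norm_num)
    linarith

/-- One-step bound away from the anchors. -/
lemma onestep_ineq (x : ℝ) (h1 : 1 / 2 ≤ |x|) (h2 : |x| ≤ 2 / 3) :
    ∑ i : Fin 3, ff (C i (et x)) ≤ ff (et x) := by
  rw [Fin.sum_univ_three, ff_C0, ff_C1, ff_C2, ff_et]
  have hx2 : 1 / 4 ≤ x ^ 2 := by rw [← sq_abs]; nlinarith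
  have hx2' : x ^ 2 ≤ 4 / 9 := by rw [← sq_abs]; nlinarith [abs_nonneg x]
  have a0 : (1 + 27 / 4 * x ^ 2) ^ (-q1) ≤ 0.236 :=
    rp_le (a := 43 / 16) (by norm_num) (by nlinarith) (by norm_num) (by norm_num)
  have a1 : (7 - 6 * x + 9 / 4 * x ^ 2) ^ (-q1) ≤ 0.201 :=
    rp_le (a := 3) (by norm_num) (by nlinarith [sq_nonneg (3 * x - 4)]) (by norm_num) (by norm_num)
  have a2 : (7 + 6 * x + 9 / 4 * x ^ 2) ^ (-q1) ≤ 0.201 :=
    rp_le (a := 3) (by norm_num) (by nlinarith [sq_nonneg (3 * x + 4)]) (by norm_num) (by norm_num)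
  have hg : (0.65 : ℝ) ≤ (1 + 3 / 4 * x ^ 2) ^ (-q1) :=
    rp_ge (a := 4 / 3) (by positivity) (by nlinarith) (by norm_num) (by norm_num)
  linarith

/-- `Lop^[n] ff ≤ 2 ff` on the normalised points, given it for smaller exponents. -/
lemma key_et (n : ℕ) (ih : ∀ r < n, ∀ v : ℝ × ℝ, v ≠ 0 → Lop^[r] ff v ≤ 2 * ff v)
    (x : ℝ) (hx : |x| ≤ 2 / 3) : Lop^[n] ff (et x) ≤ 2 * ff (et x) := by
  rcases Nat.eq_zero_or_pos n with rfl | hn
  · have := ff_nonneg (et x)
    simp only [Function.iterate_zero, id]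
    linarith
  rcases le_or_gt (1 / 2) |x| with h | h
  · -- one step
    obtain ⟨n', rfl⟩ : ∃ n', n = n' + 1 := ⟨n - 1, by omega⟩
    rw [Function.iterate_succ_apply']
    unfold Lop
    calc ∑ i : Fin 3, (Lop^[n'] ff) (C i (et x)) ≤ ∑ i : Fin 3, 2 * ff (C i (et x)) := by
          apply Finset.sum_le_sum
          intro i _
          exact ih n' (by omega) _ (C_ne_zero i (et_ne_zero x))
      _ = 2 * ∑ i : Fin 3, ff (C i (et x)) := by rw [Finset.mul_sum]
      _ ≤ 2 * ff (et x) := by have := onestep_ineq x h hx; linarith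
  · rcases le_or_gt (3 ^ n * |x|) (3 / 2) with h3 | h3
    · obtain ⟨m, rfl⟩ : ∃ m, n = m + 1 := ⟨n - 1, by omega⟩
      rw [iterate_Lop]
      exact direct_ineq m x h3
    · -- find the stopping level
      have hex : ∃ k, 1 / 2 ≤ 3 ^ k * |x| := ⟨n, by linarith⟩
      classical
      set k := Nat.find hex with hk
      have hk1 : 1 / 2 ≤ 3 ^ k * |x| := Nat.find_spec hex
      have hk0 : k ≠ 0 := by
        intro h0
        rw [h0] at hk1
        simp at hk1
        linarith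
      obtain ⟨m, hm⟩ : ∃ m, k = m + 1 := ⟨k - 1, by omega⟩
      have hk2 : 3 ^ m * |x| < 1 / 2 := by
        have := Nat.find_min hex (m := m) (by omega)
        push Not at this
        exact this
      have hk3 : 3 ^ (m + 1) * |x| ≤ 3 / 2 := by rw [pow_succ]; linarith
      have hkn : k ≤ n - 1 := by
        apply Nat.find_min'
        obtain ⟨n', rfl⟩ : ∃ n', n = n' + 1 := ⟨n - 1, by omega⟩
        simp only [Nat.add_sub_cancel]
        rw [pow_succ] at h3
        linarith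
      rw [hm] at hk1 hkn
      obtain ⟨r, hr⟩ : ∃ r, n = (m + 1) + (r + 1) := ⟨n - (m + 1) - 1, by omega⟩
      rw [hr, Function.iterate_add_apply, iterate_Lop]
      set h' := Lop^[r + 1] ff with hh'
      have hh0 : ∀ v, 0 ≤ h' v := by
        intro v
        rw [hh', iterate_Lop]
        exact Finset.sum_nonneg fun _ _ => ff_nonneg _
      have hhle : ∀ v, v ≠ 0 → h' v ≤ 2 * ff v := ih (r + 1) (by omega)
      refine (split_sum m h' hh0 x).trans ?_
      have e1 : ∑ w ∈ Finset.univ.filter (fun w : Fin (m + 1) → Fin 3 => 13 ≤ N (gw (m + 1) w)),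
            h' (Cw (m + 1) w (et x)) ≤
          2 * ∑ w ∈ Finset.univ.filter (fun w : Fin (m + 1) → Fin 3 => 13 ≤ N (gw (m + 1) w)),
            ff (Cw (m + 1) w (et x)) := by
        rw [Finset.mul_sum]
        apply Finset.sum_le_sum
        intro w _
        exact hhle _ (Cw_ne_zero _ _ (et_ne_zero x))
      have e2 : ∑ i : Fin 3, h' (C i (et (3 ^ m * x))) ≤ 2 * five (3 ^ (m + 1) * x) := by
        rw [Fin.sum_univ_three, ← five_eq]
        have hX3 : 3 ^ (m + 1) * x / 3 = 3 ^ m * x := by rw [pow_succ]; ring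
        rw [hX3]
        have f0 : h' (C 0 (et (3 ^ m * x))) ≤ 2 * (ff (C 0 (et (3 ^ (m + 1) * x)))
            + ff (C 1 (et (3 ^ (m + 1) * x))) + ff (C 2 (et (3 ^ (m + 1) * x)))) := by
          rw [C_zero_et, show 3 * (3 ^ m * x) = 3 ^ (m + 1) * x by rw [pow_succ]; ring, hh',
            Function.iterate_succ_apply']
          unfold Lop
          rw [Fin.sum_univ_three]
          have g0 := ih r (by omega) _ (C_ne_zero 0 (et_ne_zero (3 ^ (m + 1) * x)))
          have g1 := ih r (by omega) _ (C_ne_zero 1 (et_ne_zero (3 ^ (m + 1) * x)))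
          have g2 := ih r (by omega) _ (C_ne_zero 2 (et_ne_zero (3 ^ (m + 1) * x)))
          unfold Lop at g0 g1 g2
          linarith
        have f1 := hhle _ (C_ne_zero 1 (et_ne_zero (3 ^ m * x)))
        have f2 := hhle _ (C_ne_zero 2 (et_ne_zero (3 ^ m * x)))
        linarith
      have := stop_ineq m x hk1 hk3
      linarith

/-- symmetry -/
lemma Lop_rot (f g : ℝ × ℝ → ℝ) (h : ∀ v, f (rot v) = g v) (v : ℝ × ℝ) :
    Lop f (rot v) = Lop g v := by
  unfold Lop
  rw [Fin.sum_univ_three, Fin.sum_univ_three]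
  have e0 := rot_C (0 : Fin 3) v
  have e1 := rot_C (1 : Fin 3) v
  have e2 := rot_C (2 : Fin 3) v
  have h02 : (0 : Fin 3) + 2 = 2 := rfl
  have h12 : (1 : Fin 3) + 2 = 0 := rfl
  have h22 : (2 : Fin 3) + 2 = 1 := rfl
  rw [h02] at e0
  rw [h12] at e1
  rw [h22] at e2
  rw [← e0, ← e1, ← e2, h, h, h]
  ring

lemma iter_rot (n : ℕ) (f g : ℝ × ℝ → ℝ) (h : ∀ v, f (rot v) = g v) (v : ℝ × ℝ) :
    Lop^[n] f (rot v) = Lop^[n] g v := by
  induction n generalizing v with
  | zero => simpa using h v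
  | succ n ih =>
    rw [Function.iterate_succ_apply', Function.iterate_succ_apply']
    exact Lop_rot _ _ ih v

lemma ff_rot (v : ℝ × ℝ) : ff (rot v) = ff v := by unfold ff; rw [N_rot]

lemma iter_smul (n : ℕ) (f g : ℝ × ℝ → ℝ) (c : ℝ) (h : ∀ v, f (c • v) = g v) (v : ℝ × ℝ) :
    Lop^[n] f (c • v) = Lop^[n] g v := by
  induction n generalizing v with
  | zero => simpa using h v
  | succ n ih =>
    rw [Function.iterate_succ_apply', Function.iterate_succ_apply']
    unfold Lop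
    apply Finset.sum_congr rfl
    intro i _
    rw [C_smul]
    exact ih _

lemma ff_smul (c : ℝ) (v : ℝ × ℝ) : ff (c • v) = (c ^ 2) ^ (-q1) * ff v := by
  unfold ff
  rw [N_smul, Real.mul_rpow (sq_nonneg c) (N_nonneg v)]

lemma iter_const_mul (n : ℕ) (f : ℝ × ℝ → ℝ) (c : ℝ) (v : ℝ × ℝ) :
    Lop^[n] (fun v => c * f v) v = c * Lop^[n] f v := by
  rw [iterate_Lop, iterate_Lop, Finset.mul_sum]

lemma key_min (n : ℕ) (ih : ∀ r < n, ∀ v : ℝ × ℝ, v ≠ 0 → Lop^[r] ff v ≤ 2 * ff v)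
    (a b : ℝ) (h1 : |a| ≤ |b|) (h2 : |a| ≤ |a + b|) (h0 : (a, b) ≠ ((0, 0) : ℝ × ℝ)) :
    Lop^[n] ff (a, b) ≤ 2 * ff (a, b) := by
  -- scale
  have hl : b + a / 2 ≠ 0 ∧ 3 / 2 * |a| ≤ |b + a / 2| := by
    have hab : ¬ (a = 0 ∧ b = 0) := by
      rintro ⟨rfl, rfl⟩; exact h0 rfl
    have key : 3 / 2 * |a| ≤ |b + a / 2| := by
      rcases abs_cases a with ⟨ha, ha'⟩ | ⟨ha, ha'⟩ <;>
      rcases abs_cases b with ⟨hb, hb'⟩ | ⟨hb, hb'⟩ <;>
      rcases abs_cases (a + b) with ⟨hc, hc'⟩ | ⟨hc, hc'⟩ <;>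
      rcases abs_cases (b + a / 2) with ⟨hd, hd'⟩ | ⟨hd, hd'⟩ <;>
      rw [ha, hd] <;> rw [ha, hb] at h1 <;> rw [ha, hc] at h2 <;> linarith
    refine ⟨?_, key⟩
    intro h
    rw [h, abs_zero] at key
    have ha : a = 0 := by
      have := abs_nonneg a
      exact abs_eq_zero.1 (by linarith)
    have hb : b = 0 := by rw [ha] at h; linarith
    exact hab ⟨ha, hb⟩
  set l := b + a / 2 with hl'
  have hv : (a, b) = l • et (a / l) := by
    ext
    · simp [et]; field_simp [hl.1]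
    · simp [et]; field_simp [hl.1]; rw [hl']; ring
  rw [hv, iter_smul n ff (fun v => (l ^ 2) ^ (-q1) * ff v) l (ff_smul l), iter_const_mul, ff_smul]
  have hx : |a / l| ≤ 2 / 3 := by
    rw [abs_div, div_le_iff₀ (abs_pos.2 hl.1)]
    linarith [hl.2]
  have := key_et n ih (a / l) hx
  have hpos : 0 ≤ (l ^ 2) ^ (-q1) := Real.rpow_nonneg (sq_nonneg l) _
  nlinarith

theorem main_bound (n : ℕ) (v : ℝ × ℝ) (hv : v ≠ 0) : Lop^[n] ff v ≤ 2 * ff v := by
  induction n using Nat.strong_induction_on generalizing v with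
  | _ n ih =>
    have ih' : ∀ r < n, ∀ v : ℝ × ℝ, v ≠ 0 → Lop^[r] ff v ≤ 2 * ff v := fun r hr v hv => ih r hr v hv
    rcases v with ⟨a, b⟩
    have hrot : ∀ v, Lop^[n] ff (rot v) = Lop^[n] ff v := iter_rot n ff ff ff_rot
    rcases le_total |a| |b| with h1 | h1
    · rcases le_total |a| |a + b| with h2 | h2
      · exact key_min n ih' a b h1 h2 hv
      · -- |a+b| minimal : rot^2
        rw [← hrot (a, b), ← hrot (rot (a, b)), ← ff_rot (a, b), ← ff_rot (rot (a, b))]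
        have : rot (rot (a, b)) = (-(a + b), a) := by simp [rot]
        rw [this]
        apply key_min n ih'
        · rw [abs_neg]; exact h2
        · rw [abs_neg, show -(a + b) + a = -b by ring, abs_neg]; linarith
        · intro h
          apply hv
          simp only [Prod.mk.injEq] at h
          ext
          · exact h.2
          · simp; linarith [h.1, h.2]
    · rcases le_total |b| |a + b| with h2 | h2
      · -- |b| minimal
        rw [← hrot (a, b), ← ff_rot (a, b)]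
        have : rot (a, b) = (-b, a + b) := by simp [rot]
        rw [this]
        apply key_min n ih'
        · rw [abs_neg]; exact h2
        · rw [abs_neg, show -b + (a + b) = a by ring]; exact h1
        · intro h
          apply hv
          simp only [Prod.mk.injEq] at h
          ext
          · simp; linarith [h.1, h.2]
          · simp; linarith [h.1, h.2]
      · rw [← hrot (a, b), ← hrot (rot (a, b)), ← ff_rot (a, b), ← ff_rot (rot (a, b))]
        have : rot (rot (a, b)) = (-(a + b), a) := by simp [rot]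
        rw [this]
        apply key_min n ih'
        · rw [abs_neg]; linarith
        · rw [abs_neg, show -(a + b) + a = -b by ring, abs_neg]; exact h2
        · intro h
          apply hv
          simp only [Prod.mk.injEq] at h
          ext
          · exact h.2
          · simp; linarith [h.1, h.2]

end Pool.Agent.Lib.MP_ed8a78_an
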