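import Pool.Agent.Lib.MP_ed8a78_an.Decay

set_option autoImplicit false

namespace Pool.Agent.Lib.MP_ed8a78_an

/-- ratio step -/
lemma ratio_step (i : Fin 3) {g h : ℝ × ℝ} (hh : h ≠ 0) :
    nr (C i g) / nr (C i h) ≤ nr g / nr h + 3 * (|wedge g h| / N h) := by
  have hN := N_pos hh
  have hnh := nr_pos hh
  have hnC := nr_pos (C_ne_zero i hh)
  set a := bil g h / (2 * N h) with ha
  have hdec : g = a • h + (g + (-a) • h) := by
    ext <;> simp
  have hu : N (g + (-a) • h) = 3 / 4 * wedge g h ^ 2 / N h := by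
    have h4 := bil_sq g h
    rw [ha]
    field_simp
    have : N (g + (-(bil g h / (2 * N h))) • h) = N g - bil g h ^ 2 / (4 * N h) := by
      rw [N_add, N_smul]
      have hb : bil g ((-(bil g h / (2 * N h))) • h) = -(bil g h / (2 * N h)) * bil g h := by
        simp [bil]; ring
      rw [hb]; field_simp; ring
    rw [this]
    field_simp
    linarith
  have hu2 : nr (g + (-a) • h) ≤ |wedge g h| / nr h := by
    unfold nr
    rw [hu]
    have : |wedge g h| / Real.sqrt (N h) = Real.sqrt (wedge g h ^ 2 / N h) := by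
      rw [Real.sqrt_div (sq_nonneg _), Real.sqrt_sq_eq_abs]
    rw [this]
    apply Real.sqrt_le_sqrt
    apply div_le_div_of_nonneg_right _ hN.le
    nlinarith [sq_nonneg (wedge g h)]
  have haa : |a| ≤ nr g / nr h := by
    rw [le_div_iff₀ hnh]
    have h4 := bil_sq g h
    have h5 : (|a| * nr h) ^ 2 ≤ nr g ^ 2 := by
      rw [mul_pow, sq_abs, nr_sq, nr_sq, ha]
      rw [div_pow, mul_pow]
      have : bil g h ^ 2 / (2 ^ 2 * N h ^ 2) * N h = bil g h ^ 2 / (4 * N h) := by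
        field_simp; ring
      rw [this, div_le_iff₀ (by positivity)]
      nlinarith [sq_nonneg (wedge g h)]
    exact (abs_le_of_sq_le_sq' h5 (nr_nonneg g)).2
  have h1 : nr (C i g) ≤ |a| * nr (C i h) + 3 * (|wedge g h| / nr h) := by
    calc nr (C i g) = nr (a • C i h + C i (g + (-a) • h)) := by
          conv_lhs => rw [hdec]
          rw [C_add, C_smul]
      _ ≤ nr (a • C i h) + nr (C i (g + (-a) • h)) := nr_add_le _ _
      _ ≤ |a| * nr (C i h) + 3 * (|wedge g h| / nr h) := by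
          rw [nr_smul]
          have := nr_C_le i (g + (-a) • h)
          linarith
  rw [div_le_iff₀ hnC]
  have h2 : 3 * (|wedge g h| / nr h) ≤ 3 * (|wedge g h| / N h) * nr (C i h) := by
    have h3 := nr_le_nr_C i h
    have h4 : |wedge g h| / nr h = |wedge g h| / N h * nr h := by
      rw [← nr_sq]; field_simp
    rw [h4, mul_assoc]
    apply mul_le_mul_of_nonneg_left _ (by norm_num)
    exact mul_le_mul_of_nonneg_left h3 (by positivity)
  have h3 : |a| * nr (C i h) ≤ nr g / nr h * nr (C i h) := mul_le_mul_of_nonneg_right haa hnC.le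
  linarith

lemma wedge_Cw (n : ℕ) (w : Fin n → Fin 3) (g h : ℝ × ℝ) :
    wedge (Cw n w g) (Cw n w h) = 3 ^ n * wedge g h := by
  induction n with
  | zero => simp
  | succ n ih => rw [Cw_succ, Cw_succ, wedge_C, ih, pow_succ]; ring

/-- The level-`n` sum. -/
noncomputable def An (s : ℝ) (g h : ℝ × ℝ) (n : ℕ) : ℝ :=
  ∑ w : Fin n → Fin 3, (15 : ℝ)⁻¹ ^ n * N (Cw n w h) * (nr (Cw n w g) / nr (Cw n w h)) ^ s

lemma An_nonneg (s : ℝ) (g h : ℝ × ℝ) (n : ℕ) : 0 ≤ An s g h n := by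
  unfold An
  apply Finset.sum_nonneg
  intro w _
  have := N_nonneg (Cw n w h)
  have h2 : 0 ≤ nr (Cw n w g) / nr (Cw n w h) := div_nonneg (nr_nonneg _) (nr_nonneg _)
  positivity

/-- The defect term. -/
noncomputable def Bn (s : ℝ) (g h : ℝ × ℝ) (n : ℕ) : ℝ :=
  ∑ w : Fin n → Fin 3, (15 : ℝ)⁻¹ ^ n * N (Cw n w h) *
    (3 * (|wedge (Cw n w g) (Cw n w h)| / N (Cw n w h))) ^ s

lemma An_succ_le {s : ℝ} (hs : 1 ≤ s) {g h : ℝ × ℝ} (hh : h ≠ 0) (n : ℕ) :
    (An s g h (n + 1)) ^ (1 / s) ≤ (An s g h n) ^ (1 / s) + (Bn s g h n) ^ (1 / s) := by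
  have hs0 : 0 < s := by linarith
  set f : (Fin n → Fin 3) → ℝ := fun w => ((15 : ℝ)⁻¹ ^ n * N (Cw n w h)) ^ (1 / s) *
    (nr (Cw n w g) / nr (Cw n w h)) with hf
  set k : (Fin n → Fin 3) → ℝ := fun w => ((15 : ℝ)⁻¹ ^ n * N (Cw n w h)) ^ (1 / s) *
    (3 * (|wedge (Cw n w g) (Cw n w h)| / N (Cw n w h))) with hk
  have hwt : ∀ w : Fin n → Fin 3, 0 ≤ (15 : ℝ)⁻¹ ^ n * N (Cw n w h) := by
    intro w; have := N_nonneg (Cw n w h); positivity
  have hfn : ∀ w, 0 ≤ f w := by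
    intro w
    have h2 : 0 ≤ nr (Cw n w g) / nr (Cw n w h) := div_nonneg (nr_nonneg _) (nr_nonneg _)
    have := Real.rpow_nonneg (hwt w) (1 / s)
    simp only [hf]; positivity
  have hkn : ∀ w, 0 ≤ k w := by
    intro w
    have h2 : 0 ≤ 3 * (|wedge (Cw n w g) (Cw n w h)| / N (Cw n w h)) := by
      have := N_nonneg (Cw n w h); positivity
    have := Real.rpow_nonneg (hwt w) (1 / s)
    simp only [hk]; positivity
  have hpow : ∀ (x y : ℝ), 0 ≤ x → 0 ≤ y → (x ^ (1 / s) * y) ^ s = x * y ^ s := by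
    intro x y hx hy
    rw [Real.mul_rpow (Real.rpow_nonneg hx _) hy, ← Real.rpow_mul hx, one_div,
      inv_mul_cancel₀ hs0.ne', Real.rpow_one]
  have hA : An s g h n = ∑ w, |f w| ^ s := by
    unfold An
    apply Finset.sum_congr rfl
    intro w _
    rw [abs_of_nonneg (hfn w)]
    simp only [hf]
    rw [hpow _ _ (hwt w) (div_nonneg (nr_nonneg _) (nr_nonneg _))]
  have hB : Bn s g h n = ∑ w, |k w| ^ s := by
    unfold Bn
    apply Finset.sum_congr rfl
    intro w _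
    rw [abs_of_nonneg (hkn w)]
    simp only [hk]
    rw [hpow _ _ (hwt w) (by have := N_nonneg (Cw n w h); positivity)]
  have hmain : An s g h (n + 1) ≤ ∑ w, |f w + k w| ^ s := by
    unfold An
    rw [sum_snoc]
    apply Finset.sum_le_sum
    intro w _
    have hw : Cw n w h ≠ 0 := Cw_ne_zero n w hh
    have hR : 0 ≤ nr (Cw n w g) / nr (Cw n w h) := div_nonneg (nr_nonneg _) (nr_nonneg _)
    have hD : 0 ≤ 3 * (|wedge (Cw n w g) (Cw n w h)| / N (Cw n w h)) := by
      have := N_nonneg (Cw n w h); positivity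
    calc ∑ i : Fin 3, (15 : ℝ)⁻¹ ^ (n + 1) *
            N (Cw (n + 1) (Fin.snoc (α := fun _ => Fin 3) w i) h) *
            (nr (Cw (n + 1) (Fin.snoc (α := fun _ => Fin 3) w i) g) /
              nr (Cw (n + 1) (Fin.snoc (α := fun _ => Fin 3) w i) h)) ^ s
        ≤ ∑ i : Fin 3, (15 : ℝ)⁻¹ ^ (n + 1) * N (C i (Cw n w h)) *
            (nr (Cw n w g) / nr (Cw n w h) +
              3 * (|wedge (Cw n w g) (Cw n w h)| / N (Cw n w h))) ^ s := by
          apply Finset.sum_le_sum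
          intro i _
          rw [Cw_snoc, Cw_snoc]
          have := N_nonneg (C i (Cw n w h))
          apply mul_le_mul_of_nonneg_left _ (by positivity)
          apply Real.rpow_le_rpow (div_nonneg (nr_nonneg _) (nr_nonneg _)) _ hs0.le
          exact ratio_step i hw
      _ = (15 : ℝ)⁻¹ ^ (n + 1) * (∑ i : Fin 3, N (C i (Cw n w h))) *
            (nr (Cw n w g) / nr (Cw n w h) +
              3 * (|wedge (Cw n w g) (Cw n w h)| / N (Cw n w h))) ^ s := by
          rw [Finset.mul_sum, Finset.sum_mul]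
      _ = (15 : ℝ)⁻¹ ^ n * N (Cw n w h) * (nr (Cw n w g) / nr (Cw n w h) +
              3 * (|wedge (Cw n w g) (Cw n w h)| / N (Cw n w h))) ^ s := by
          rw [sum_N_C, pow_succ]; ring
      _ = |f w + k w| ^ s := by
          rw [abs_of_nonneg (add_nonneg (hfn w) (hkn w))]
          simp only [hf, hk]
          rw [← mul_add, hpow _ _ (hwt w) (by positivity)]
  have h1 : (An s g h (n + 1)) ^ (1 / s) ≤ (∑ w, |f w + k w| ^ s) ^ (1 / s) :=
    Real.rpow_le_rpow (An_nonneg _ _ _ _) hmain (by positivity)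
  refine h1.trans ?_
  rw [hA, hB]
  exact Real.Lp_add_le _ f k hs

lemma Bn_eq {s : ℝ} {g h : ℝ × ℝ} (hh : h ≠ 0) (n : ℕ) :
    Bn s g h n = (3 * |wedge g h|) ^ s * (((3 : ℝ) ^ (s - 1) / 5) ^ n *
      Lop^[n] (fun v => N v ^ (-(s - 1))) h) := by
  unfold Bn
  rw [iterate_Lop, Finset.mul_sum, Finset.mul_sum]
  apply Finset.sum_congr rfl
  intro w _
  have hw : 0 < N (Cw n w h) := N_pos (Cw_ne_zero n w hh)
  rw [wedge_Cw, abs_mul, abs_of_pos (by positivity : (0 : ℝ) < 3 ^ n)]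
  have e1 : 3 * (3 ^ n * |wedge g h| / N (Cw n w h)) = (3 * |wedge g h|) * (3 ^ n * (N (Cw n w h))⁻¹) := by
    ring
  have e4 : ((3 : ℝ) ^ n * (N (Cw n w h))⁻¹) ^ s = (3 : ℝ) ^ ((n : ℝ) * s) * N (Cw n w h) ^ (-s) := by
    rw [Real.mul_rpow (by positivity) (by positivity), Real.inv_rpow hw.le, ← Real.rpow_neg hw.le,
      ← Real.rpow_natCast, ← Real.rpow_mul (by norm_num)]
  rw [e1, Real.mul_rpow (x := 3 * |wedge g h|) (by positivity) (by positivity), e4]
  have e2 : N (Cw n w h) * N (Cw n w h) ^ (-s) = N (Cw n w h) ^ (-(s - 1)) := by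
    nth_rewrite 1 [← Real.rpow_one (N (Cw n w h))]
    rw [← Real.rpow_add hw]; congr 1; ring
  have e3 : (15 : ℝ)⁻¹ ^ n * (3 : ℝ) ^ ((n : ℝ) * s) = ((3 : ℝ) ^ (s - 1) / 5) ^ n := by
    rw [div_pow, ← Real.rpow_natCast ((3 : ℝ) ^ (s - 1)), ← Real.rpow_mul (by norm_num), inv_pow]
    rw [inv_mul_eq_div, div_eq_div_iff (by positivity) (by positivity)]
    rw [show (15 : ℝ) = 3 * 5 by norm_num, mul_pow]
    rw [show (3 : ℝ) ^ n = (3 : ℝ) ^ (n : ℝ) by rw [Real.rpow_natCast]]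
    rw [← mul_assoc, ← Real.rpow_add (by norm_num)]
    congr 2; ring
  calc _ = (3 * |wedge g h|) ^ s * (((15 : ℝ)⁻¹ ^ n * (3 : ℝ) ^ ((n : ℝ) * s)) *
        (N (Cw n w h) * N (Cw n w h) ^ (-s))) := by ring
    _ = _ := by rw [e2, e3]

theorem An_bounded {s : ℝ} (hs : 2 < s) (hs5 : (3 : ℝ) ^ (s - 1) < 5) {g h : ℝ × ℝ}
    (hh : h ≠ 0) : ∃ K : ℝ, ∀ n, An s g h n ≤ K := by
  obtain ⟨K, l, hK, hl0, hl1, hdec⟩ := decay (s - 1) (by linarith) hs5
  have hs0 : 0 < s := by linarith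
  set M := (3 * |wedge g h|) ^ s * (K * N h ^ (-(s - 1))) with hM
  have hM0 : 0 ≤ M := by have := N_nonneg h; positivity
  have hB : ∀ n, Bn s g h n ≤ M * l ^ n := by
    intro n
    rw [Bn_eq hh]
    calc _ ≤ (3 * |wedge g h|) ^ s * (K * l ^ n * N h ^ (-(s - 1))) := by
          apply mul_le_mul_of_nonneg_left (hdec n h hh) (by positivity)
      _ = _ := by rw [hM]; ring
  have hB0 : ∀ n, 0 ≤ Bn s g h n := by
    intro n
    unfold Bn
    apply Finset.sum_nonneg
    intro w _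
    have := N_nonneg (Cw n w h)
    positivity
  set r := l ^ (1 / s) with hr
  have hr0 : 0 < r := Real.rpow_pos_of_pos hl0 _
  have hr1 : r < 1 := Real.rpow_lt_one hl0.le hl1 (by positivity)
  have hstep : ∀ n, (An s g h n) ^ (1 / s) ≤ (An s g h 0) ^ (1 / s) +
      M ^ (1 / s) * ∑ k ∈ Finset.range n, r ^ k := by
    intro n
    induction n with
    | zero => simp
    | succ n ih =>
      have h1 := An_succ_le (s := s) (by linarith) (g := g) hh n
      have h2 : (Bn s g h n) ^ (1 / s) ≤ M ^ (1 / s) * r ^ n := by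
        calc _ ≤ (M * l ^ n) ^ (1 / s) := Real.rpow_le_rpow (hB0 n) (hB n) (by positivity)
          _ = _ := by
            rw [Real.mul_rpow hM0 (by positivity), hr, ← Real.rpow_natCast l n,
              ← Real.rpow_mul hl0.le, ← Real.rpow_natCast (l ^ (1 / s)) n, ← Real.rpow_mul hl0.le,
              mul_comm (n : ℝ)]
      rw [Finset.sum_range_succ, mul_add]
      linarith
  have hgeo : ∀ n, ∑ k ∈ Finset.range n, r ^ k ≤ (1 - r)⁻¹ := by
    intro n
    rw [← tsum_geometric_of_lt_one hr0.le hr1]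
    exact (summable_geometric_of_lt_one hr0.le hr1).sum_le_tsum _ (fun _ _ => by positivity)
  refine ⟨((An s g h 0) ^ (1 / s) + M ^ (1 / s) * (1 - r)⁻¹) ^ s, fun n => ?_⟩
  have h1 : (An s g h n) ^ (1 / s) ≤ (An s g h 0) ^ (1 / s) + M ^ (1 / s) * (1 - r)⁻¹ := by
    refine (hstep n).trans ?_
    have := mul_le_mul_of_nonneg_left (hgeo n) (Real.rpow_nonneg hM0 (1 / s))
    linarith
  have h2 := Real.rpow_le_rpow (Real.rpow_nonneg (An_nonneg _ _ _ _) _) h1 hs0.le
  have h3 : 1 / s * s = 1 := by field_simp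
  rwa [← Real.rpow_mul (An_nonneg _ _ _ _), h3, Real.rpow_one] at h2

lemma An_term {p : ℝ} {g h : ℝ × ℝ} (hh : 0 < N h) :
    N h * (nr g / nr h) ^ (2 * p) = N g ^ p * N h ^ (1 - p) := by
  have hnr : ∀ v : ℝ × ℝ, nr v ^ (2 * p) = N v ^ p := by
    intro v
    rw [Real.rpow_mul (nr_nonneg v)]
    congr 1
    rw [show (2 : ℝ) = ((2 : ℕ) : ℝ) by norm_num, Real.rpow_natCast, nr_sq]
  rw [Real.div_rpow (nr_nonneg _) (nr_nonneg _), hnr, hnr, Real.rpow_sub hh, Real.rpow_one]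
  ring

end Pool.Agent.Lib.MP_ed8a78_an
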