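import Pool.Agent.Lib.MP_ed8a78_an.Basic

set_option autoImplicit false

namespace Pool.Agent.Lib.MP_ed8a78_an

/-- The three residues mod 3 of the coordinates are pairwise distinct. -/
def Good (g : ℤ × ℤ) : Prop := ¬ (3 : ℤ) ∣ g.1 - g.2

lemma good_C (i : Fin 3) {g : ℤ × ℤ} (hg : Good g) : Good (C i g) := by
  unfold Good at *
  fin_cases i <;> simp <;> omega

lemma good_Cw (k : ℕ) (w : Fin k → Fin 3) {g : ℤ × ℤ} (hg : Good g) : Good (Cw k w g) := by
  induction k with
  | zero => simpa using hg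
  | succ k ih => rw [Cw_succ]; exact good_C _ (ih _)

lemma three_dvd_co (i : Fin 3) (g : ℤ × ℤ) : (3 : ℤ) ∣ co i (C i g) := by
  fin_cases i <;> simp
  omega

lemma co_unique {g : ℤ × ℤ} (hg : Good g) {i j : Fin 3} (hi : (3 : ℤ) ∣ co i g)
    (hj : (3 : ℤ) ∣ co j g) : i = j := by
  unfold Good at hg
  fin_cases i <;> fin_cases j <;> simp at * <;> omega

lemma C_injective (i : Fin 3) {g g' : ℤ × ℤ} (h : C i g = C i g') : g = g' := by
  rcases g with ⟨a, b⟩
  rcases g' with ⟨a', b'⟩
  fin_cases i <;> simp at * <;> omega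

lemma Cw_unique (k : ℕ) (w w' : Fin k → Fin 3) {x x' : ℤ × ℤ} (hx : Good x)
    (h : Cw k w x = Cw k w' x') : w = w' ∧ x = x' := by
  induction k with
  | zero => exact ⟨Subsingleton.elim _ _, by simpa using h⟩
  | succ k ih =>
    rw [Cw_succ, Cw_succ] at h
    set g := Cw k (fun j => w j.castSucc) x with hg
    set g' := Cw k (fun j => w' j.castSucc) x' with hg'
    have hgood : Good g := good_Cw k _ hx
    have h1 : w (Fin.last k) = w' (Fin.last k) := by
      apply co_unique (good_C _ hgood) (three_dvd_co (w (Fin.last k)) g)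
      rw [h]
      exact three_dvd_co _ _
    rw [h1] at h
    have h2 := C_injective _ h
    obtain ⟨h3, h4⟩ := ih _ _ h2
    refine ⟨?_, h4⟩
    ext j
    refine Fin.lastCases ?_ (fun j => ?_) j
    · rw [h1]
    · rw [congrFun h3 j]

lemma coprime_C (i : Fin 3) {g : ℤ × ℤ} (hg : Good g) (h : IsCoprime g.1 g.2) :
    IsCoprime (C i g).1 (C i g).2 := by
  rcases g with ⟨a, b⟩
  unfold Good at hg
  simp only at hg h
  have key : ∀ c : ℤ, ¬ (3 : ℤ) ∣ c → IsCoprime (3 : ℤ) c := by
    intro c hc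
    rwa [Int.prime_three.coprime_iff_not_dvd]
  fin_cases i
  · simp only [Fin.zero_eta, C_zero]
    refine IsCoprime.mul_left (key _ ?_) ?_
    · omega
    · obtain ⟨u, v, huv⟩ := h
      exact ⟨u + v, v, by linear_combination huv⟩
  · simp only [Fin.mk_one, C_one]
    refine IsCoprime.mul_right (key _ ?_).symm ?_
    · omega
    · obtain ⟨u, v, huv⟩ := h
      exact ⟨u, u + v, by linear_combination huv⟩
  · simp only [Fin.reduceFinMk, C_two]
    -- (2a+b, a+2b): combine via (a - b, a + 2b)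
    have h1 : IsCoprime (a - b) (a + 2 * b) := by
      have h3 : IsCoprime (a - b) (3 * b) := by
        refine IsCoprime.mul_right (key _ hg).symm ?_
        obtain ⟨u, v, huv⟩ := h
        exact ⟨u, u + v, by linear_combination huv⟩
      obtain ⟨u, v, huv⟩ := h3
      exact ⟨u - v, v, by linear_combination huv⟩
    obtain ⟨u, v, huv⟩ := h1
    exact ⟨u, v - u, by linear_combination huv⟩

lemma coprime_Cw (k : ℕ) (w : Fin k → Fin 3) {g : ℤ × ℤ} (hg : Good g)
    (h : IsCoprime g.1 g.2) : IsCoprime (Cw k w g).1 (Cw k w g).2 := by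
  induction k with
  | zero => simpa using h
  | succ k ih => rw [Cw_succ]; exact coprime_C _ (good_Cw _ _ hg) (ih _)

/-- rotation by 60 degrees -/
def rot {R : Type*} [CommRing R] (v : R × R) : R × R := (-v.2, v.1 + v.2)

lemma N_rot {R : Type*} [CommRing R] (v : R × R) : N (rot v) = N v := by
  simp [N, rot]; ring

lemma rot_C {R : Type*} [CommRing R] (i : Fin 3) (v : R × R) :
    rot (C i v) = C (i + 2) (rot v) := by
  fin_cases i
  · simp [rot, C]; constructor <;> ring
  · simp [rot, C]; ring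
  · have : (2 : Fin 3) + 2 = 1 := rfl
    simp [rot, C, this]; constructor <;> ring

lemma rot_Cw {R : Type*} [CommRing R] (k : ℕ) (w : Fin k → Fin 3) (v : R × R) :
    rot (Cw k w v) = Cw k (fun j => w j + 2) (rot v) := by
  induction k with
  | zero => simp
  | succ k ih => rw [Cw_succ, Cw_succ, rot_C, ih]

lemma rot_iter_Cw {R : Type*} [CommRing R] (m k : ℕ) (w : Fin k → Fin 3) (v : R × R) :
    rot^[m] (Cw k w v) = Cw k (fun j => w j + m • (2 : Fin 3)) (rot^[m] v) := by
  induction m with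
  | zero => simp
  | succ m ih =>
    rw [Function.iterate_succ_apply', ih, rot_Cw, Function.iterate_succ_apply']
    congr 1
    ext j
    rw [succ_nsmul, add_assoc]

lemma good_rot {g : ℤ × ℤ} (hg : Good g) : Good (rot g) := by
  unfold Good rot at *
  simp
  omega

lemma good_rot_iter (m : ℕ) {g : ℤ × ℤ} (hg : Good g) : Good (rot^[m] g) := by
  induction m with
  | zero => simpa using hg
  | succ m ih => rw [Function.iterate_succ_apply']; exact good_rot ih

lemma coprime_rot {g : ℤ × ℤ} (h : IsCoprime g.1 g.2) : IsCoprime (rot g).1 (rot g).2 := by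
  obtain ⟨u, v, huv⟩ := h
  exact ⟨u - v, u, by simp [rot]; linear_combination huv⟩

lemma coprime_rot_iter (m : ℕ) {g : ℤ × ℤ} (h : IsCoprime g.1 g.2) :
    IsCoprime (rot^[m] g).1 (rot^[m] g).2 := by
  induction m with
  | zero => simpa using h
  | succ m ih => rw [Function.iterate_succ_apply']; exact coprime_rot ih

lemma N_rot_iter {R : Type*} [CommRing R] (m : ℕ) (v : R × R) : N (rot^[m] v) = N v := by
  induction m with
  | zero => rfl
  | succ m ih => rw [Function.iterate_succ_apply', N_rot, ih]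

/-- The half-open sector. -/
def Sec (g : ℤ × ℤ) : Prop := 0 < g.1 ∧ 0 ≤ g.2

lemma exists_rot_sec {g : ℤ × ℤ} (hg : g ≠ 0) : ∃ m : Fin 6, Sec (rot^[m] g) := by
  rcases g with ⟨a, b⟩
  have h0 : ¬ (a = 0 ∧ b = 0) := by
    rintro ⟨rfl, rfl⟩; exact hg rfl
  unfold Sec
  by_cases h1 : 0 < a ∧ 0 ≤ b
  · exact ⟨0, by simpa using h1⟩
  by_cases h2 : 0 < -b ∧ 0 ≤ a + b
  · exact ⟨1, by simpa [rot] using h2⟩
  by_cases h3 : 0 < -(a + b) ∧ 0 ≤ a
  · refine ⟨2, ?_⟩
    simp only [Fin.isValue, Fin.val_two, Function.iterate_succ, Function.iterate_zero,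
      Function.comp, rot, id]
    omega
  by_cases h4 : 0 < -a ∧ 0 ≤ -b
  · refine ⟨3, ?_⟩
    have : ((3 : Fin 6) : ℕ) = 3 := rfl
    simp only [this, Function.iterate_succ, Function.iterate_zero,
      Function.comp, rot, id]
    omega
  by_cases h5 : 0 < b ∧ 0 ≤ -(a + b)
  · refine ⟨4, ?_⟩
    have : ((4 : Fin 6) : ℕ) = 4 := rfl
    simp only [this, Function.iterate_succ, Function.iterate_zero,
      Function.comp, rot, id]
    omega
  · refine ⟨5, ?_⟩
    have : ((5 : Fin 6) : ℕ) = 5 := rfl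
    simp only [this, Function.iterate_succ, Function.iterate_zero,
      Function.comp, rot, id]
    omega

/-- The anchor vector and its companion. -/
def gw (k : ℕ) (w : Fin k → Fin 3) : ℤ × ℤ := Cw k w (0, 1)

lemma good_anchor : Good ((0, 1) : ℤ × ℤ) := by unfold Good; norm_num

lemma good_gw (k : ℕ) (w : Fin k → Fin 3) : Good (gw k w) := good_Cw k w good_anchor

lemma coprime_gw (k : ℕ) (w : Fin k → Fin 3) : IsCoprime (gw k w).1 (gw k w).2 :=
  coprime_Cw k w good_anchor (by simp [isCoprime_one_right])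

lemma gw_ne_zero (k : ℕ) (w : Fin k → Fin 3) : gw k w ≠ 0 := by
  intro h
  have := good_gw k w
  rw [h] at this
  exact this (by simp)

lemma rot_anchor_injective {m m' : Fin 6}
    (h : rot^[m] ((0, 1) : ℤ × ℤ) = rot^[m'] ((0, 1) : ℤ × ℤ)) : m = m' := by
  have e3 : ((3 : Fin 6) : ℕ) = 3 := rfl
  have e4 : ((4 : Fin 6) : ℕ) = 4 := rfl
  have e5 : ((5 : Fin 6) : ℕ) = 5 := rfl
  revert h
  revert m m'
  decide

/-- A representative in the sector. -/
noncomputable def rep (k : ℕ) (w : Fin k → Fin 3) : ℤ × ℤ :=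
  rot^[(exists_rot_sec (gw_ne_zero k w)).choose] (gw k w)

lemma rep_sec (k : ℕ) (w : Fin k → Fin 3) : Sec (rep k w) :=
  (exists_rot_sec (gw_ne_zero k w)).choose_spec

lemma rep_good (k : ℕ) (w : Fin k → Fin 3) : Good (rep k w) := good_rot_iter _ (good_gw k w)

lemma rep_coprime (k : ℕ) (w : Fin k → Fin 3) : IsCoprime (rep k w).1 (rep k w).2 :=
  coprime_rot_iter _ (coprime_gw k w)

lemma N_rep (k : ℕ) (w : Fin k → Fin 3) : N (rep k w) = N (gw k w) := N_rot_iter _ _

lemma rep_injective (k : ℕ) : Function.Injective (rep k) := by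
  intro w w' h
  unfold rep at h
  set m := (exists_rot_sec (gw_ne_zero k w)).choose
  set m' := (exists_rot_sec (gw_ne_zero k w')).choose
  unfold gw at h
  rw [rot_iter_Cw, rot_iter_Cw] at h
  obtain ⟨h1, h2⟩ := Cw_unique k _ _ (good_rot_iter _ good_anchor) h
  have h3 : m = m' := rot_anchor_injective h2
  rw [h3] at h1
  ext j
  have := congrFun h1 j
  simp only [add_left_inj] at this
  rw [this]

end Pool.Agent.Lib.MP_ed8a78_an
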